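import Mathlib

set_option autoImplicit false

open scoped Pointwise

namespace RatVA

section Abs

variable {A : Type*} [AddCommGroup A]

/-- evaluation of a formal Laurent sum with coefficients in `A`; `t j` is the `j`-th power of an
automorphism -/
noncomputable def evl (t : ℤ → A →+ A) : (ℤ →₀ A) →+ A :=
  Finsupp.liftAddHom t

theorem evl_single (t : ℤ → A →+ A) (j : ℤ) (a : A) :
    evl t (Finsupp.single j a) = (t j) a := by
  unfold evl
  rw [Finsupp.liftAddHom_apply_single]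

theorem evl_eq_sum (t : ℤ → A →+ A) (u : ℤ →₀ A) :
    evl t u = ∑ j ∈ u.support, (t j) (u j) := by
  unfold evl
  rw [Finsupp.liftAddHom_apply]
  rfl

/-- shift of a formal sum -/
noncomputable def shf (k : ℤ) : (ℤ →₀ A) →+ (ℤ →₀ A) :=
  Finsupp.mapDomain.addMonoidHom (fun j => j + k)

theorem shf_apply (k : ℤ) (u : ℤ →₀ A) (j : ℤ) : shf k u j = u (j - k) := by
  unfold shf
  have hinj : Function.Injective (fun j : ℤ => j + k) := fun a b h => by simpa using h
  have := Finsupp.mapDomain_apply hinj u (j - k)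
  simpa using this

theorem shf_single (k : ℤ) (j : ℤ) (a : A) :
    shf k (Finsupp.single j a) = Finsupp.single (j + k) a := by
  unfold shf
  exact Finsupp.mapDomain_single

theorem evl_shf (t : ℤ → A →+ A) (ht : ∀ i j a, t (i + j) a = t i (t j a)) (k : ℤ)
    (u : ℤ →₀ A) :
    evl t (shf k u) = (t k) (evl t u) := by
  have h : (evl t).comp (shf k) = (t k).comp (evl t) := by
    apply Finsupp.addHom_ext
    intro j a
    simp only [AddMonoidHom.comp_apply]
    rw [shf_single, evl_single, evl_single, add_comm, ht]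
  have := DFunLike.congr_fun h u
  exact this

/-- `s`-fold sums of elements of `F` -/
def nF (F : Set A) : ℕ → Set A
  | 0 => {0}
  | s + 1 => nF F s + F

theorem nF_finite {F : Set A} (h : F.Finite) : ∀ s, (nF F s).Finite
  | 0 => Set.finite_singleton 0
  | s + 1 => (nF_finite h s).add h

theorem nF_zero_mem {F : Set A} (h0 : (0 : A) ∈ F) : ∀ s, (0 : A) ∈ nF F s
  | 0 => rfl
  | s + 1 => ⟨0, nF_zero_mem h0 s, 0, h0, by simp⟩

theorem nF_add {F : Set A} {s : ℕ} {x : A} (hx : x ∈ nF F s) :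
    ∀ (s' : ℕ) (y : A), y ∈ nF F s' → x + y ∈ nF F (s + s')
  | 0, y, hy => by
    have : y = 0 := hy
    subst this
    simpa using hx
  | s' + 1, y, hy => by
    obtain ⟨y', hy', f, hf, rfl⟩ := hy
    refine ⟨x + y', nF_add hx s' y' hy', f, hf, ?_⟩
    simp only [add_assoc]

theorem nF_mono {F : Set A} (h0 : (0 : A) ∈ F) {s s' : ℕ} (h : s ≤ s') {x : A}
    (hx : x ∈ nF F s) : x ∈ nF F s' := by
  obtain ⟨d, rfl⟩ := Nat.exists_eq_add_of_le h
  have := nF_add hx d 0 (nF_zero_mem h0 d)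
  simpa using this

theorem nF_neg {F : Set A} (hneg : ∀ a ∈ F, -a ∈ F) : ∀ (s : ℕ) (x : A), x ∈ nF F s → -x ∈ nF F s
  | 0, x, hx => by
    have : x = 0 := hx
    subst this
    show -(0 : A) = 0
    simp
  | s + 1, x, hx => by
    obtain ⟨y', hy', f, hf, rfl⟩ := hx
    refine ⟨-y', nF_neg hneg s y' hy', -f, hneg f hf, ?_⟩
    simp only [neg_add]

theorem nF_one {F : Set A} {x : A} (hx : x ∈ F) : x ∈ nF F 1 :=
  ⟨0, rfl, x, hx, by simp⟩

/-- bounded formal sums with step `b` -/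
def Bd (F : Set A) (b : ℤ) (s : ℕ) (u : ℤ →₀ A) : Prop :=
  (∀ j, u j ≠ 0 → b ∣ j) ∧ ∀ j, u j ∈ nF F s

theorem Bd.add {F : Set A} {b : ℤ} {s s' : ℕ} {u u' : ℤ →₀ A}
    (h : Bd F b s u) (h' : Bd F b s' u') : Bd F b (s + s') (u + u') := by
  refine ⟨fun j hj => ?_, fun j => ?_⟩
  · by_cases h0 : u j = 0
    · apply h'.1 j
      intro h1
      apply hj
      rw [Finsupp.add_apply, h0, h1, add_zero]
    · exact h.1 j h0
  · rw [Finsupp.add_apply]
    exact nF_add (h.2 j) s' _ (h'.2 j)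

theorem Bd.neg {F : Set A} (hneg : ∀ a ∈ F, -a ∈ F) {b : ℤ} {s : ℕ} {u : ℤ →₀ A}
    (h : Bd F b s u) : Bd F b s (-u) := by
  refine ⟨fun j hj => ?_, fun j => ?_⟩
  · apply h.1 j
    intro h1
    apply hj
    rw [Finsupp.neg_apply, h1, neg_zero]
  · rw [Finsupp.neg_apply]
    exact nF_neg hneg s _ (h.2 j)

theorem Bd.shf {F : Set A} {b : ℤ} {s : ℕ} {u : ℤ →₀ A}
    (h : Bd F b s u) {k : ℤ} (hk : b ∣ k) : Bd F b s (shf k u) := by
  refine ⟨fun j hj => ?_, fun j => ?_⟩
  · rw [shf_apply] at hj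
    have := h.1 _ hj
    have h2 := dvd_add this hk
    simpa using h2
  · rw [shf_apply]
    exact h.2 _

theorem Bd.zero {F : Set A} (b : ℤ) : Bd F b 0 0 :=
  ⟨fun j hj => absurd rfl hj, fun _ => rfl⟩

theorem Bd.single {F : Set A} (h0 : (0 : A) ∈ F) {b j : ℤ} (hj : b ∣ j) {a : A} (ha : a ∈ F) :
    Bd F b 1 (Finsupp.single j a) := by
  refine ⟨fun i hi => ?_, fun i => ?_⟩
  · by_cases h : i = j
    · rw [h]; exact hj
    · exact absurd (Finsupp.single_eq_of_ne h) hi
  · by_cases h : i = j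
    · subst h
      rw [Finsupp.single_eq_same]; exact nF_one ha
    · rw [Finsupp.single_eq_of_ne h]
      exact nF_zero_mem h0 1

theorem Bd.dvd {F : Set A} {b b' : ℤ} (hb : b' ∣ b) {s : ℕ} {u : ℤ →₀ A}
    (h : Bd F b s u) : Bd F b' s u :=
  ⟨fun j hj => hb.trans (h.1 j hj), h.2⟩

theorem Bd.mono {F : Set A} (h0 : (0 : A) ∈ F) {b : ℤ} {s s' : ℕ} (hs : s ≤ s') {u : ℤ →₀ A}
    (h : Bd F b s u) : Bd F b s' u :=
  ⟨h.1, fun j => nF_mono h0 hs (h.2 j)⟩

theorem Bd.eq_zero {F : Set A} {b : ℤ} {s : ℕ} {u : ℤ →₀ A}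
    (h : Bd F b s u) {j : ℤ} (hj : ¬ b ∣ j) : u j = 0 := by
  by_contra h0
  exact hj (h.1 j h0)

/-- Filtration `P` moved by `t` -/
theorem indepP (t : ℤ → A →+ A) (ht0 : ∀ a, t 0 a = a) (ht : ∀ i j a, t (i + j) a = t i (t j a))
    (P : ℤ → AddSubgroup A) (hmono : Monotone P)
    (hP : ∀ (i n : ℤ) (a : A), a ∈ P n → (t i) a ∈ P (n + i))
    (hU : ∀ a : A, ∃ n, a ∈ P n)
    (V : Set A) (hV : V.Finite) :
    ∃ b0 : ℕ, ∀ b : ℕ, b0 ≤ b → ∀ u : ℤ →₀ A, (∀ j, u j ≠ 0 → (b : ℤ) ∣ j) →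
      (∀ j, u j ∈ V) → (∀ n, evl t u ∈ P n) → ∀ j n, u j ∈ P n := by
  classical
  -- upper bound
  have hM : ∃ M : ℤ, ∀ v ∈ V, v ∈ P M := by
    induction V, hV using Set.Finite.induction_on with
    | empty => exact ⟨0, fun v hv => absurd hv (Set.notMem_empty v)⟩
    | @insert a S _ _ ih =>
      obtain ⟨M, hM⟩ := ih
      obtain ⟨n, hn⟩ := hU a
      refine ⟨max M n, fun v hv => ?_⟩
      rcases Set.mem_insert_iff.1 hv with rfl | hv
      · exact hmono (le_max_right _ _) hn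
      · exact hmono (le_max_left _ _) (hM v hv)
  -- lower bound
  have hN : ∃ N : ℤ, ∀ v ∈ V, v ∈ P N → ∀ n, v ∈ P n := by
    clear hM
    induction V, hV using Set.Finite.induction_on with
    | empty => exact ⟨0, fun v hv => absurd hv (Set.notMem_empty v)⟩
    | @insert a S _ _ ih =>
      obtain ⟨N, hN⟩ := ih
      by_cases h : ∀ n, a ∈ P n
      · refine ⟨N, fun v hv hvN => ?_⟩
        rcases Set.mem_insert_iff.1 hv with rfl | hv
        · exact h
        · exact hN v hv hvN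
      · push Not at h
        obtain ⟨n, hn⟩ := h
        refine ⟨min N n, fun v hv hvN => ?_⟩
        rcases Set.mem_insert_iff.1 hv with rfl | hv
        · exact absurd (hmono (min_le_right _ _) hvN) hn
        · exact hN v hv (hmono (min_le_left _ _) hvN)
  obtain ⟨M, hM⟩ := hM
  obtain ⟨N, hN⟩ := hN
  refine ⟨(M - N).toNat + 1, fun b hb u hdvd hu hev => ?_⟩
  have hbN : M - N ≤ b := by omega
  have hb1 : 1 ≤ b := by omega
  by_contra hcon
  push Not at hcon
  obtain ⟨j1, n1, hj1⟩ := hcon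
  set J := u.support.filter (fun j => ¬ ∀ n, u j ∈ P n) with hJ
  have hJn : J.Nonempty := by
    refine ⟨j1, ?_⟩
    rw [hJ, Finset.mem_filter, Finsupp.mem_support_iff]
    refine ⟨?_, fun h => hj1 (h n1)⟩
    intro h; apply hj1; rw [h]; exact (P n1).zero_mem
  set j0 := J.max' hJn with hj0
  have hj0J : j0 ∈ J := Finset.max'_mem _ _
  have hj0s : j0 ∈ u.support := (Finset.mem_filter.1 hj0J).1
  have hc0 : ¬ ∀ n, u j0 ∈ P n := (Finset.mem_filter.1 hj0J).2
  apply hc0
  apply hN _ (hu j0)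
  have key : (t j0) (u j0) ∈ P (N + j0) := by
    have h1 : evl t u = (t j0) (u j0) + ∑ j ∈ u.support.erase j0, (t j) (u j) := by
      rw [evl_eq_sum]
      exact (Finset.add_sum_erase _ (fun j => (t j) (u j)) hj0s).symm
    have h2 : ∑ j ∈ u.support.erase j0, (t j) (u j) ∈ P (N + j0) := by
      apply AddSubgroup.sum_mem
      intro j hj
      have hjs : j ∈ u.support := Finset.mem_of_mem_erase hj
      have hjne : j ≠ j0 := Finset.ne_of_mem_erase hj
      rcases lt_or_gt_of_ne hjne with hlt | hgt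
      · -- j < j0
        have d1 := hdvd j (Finsupp.mem_support_iff.1 hjs)
        have d2 := hdvd j0 (Finsupp.mem_support_iff.1 hj0s)
        have d3 : (b : ℤ) ∣ j0 - j := dvd_sub d2 d1
        have h4 : (b : ℤ) ≤ j0 - j := Int.le_of_dvd (by omega) d3
        have h5 := hP j M _ (hM _ (hu j))
        exact hmono (by omega) h5
      · -- j > j0
        have hnJ : j ∉ J := fun h => absurd (Finset.le_max' J j h) (not_le.2 hgt)
        have h6 : ∀ n, u j ∈ P n := by
          by_contra h7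
          exact hnJ (Finset.mem_filter.2 ⟨hjs, h7⟩)
        have h8 := hP j (N + j0 - j) _ (h6 _)
        have e : N + j0 - j + j = N + j0 := by ring
        rwa [e] at h8
    have h3 := hev (N + j0)
    rw [h1] at h3
    exact (AddSubgroup.add_mem_cancel_right _ h2).1 h3
  have h9 := hP (-j0) _ _ key
  have e1 : (t (-j0)) ((t j0) (u j0)) = u j0 := by
    rw [← ht]; simp [ht0]
  have e2 : N + j0 + -j0 = N := by ring
  rwa [e1, e2] at h9

end Abs

end RatVA
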