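import Mathlib

set_option autoImplicit false

namespace RatVA

variable {G : Type*} [Group G]

/-- subgroup generated by all `g`-power-conjugates of the elements of `F` -/
def Kcl (g : G) (F : Set G) : Subgroup G :=
  Subgroup.closure {y | ∃ (i : ℤ) (x : G), x ∈ F ∧ y = g ^ i * x * (g ^ i)⁻¹}

theorem Kcl_conj (g : G) (F : Set G) (i : ℤ) {x : G} (hx : x ∈ Kcl g F) :
    g ^ i * x * (g ^ i)⁻¹ ∈ Kcl g F := by
  unfold Kcl at hx
  induction hx using Subgroup.closure_induction with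
  | mem y hy =>
    obtain ⟨j, x, hx, rfl⟩ := hy
    refine Subgroup.subset_closure ⟨i + j, x, hx, ?_⟩
    rw [zpow_add]
    group
  | one => simpa using (Kcl g F).one_mem
  | mul y z _ _ hy hz =>
    have h : g ^ i * (y * z) * (g ^ i)⁻¹ =
        (g ^ i * y * (g ^ i)⁻¹) * (g ^ i * z * (g ^ i)⁻¹) := by group
    rw [h]
    exact (Kcl g F).mul_mem hy hz
  | inv y _ hy =>
    have h : g ^ i * y⁻¹ * (g ^ i)⁻¹ = (g ^ i * y * (g ^ i)⁻¹)⁻¹ := by group
    rw [h]
    exact (Kcl g F).inv_mem hy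

theorem subset_Kcl (g : G) (F : Set G) : F ⊆ Kcl g F := by
  intro x hx
  exact Subgroup.subset_closure ⟨0, x, hx, by simp⟩

theorem Kcl_le {g : G} {F : Set G} {D : Subgroup G} (hF : F ⊆ D)
    (h1 : ∀ x ∈ D, g * x * g⁻¹ ∈ D) (h2 : ∀ x ∈ D, g⁻¹ * x * g ∈ D) : Kcl g F ≤ D := by
  unfold Kcl
  rw [Subgroup.closure_le]
  rintro y ⟨i, x, hx, rfl⟩
  have key : ∀ i : ℤ, g ^ i * x * (g ^ i)⁻¹ ∈ D := by
    intro i
    induction i using Int.induction_on with
    | zero => simpa using hF hx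
    | succ i ih =>
      have h := h1 _ ih
      have h' : g * (g ^ (i : ℤ) * x * (g ^ (i : ℤ))⁻¹) * g⁻¹ =
          g ^ ((i : ℤ) + 1) * x * (g ^ ((i : ℤ) + 1))⁻¹ := by
        rw [add_comm, zpow_add, zpow_one]
        group
      rwa [h'] at h
    | pred i ih =>
      have h := h2 _ ih
      have h' : g⁻¹ * (g ^ (-(i : ℤ)) * x * (g ^ (-(i : ℤ)))⁻¹) * g =
          g ^ (-(i : ℤ) - 1) * x * (g ^ (-(i : ℤ) - 1))⁻¹ := by
        rw [show (-(i : ℤ) - 1) = -1 + -(i : ℤ) by ring, zpow_add, zpow_neg_one]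
        group
      rwa [h'] at h
  exact key i

theorem Kcl_mono {g : G} {F F' : Set G} (h : F ⊆ F') : Kcl g F ≤ Kcl g F' := by
  unfold Kcl
  apply Subgroup.closure_mono
  rintro y ⟨i, x, hx, rfl⟩
  exact ⟨i, x, h hx, rfl⟩

theorem Kcl_inv (g : G) (F : Set G) : Kcl g⁻¹ F = Kcl g F := by
  unfold Kcl
  congr 1
  ext y
  constructor
  · rintro ⟨i, x, hx, rfl⟩
    exact ⟨-i, x, hx, by rw [inv_zpow']⟩
  · rintro ⟨i, x, hx, rfl⟩
    exact ⟨-i, x, hx, by rw [inv_zpow', neg_neg]⟩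

/-- reduction 0 -/
theorem Kcl_fg_of_pow_mem {g : G} {F : Set G} (hF : F.Finite) {k : ℕ} (hk : 0 < k)
    (hgk : g ^ k ∈ Kcl g F) : (Kcl g F).FG := by
  rw [Subgroup.fg_iff]
  refine ⟨{g ^ k} ∪ ⋃ c ∈ Finset.range k, (fun x => g ^ (c : ℤ) * x * (g ^ (c : ℤ))⁻¹) '' F,
    ?_, ?_⟩
  · apply le_antisymm
    · rw [Subgroup.closure_le]
      rintro y (hy | hy)
      · rw [Set.mem_singleton_iff] at hy
        rw [hy]
        exact hgk
      · simp only [Set.mem_iUnion, Set.mem_image] at hy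
        obtain ⟨c, -, x, hx, rfl⟩ := hy
        exact Kcl_conj g F c (subset_Kcl g F hx)
    · unfold Kcl
      rw [Subgroup.closure_le]
      rintro y ⟨i, x, hx, rfl⟩
      set C := Subgroup.closure ({g ^ k} ∪ ⋃ c ∈ Finset.range k,
        (fun x => g ^ (c : ℤ) * x * (g ^ (c : ℤ))⁻¹) '' F) with hC
      have hk' : (0 : ℤ) < k := by exact_mod_cast hk
      have h1 : g ^ k ∈ C := Subgroup.subset_closure (Or.inl rfl)
      have h2 : i % (k : ℤ) < k := Int.emod_lt_of_pos i hk'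
      have h3 : 0 ≤ i % (k : ℤ) := Int.emod_nonneg i (by omega)
      have h4 : g ^ (i % (k : ℤ)) * x * (g ^ (i % (k : ℤ)))⁻¹ ∈ C := by
        refine Subgroup.subset_closure (Or.inr ?_)
        simp only [Set.mem_iUnion, Set.mem_image, Finset.mem_range]
        refine ⟨(i % (k : ℤ)).toNat, by omega, x, hx, ?_⟩
        rw [Int.toNat_of_nonneg h3]
      have h5 : g ^ i = (g ^ k) ^ (i / (k : ℤ)) * g ^ (i % (k : ℤ)) := by
        rw [← zpow_natCast, ← zpow_mul, ← zpow_add, Int.mul_ediv_add_emod]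
      have h6 : g ^ i * x * (g ^ i)⁻¹ = (g ^ k) ^ (i / (k : ℤ)) *
          (g ^ (i % (k : ℤ)) * x * (g ^ (i % (k : ℤ)))⁻¹) * ((g ^ k) ^ (i / (k : ℤ)))⁻¹ := by
        rw [h5, mul_inv_rev]
        simp only [mul_assoc]
      show g ^ i * x * (g ^ i)⁻¹ ∈ C
      rw [h6]
      exact C.mul_mem (C.mul_mem (C.zpow_mem h1 _) h4) (C.inv_mem (C.zpow_mem h1 _))
  · refine Set.Finite.union (Set.finite_singleton _) ?_
    exact Set.Finite.biUnion (Finset.finite_toSet _) fun c _ => hF.image _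

/-- finite character of the join -/
theorem mem_sup_finite {K0 K' : Subgroup G} {z : G} (hz : z ∈ K0 ⊔ K') :
    ∃ W : Set G, W.Finite ∧ W ⊆ K' ∧ z ∈ K0 ⊔ Subgroup.closure W := by
  rw [Subgroup.sup_eq_closure] at hz
  induction hz using Subgroup.closure_induction with
  | mem y hy =>
    rcases hy with hy | hy
    · exact ⟨∅, Set.finite_empty, Set.empty_subset _,
        (le_sup_left : K0 ≤ K0 ⊔ Subgroup.closure ∅) hy⟩
    · exact ⟨{y}, Set.finite_singleton _, Set.singleton_subset_iff.2 hy,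
        (le_sup_right : Subgroup.closure {y} ≤ K0 ⊔ Subgroup.closure {y})
          (Subgroup.subset_closure rfl)⟩
  | one => exact ⟨∅, Set.finite_empty, Set.empty_subset _, Subgroup.one_mem _⟩
  | mul y z _ _ hy hz =>
    obtain ⟨W1, h1, h2, h3⟩ := hy
    obtain ⟨W2, h4, h5, h6⟩ := hz
    refine ⟨W1 ∪ W2, h1.union h4, Set.union_subset h2 h5, Subgroup.mul_mem _ ?_ ?_⟩
    · exact (sup_le_sup_left (Subgroup.closure_mono Set.subset_union_left) K0) h3
    · exact (sup_le_sup_left (Subgroup.closure_mono Set.subset_union_right) K0) h6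
  | inv y _ hy =>
    obtain ⟨W1, h1, h2, h3⟩ := hy
    exact ⟨W1, h1, h2, Subgroup.inv_mem _ h3⟩

/-- reduction 1 -/
theorem Kcl_fg_of_sup {g : G} {F : Set G} {K0 : Subgroup G} (hK0 : K0.FG)
    (hFK0 : F ⊆ K0) (hle : K0 ≤ Kcl g F)
    (hsup : Kcl g F ≤ K0 ⊔ ⁅Kcl g F, Kcl g F⁆)
    (IH : ∀ F' : Set G, F'.Finite → F' ⊆ (⁅Kcl g F, Kcl g F⁆ : Subgroup G) → (Kcl g F').FG) :
    (Kcl g F).FG := by
  obtain ⟨S, hS, hSf⟩ := (Subgroup.fg_iff K0).1 hK0
  have hSK : ∀ y ∈ S, y ∈ Kcl g F := fun y hy => hle (hS ▸ Subgroup.subset_closure hy)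
  have hA : ∀ y : G, ∃ W : Set G, y ∈ S → W.Finite ∧ W ⊆ (⁅Kcl g F, Kcl g F⁆ : Subgroup G) ∧
      g * y * g⁻¹ ∈ K0 ⊔ Subgroup.closure W := by
    intro y
    by_cases hy : y ∈ S
    · have h1 := Kcl_conj g F 1 (hSK y hy)
      rw [zpow_one] at h1
      obtain ⟨W, hW⟩ := mem_sup_finite (hsup h1)
      exact ⟨W, fun _ => hW⟩
    · exact ⟨∅, fun h => absurd h hy⟩
  have hB : ∀ y : G, ∃ W : Set G, y ∈ S → W.Finite ∧ W ⊆ (⁅Kcl g F, Kcl g F⁆ : Subgroup G) ∧
      g⁻¹ * y * g ∈ K0 ⊔ Subgroup.closure W := by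
    intro y
    by_cases hy : y ∈ S
    · have h1 := Kcl_conj g F (-1) (hSK y hy)
      rw [zpow_neg_one, inv_inv] at h1
      obtain ⟨W, hW⟩ := mem_sup_finite (hsup h1)
      exact ⟨W, fun _ => hW⟩
    · exact ⟨∅, fun h => absurd h hy⟩
  choose WA hWA using hA
  choose WB hWB using hB
  set W0 : Set G := ⋃ y ∈ S, (WA y ∪ WB y) with hW0
  have hW0f : W0.Finite := Set.Finite.biUnion hSf fun y hy => (hWA y hy).1.union (hWB y hy).1
  have hW0s : W0 ⊆ (⁅Kcl g F, Kcl g F⁆ : Subgroup G) := by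
    intro z hz
    simp only [hW0, Set.mem_iUnion] at hz
    obtain ⟨y, hy, hz | hz⟩ := hz
    · exact (hWA y hy).2.1 hz
    · exact (hWB y hy).2.1 hz
  have hWfg := IH W0 hW0f hW0s
  have hclA : ∀ y ∈ S, K0 ⊔ Subgroup.closure (WA y) ≤ K0 ⊔ Kcl g W0 := by
    intro y hy
    refine sup_le_sup_left ?_ K0
    rw [Subgroup.closure_le]
    intro z hz
    apply subset_Kcl
    simp only [hW0, Set.mem_iUnion]
    exact ⟨y, hy, Or.inl hz⟩
  have hclB : ∀ y ∈ S, K0 ⊔ Subgroup.closure (WB y) ≤ K0 ⊔ Kcl g W0 := by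
    intro y hy
    refine sup_le_sup_left ?_ K0
    rw [Subgroup.closure_le]
    intro z hz
    apply subset_Kcl
    simp only [hW0, Set.mem_iUnion]
    exact ⟨y, hy, Or.inr hz⟩
  have hcomm : (⁅Kcl g F, Kcl g F⁆ : Subgroup G) ≤ Kcl g F := by
    rw [Subgroup.commutator_le]
    intro a ha b hb
    rw [commutatorElement_def]
    exact (Kcl g F).mul_mem ((Kcl g F).mul_mem ((Kcl g F).mul_mem ha hb)
      ((Kcl g F).inv_mem ha)) ((Kcl g F).inv_mem hb)
  have hgen : K0 ⊔ Kcl g W0 = Subgroup.closure (S ∪ (Kcl g W0 : Set G)) := by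
    rw [Subgroup.closure_union, hS, Subgroup.closure_eq]
  -- stability
  have hst1 : ∀ x ∈ K0 ⊔ Kcl g W0, g * x * g⁻¹ ∈ K0 ⊔ Kcl g W0 := by
    intro x hx
    rw [hgen] at hx
    induction hx using Subgroup.closure_induction with
    | mem y hy =>
      rcases hy with hy | hy
      · exact hclA y hy (hWA y hy).2.2
      · have h1 := Kcl_conj g W0 1 hy
        rw [zpow_one] at h1
        exact (le_sup_right : Kcl g W0 ≤ K0 ⊔ Kcl g W0) h1
    | one => simpa using Subgroup.one_mem _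
    | mul y z _ _ hy hz =>
      have h : g * (y * z) * g⁻¹ = (g * y * g⁻¹) * (g * z * g⁻¹) := by group
      rw [h]
      exact Subgroup.mul_mem _ hy hz
    | inv y _ hy =>
      have h : g * y⁻¹ * g⁻¹ = (g * y * g⁻¹)⁻¹ := by group
      rw [h]
      exact Subgroup.inv_mem _ hy
  have hst2 : ∀ x ∈ K0 ⊔ Kcl g W0, g⁻¹ * x * g ∈ K0 ⊔ Kcl g W0 := by
    intro x hx
    rw [hgen] at hx
    induction hx using Subgroup.closure_induction with
    | mem y hy =>
      rcases hy with hy | hy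
      · exact hclB y hy (hWB y hy).2.2
      · have h1 := Kcl_conj g W0 (-1) hy
        rw [zpow_neg_one, inv_inv] at h1
        exact (le_sup_right : Kcl g W0 ≤ K0 ⊔ Kcl g W0) h1
    | one => simpa using Subgroup.one_mem _
    | mul y z _ _ hy hz =>
      have h : g⁻¹ * (y * z) * g = (g⁻¹ * y * g) * (g⁻¹ * z * g) := by group
      rw [h]
      exact Subgroup.mul_mem _ hy hz
    | inv y _ hy =>
      have h : g⁻¹ * y⁻¹ * g = (g⁻¹ * y * g)⁻¹ := by group
      rw [h]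
      exact Subgroup.inv_mem _ hy
  have hK : Kcl g F = K0 ⊔ Kcl g W0 := by
    apply le_antisymm
    · exact Kcl_le (hFK0.trans (le_sup_left : K0 ≤ K0 ⊔ Kcl g W0)) hst1 hst2
    · refine sup_le hle (Kcl_le (hW0s.trans hcomm) ?_ ?_)
      · intro x hx
        have h1 := Kcl_conj g F 1 hx
        rwa [zpow_one] at h1
      · intro x hx
        have h1 := Kcl_conj g F (-1) hx
        rwa [zpow_neg_one, inv_inv] at h1
  rw [hK]
  exact hK0.sup hWfg

/-- reduction 2 -/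
theorem Kcl_fg_of_progression {g : G} {F : Set G} (hF : F.Finite) {d : ℕ} (hd : 0 < d)
    {Q : Subgroup G} (hQ : Q.FG) (hQK : Q ≤ Kcl g F)
    (h : ∀ n : ℤ, ∀ x ∈ F, g ^ ((d : ℤ) * n) * x * (g ^ ((d : ℤ) * n))⁻¹ ∈ Q) :
    (Kcl g F).FG := by
  obtain ⟨S, hS, hSf⟩ := (Subgroup.fg_iff Q).1 hQ
  rw [Subgroup.fg_iff]
  refine ⟨⋃ c ∈ Finset.range d, (fun x => g ^ (c : ℤ) * x * (g ^ (c : ℤ))⁻¹) '' S, ?_, ?_⟩
  · apply le_antisymm
    · rw [Subgroup.closure_le]
      intro y hy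
      simp only [Set.mem_iUnion, Set.mem_image] at hy
      obtain ⟨c, -, x, hx, rfl⟩ := hy
      exact Kcl_conj g F c (hQK (hS ▸ Subgroup.subset_closure hx))
    · set C := Subgroup.closure (⋃ c ∈ Finset.range d,
        (fun x => g ^ (c : ℤ) * x * (g ^ (c : ℤ))⁻¹) '' S) with hC
      have hd' : (0 : ℤ) < d := by exact_mod_cast hd
      have key : ∀ c : ℕ, c < d → ∀ x ∈ Q, g ^ (c : ℤ) * x * (g ^ (c : ℤ))⁻¹ ∈ C := by
        intro c hc x hx
        rw [← hS] at hx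
        induction hx using Subgroup.closure_induction with
        | mem y hy =>
          refine Subgroup.subset_closure ?_
          simp only [Set.mem_iUnion, Set.mem_image, Finset.mem_range]
          exact ⟨c, hc, y, hy, rfl⟩
        | one => simpa using C.one_mem
        | mul y z _ _ hy hz =>
          have h : g ^ (c : ℤ) * (y * z) * (g ^ (c : ℤ))⁻¹ =
            (g ^ (c : ℤ) * y * (g ^ (c : ℤ))⁻¹) * (g ^ (c : ℤ) * z * (g ^ (c : ℤ))⁻¹) := by group
          rw [h]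
          exact C.mul_mem hy hz
        | inv y _ hy =>
          have h : g ^ (c : ℤ) * y⁻¹ * (g ^ (c : ℤ))⁻¹ =
            (g ^ (c : ℤ) * y * (g ^ (c : ℤ))⁻¹)⁻¹ := by group
          rw [h]
          exact C.inv_mem hy
      unfold Kcl
      rw [Subgroup.closure_le]
      rintro y ⟨i, x, hx, rfl⟩
      have h2 : i % (d : ℤ) < d := Int.emod_lt_of_pos i hd'
      have h3 : 0 ≤ i % (d : ℤ) := Int.emod_nonneg i (by omega)
      have h5 : g ^ i = g ^ (i % (d : ℤ)) * g ^ ((d : ℤ) * (i / (d : ℤ))) := by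
        rw [← zpow_add, Int.emod_add_mul_ediv]
      have h6 : g ^ i * x * (g ^ i)⁻¹ = g ^ (i % (d : ℤ)) *
          (g ^ ((d : ℤ) * (i / (d : ℤ))) * x * (g ^ ((d : ℤ) * (i / (d : ℤ))))⁻¹) *
            (g ^ (i % (d : ℤ)))⁻¹ := by
        rw [h5, mul_inv_rev]
        simp only [mul_assoc]
      show g ^ i * x * (g ^ i)⁻¹ ∈ C
      rw [h6]
      have h7 := key (i % (d : ℤ)).toNat (by omega) _ (h (i / (d : ℤ)) x hx)
      rwa [Int.toNat_of_nonneg h3] at h7
  · exact Set.Finite.biUnion (Finset.finite_toSet _) fun c _ => hSf.image _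

end RatVA

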