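import Mathlib

set_option autoImplicit false

section RatVA_A


open Pointwise

namespace RatVA

/-- Rational subsets of a group. -/
inductive IsRat {G : Type*} [Group G] : Set G → Prop
  | empty : IsRat ∅
  | single (g : G) : IsRat {g}
  | union {A B : Set G} : IsRat A → IsRat B → IsRat (A ∪ B)
  | mul {A B : Set G} : IsRat A → IsRat B → IsRat (A * B)
  | star {A : Set G} : IsRat A → IsRat (Submonoid.closure A : Set G)

section regex

variable {G : Type*} [Group G]

/-- evaluation of a language in the group -/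
def ev (L : Language G) : Set G := {g : G | ∃ w ∈ L, w.prod = g}

theorem ev_zero : ev (0 : Language G) = ∅ := by
  ext g; simp [ev]

theorem ev_one : ev (1 : Language G) = {1} := by
  ext g
  simp only [ev, Set.mem_ofPred_eq, Language.mem_one, Set.mem_singleton_iff]
  constructor
  · rintro ⟨w, rfl, rfl⟩; simp
  · rintro rfl; exact ⟨[], rfl, by simp⟩

theorem ev_char (a : G) : ev ({[a]} : Language G) = {a} := by
  ext g
  simp only [ev, Set.mem_ofPred_eq, Set.mem_singleton_iff]
  constructor
  · rintro ⟨w, hw, rfl⟩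
    have : w = [a] := hw
    subst this; simp
  · rintro rfl; exact ⟨[_], rfl, by simp⟩

theorem ev_add (L M : Language G) : ev (L + M) = ev L ∪ ev M := by
  ext g
  simp only [ev, Set.mem_ofPred_eq, Set.mem_union, Language.mem_add]
  constructor
  · rintro ⟨w, h | h, rfl⟩
    · exact Or.inl ⟨w, h, rfl⟩
    · exact Or.inr ⟨w, h, rfl⟩
  · rintro (⟨w, h, rfl⟩ | ⟨w, h, rfl⟩)
    · exact ⟨w, Or.inl h, rfl⟩
    · exact ⟨w, Or.inr h, rfl⟩

theorem ev_mul (L M : Language G) : ev (L * M) = ev L * ev M := by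
  ext g
  simp only [ev, Set.mem_ofPred_eq, Language.mem_mul, Set.mem_mul]
  constructor
  · rintro ⟨w, ⟨a, ha, b, hb, rfl⟩, rfl⟩
    exact ⟨a.prod, ⟨a, ha, rfl⟩, b.prod, ⟨b, hb, rfl⟩, by simp⟩
  · rintro ⟨x, ⟨a, ha, rfl⟩, y, ⟨b, hb, rfl⟩, rfl⟩
    exact ⟨a ++ b, ⟨a, ha, b, hb, rfl⟩, by simp⟩

theorem ev_star (L : Language G) :
    ev (KStar.kstar L) = (Submonoid.closure (ev L) : Set G) := by
  ext g
  simp only [ev, Set.mem_ofPred_eq, Language.mem_kstar]
  constructor
  · rintro ⟨w, ⟨LL, rfl, h⟩, rfl⟩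
    rw [List.prod_flatten]
    apply Submonoid.list_prod_mem
    intro x hx
    rw [List.mem_map] at hx
    obtain ⟨y, hy, rfl⟩ := hx
    exact Submonoid.subset_closure ⟨y, h y hy, rfl⟩
  · intro hg
    obtain ⟨l, hl, rfl⟩ := Submonoid.exists_list_of_mem_closure hg
    clear hg
    have : ∃ LL : List (List G), (∀ y ∈ LL, y ∈ L) ∧ LL.flatten.prod = l.prod := by
      induction l with
      | nil => exact ⟨[], by simp, by simp⟩
      | cons a l ih =>
        obtain ⟨LL, h1, h2⟩ := ih (fun y hy => hl y (List.mem_cons_of_mem _ hy))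
        obtain ⟨w, hw, hwa⟩ := hl a List.mem_cons_self
        refine ⟨w :: LL, ?_, ?_⟩
        · intro y hy
          rcases List.mem_cons.1 hy with rfl | hy
          · exact hw
          · exact h1 y hy
        · rw [List.flatten_cons, List.prod_append, h2, hwa, List.prod_cons]
    obtain ⟨LL, h1, h2⟩ := this
    exact ⟨LL.flatten, ⟨LL, rfl, h1⟩, h2⟩

theorem isRat_regex (r : RegularExpression G) : IsRat (ev r.matches') := by
  induction r with
  | zero =>
    have : ev (RegularExpression.zero : RegularExpression G).matches' = ∅ := ev_zero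
    rw [this]; exact IsRat.empty
  | epsilon =>
    have : ev (RegularExpression.epsilon : RegularExpression G).matches' = {1} := ev_one
    rw [this]; exact IsRat.single 1
  | char a =>
    have : ev (RegularExpression.char a : RegularExpression G).matches' = {a} := ev_char a
    rw [this]; exact IsRat.single a
  | plus P Q hP hQ =>
    have : ev (RegularExpression.plus P Q).matches' = ev P.matches' ∪ ev Q.matches' :=
      ev_add _ _
    rw [this]; exact IsRat.union hP hQ
  | comp P Q hP hQ =>
    have : ev (RegularExpression.comp P Q).matches' = ev P.matches' * ev Q.matches' :=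
      ev_mul _ _
    rw [this]; exact IsRat.mul hP hQ
  | star P hP =>
    have : ev (RegularExpression.star P).matches' = (Submonoid.closure (ev P.matches') : Set G) :=
      ev_star _
    rw [this]; exact IsRat.star hP

theorem regex_of_isRat {S : Set G} (h : IsRat S) :
    ∃ r : RegularExpression G, S = ev r.matches' := by
  induction h with
  | empty => exact ⟨RegularExpression.zero, ev_zero.symm⟩
  | single g => exact ⟨RegularExpression.char g, (ev_char g).symm⟩
  | union _ _ hA hB =>
    obtain ⟨P, rfl⟩ := hA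
    obtain ⟨Q, rfl⟩ := hB
    exact ⟨RegularExpression.plus P Q, (ev_add _ _).symm⟩
  | mul _ _ hA hB =>
    obtain ⟨P, rfl⟩ := hA
    obtain ⟨Q, rfl⟩ := hB
    exact ⟨RegularExpression.comp P Q, (ev_mul _ _).symm⟩
  | star _ hA =>
    obtain ⟨P, rfl⟩ := hA
    exact ⟨RegularExpression.star P, (ev_star _).symm⟩

theorem isRat_iff (S : Set G) :
    IsRat S ↔ ∃ r : RegularExpression G, S = {g : G | ∃ w ∈ r.matches', w.prod = g} := by
  constructor
  · exact regex_of_isRat
  · rintro ⟨r, rfl⟩
    exact isRat_regex r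

end regex

/-- the class of rational subsets is closed under intersection -/
def PropI (G : Type*) [Group G] : Prop :=
  ∀ X Y : Set G, IsRat X → IsRat Y → IsRat (X ∩ Y)

section basic

variable {G : Type*} [Group G]

theorem propI_of_compl
    (h : ∀ X : Set G, IsRat X → IsRat Xᶜ) : PropI G := by
  intro X Y hX hY
  have := h _ (IsRat.union (h X hX) (h Y hY))
  rwa [Set.compl_union, compl_compl, compl_compl] at this

theorem IsRat.of_finite {S : Set G} (h : S.Finite) : IsRat S := by
  induction S, h using Set.Finite.induction_on with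
  | empty => exact IsRat.empty
  | insert _ _ ih => 
    rw [Set.insert_eq]
    exact IsRat.union (IsRat.single _) ih

theorem IsRat.image {H : Type*} [Group H] (f : G →* H) {S : Set G} (h : IsRat S) :
    IsRat (f '' S) := by
  induction h with
  | empty => rw [Set.image_empty]; exact IsRat.empty
  | single g => rw [Set.image_singleton]; exact IsRat.single _
  | union _ _ hA hB => rw [Set.image_union]; exact IsRat.union hA hB
  | mul _ _ hA hB => rw [Set.image_mul]; exact IsRat.mul hA hB
  | @star A _ hA =>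
    have : f '' (Submonoid.closure A : Set G) = (Submonoid.closure (f '' A) : Set H) := by
      rw [← MonoidHom.map_mclosure]; rfl
    rw [this]; exact IsRat.star hA

theorem IsRat.subgroup_closure {S : Set G} (h : S.Finite) :
    IsRat (Subgroup.closure S : Set G) := by
  have : (Subgroup.closure S : Set G) = (Submonoid.closure (S ∪ S⁻¹) : Set G) := by
    rw [← Subgroup.closure_toSubmonoid]; rfl
  rw [this]
  exact IsRat.star (IsRat.of_finite (h.union h.inv))

theorem IsRat.of_fg {N : Subgroup G} (h : N.FG) : IsRat (N : Set G) := by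
  obtain ⟨S, rfl⟩ := h
  exact IsRat.subgroup_closure S.finite_toSet

theorem IsRat.zpowers (g : G) : IsRat (Subgroup.zpowers g : Set G) := by
  rw [Subgroup.zpowers_eq_closure]
  exact IsRat.subgroup_closure (Set.finite_singleton g)

theorem IsRat.powers (g : G) : IsRat (Submonoid.powers g : Set G) := by
  rw [Submonoid.powers_eq_closure]
  exact IsRat.star (IsRat.single g)

/-- the key restriction lemma -/
theorem IsRat.restrict {S : Set G} (hS : IsRat S) (H : Subgroup G) :
    ∀ u v : G, (∀ x ∈ S, u * x * v ∈ H) →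
      IsRat {h : H | ∃ x ∈ S, (h : G) = u * x * v} := by
  induction hS with
  | empty =>
    intro u v _
    have : {h : H | ∃ x ∈ (∅ : Set G), (h : G) = u * x * v} = ∅ := by
      ext; simp
    rw [this]; exact IsRat.empty
  | single g =>
    intro u v h
    have hg : u * g * v ∈ H := h g rfl
    have : {h : H | ∃ x ∈ ({g} : Set G), (h : G) = u * x * v} = {⟨u * g * v, hg⟩} := by
      ext k
      simp only [Set.mem_singleton_iff, exists_eq_left, Set.mem_ofPred_eq]
      constructor
      · intro hk; exact Subtype.ext hk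
      · rintro rfl; rfl
    rw [this]; exact IsRat.single _
  | @union A B _ _ hA hB =>
    intro u v h
    have : {h : H | ∃ x ∈ (A ∪ B), (h : G) = u * x * v}
        = {h : H | ∃ x ∈ A, (h : G) = u * x * v} ∪ {h : H | ∃ x ∈ B, (h : G) = u * x * v} := by
      ext k
      simp only [Set.mem_union, Set.mem_ofPred_eq]
      constructor
      · rintro ⟨x, hx | hx, e⟩
        · exact Or.inl ⟨x, hx, e⟩
        · exact Or.inr ⟨x, hx, e⟩
      · rintro (⟨x, hx, e⟩ | ⟨x, hx, e⟩)
        · exact ⟨x, Or.inl hx, e⟩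
        · exact ⟨x, Or.inr hx, e⟩
    rw [this]
    exact IsRat.union (hA u v fun x hx => h x (Or.inl hx)) (hB u v fun x hx => h x (Or.inr hx))
  | @mul A B _ _ hA hB =>
    intro u v h
    rcases A.eq_empty_or_nonempty with rfl | ⟨x0, hx0⟩
    · have : {h : H | ∃ x ∈ ((∅ : Set G) * B), (h : G) = u * x * v} = ∅ := by
        ext; simp
      rw [this]; exact IsRat.empty
    rcases B.eq_empty_or_nonempty with rfl | ⟨y0, hy0⟩
    · have : {h : H | ∃ x ∈ (A * (∅ : Set G)), (h : G) = u * x * v} = ∅ := by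
        ext; simp
      rw [this]; exact IsRat.empty
    have h0 : u * (x0 * y0) * v ∈ H := h _ (Set.mul_mem_mul hx0 hy0)
    have h1 := hA u (y0 * v) (fun x hx => by
      have := h _ (Set.mul_mem_mul hx hy0)
      simpa [mul_assoc] using this)
    have h2 := hB (u * x0) v (fun y hy => by
      have := h _ (Set.mul_mem_mul hx0 hy)
      simpa [mul_assoc] using this)
    have : {h : H | ∃ x ∈ (A * B), (h : G) = u * x * v}
        = {h : H | ∃ x ∈ A, (h : G) = u * x * (y0 * v)} * {(⟨_, h0⟩ : H)⁻¹} *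
          {h : H | ∃ x ∈ B, (h : G) = u * x0 * x * v} := by
      ext k
      simp only [Set.mem_mul, Set.mem_ofPred_eq, Set.mem_singleton_iff, exists_eq_left]
      constructor
      · rintro ⟨z, ⟨x, hx, y, hy, rfl⟩, e⟩
        have hxm : u * x * (y0 * v) ∈ H := by
          have := h _ (Set.mul_mem_mul hx hy0)
          simpa [mul_assoc] using this
        have hym : u * x0 * y * v ∈ H := by
          have := h _ (Set.mul_mem_mul hx0 hy)
          simpa [mul_assoc] using this
        refine ⟨⟨_, hxm⟩ * (⟨_, h0⟩ : H)⁻¹, ⟨⟨_, hxm⟩, ⟨x, hx, rfl⟩, rfl⟩, ⟨_, hym⟩, ⟨y, hy, rfl⟩, ?_⟩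
        apply Subtype.ext
        rw [e]
        simp only [Subgroup.coe_mul, InvMemClass.coe_inv]
        group
      · rintro ⟨_, ⟨k1, ⟨x, hx, e1⟩, rfl⟩, k2, ⟨y, hy, e2⟩, rfl⟩
        refine ⟨x * y, ⟨x, hx, y, hy, rfl⟩, ?_⟩
        simp only [Subgroup.coe_mul, InvMemClass.coe_inv, e1, e2]
        group
    rw [this]
    exact IsRat.mul (IsRat.mul h1 (IsRat.single _)) h2
  | @star A _ hA =>
    intro u v h
    have huv : u * v ∈ H := by
      have := h 1 (Submonoid.one_mem _)
      simpa using this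
    have hconj : ∀ x ∈ (Submonoid.closure A : Set G), u * x * u⁻¹ ∈ H := by
      intro x hx
      have := H.mul_mem (h x hx) (H.inv_mem huv)
      have e : u * x * v * (u * v)⁻¹ = u * x * u⁻¹ := by group
      rwa [e] at this
    have h1 := hA u u⁻¹ (fun x hx => hconj x (Submonoid.subset_closure hx))
    have : {h : H | ∃ x ∈ (Submonoid.closure A : Set G), (h : G) = u * x * v}
        = (Submonoid.closure {h : H | ∃ x ∈ A, (h : G) = u * x * u⁻¹} : Set H) *
          {(⟨_, huv⟩ : H)} := by
      ext k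
      simp only [Set.mem_mul, Set.mem_ofPred_eq, Set.mem_singleton_iff, exists_eq_left]
      constructor
      · rintro ⟨x, hx, e⟩
        refine ⟨⟨_, hconj x hx⟩, ?_, ?_⟩
        · have key : ∀ y (hy : y ∈ Submonoid.closure A), (⟨_, hconj y hy⟩ : H) ∈
              Submonoid.closure {h : H | ∃ x ∈ A, (h : G) = u * x * u⁻¹} := by
            intro y hy
            induction hy using Submonoid.closure_induction with
            | mem y hy => exact Submonoid.subset_closure ⟨y, hy, rfl⟩
            | one =>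
              have : (⟨u * 1 * u⁻¹, hconj 1 (Submonoid.one_mem _)⟩ : H) = 1 := by
                apply Subtype.ext; simp
              rw [this]; exact Submonoid.one_mem _
            | mul y z hy hz ihy ihz =>
              have : (⟨u * (y * z) * u⁻¹, hconj (y * z) (Submonoid.mul_mem _ hy hz)⟩ : H)
                  = ⟨_, hconj y hy⟩ * ⟨_, hconj z hz⟩ := by
                apply Subtype.ext; simp only [Subgroup.coe_mul]; group
              rw [this]; exact Submonoid.mul_mem _ ihy ihz
          exact key x hx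
        · apply Subtype.ext
          rw [e]; simp only [Subgroup.coe_mul]; group
      · rintro ⟨k1, hk1, rfl⟩
        have key : ∀ k2 ∈ Submonoid.closure {h : H | ∃ x ∈ A, (h : G) = u * x * u⁻¹},
            ∃ x ∈ Submonoid.closure A, (k2 : G) = u * x * u⁻¹ := by
          intro k2 hk2
          induction hk2 using Submonoid.closure_induction with
          | mem y hy =>
            obtain ⟨x, hx, e⟩ := hy
            exact ⟨x, Submonoid.subset_closure hx, e⟩
          | one => exact ⟨1, Submonoid.one_mem _, by simp⟩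
          | mul y z _ _ ihy ihz =>
            obtain ⟨a, ha, ea⟩ := ihy
            obtain ⟨b, hb, eb⟩ := ihz
            refine ⟨a * b, Submonoid.mul_mem _ ha hb, ?_⟩
            simp only [Subgroup.coe_mul, ea, eb]; group
        obtain ⟨x, hx, e⟩ := key k1 hk1
        refine ⟨x, hx, ?_⟩
        simp only [Subgroup.coe_mul, e]; group
    rw [this]
    exact IsRat.mul (IsRat.star h1) (IsRat.single _)

theorem IsRat.preimage_subtype {S : Set G} (hS : IsRat S) (H : Subgroup G)
    (h : S ⊆ (H : Set G)) : IsRat ((↑) ⁻¹' S : Set H) := by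
  have := IsRat.restrict hS H 1 1 (by intro x hx; simpa using h hx)
  have e : {h : H | ∃ x ∈ S, (h : G) = 1 * x * 1} = ((↑) ⁻¹' S : Set H) := by
    ext k; simp
  rwa [e] at this

/-- closure under intersection passes to subgroups -/
theorem PropI.subgroup (hG : PropI G) (H : Subgroup G) : PropI H := by
  intro X Y hX hY
  have h1 : IsRat ((↑) '' X : Set G) := hX.image H.subtype
  have h2 : IsRat ((↑) '' Y : Set G) := hY.image H.subtype
  have h3 := (hG _ _ h1 h2).preimage_subtype H (by
    rintro x ⟨⟨a, _, rfl⟩, _⟩; exact a.2)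
  have e : ((↑) ⁻¹' (((↑) '' X : Set G) ∩ ((↑) '' Y : Set G)) : Set H) = X ∩ Y := by
    ext k; simp
  rwa [e] at h3

theorem fg_map {G' : Type*} [Group G'] {Q : Subgroup G} (h : Q.FG) (f : G →* G') :
    (Q.map f).FG := by
  classical
  obtain ⟨S, rfl⟩ := h
  refine ⟨S.image f, ?_⟩
  rw [MonoidHom.map_closure, Finset.coe_image]

/-- a rational set is contained in a finitely generated subgroup -/
theorem IsRat.exists_fg {S : Set G} (hS : IsRat S) :
    ∃ Q : Subgroup G, Q.FG ∧ S ⊆ (Q : Set G) := by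
  induction hS with
  | empty => exact ⟨⊥, Subgroup.FG.bot, by simp⟩
  | single g =>
    refine ⟨Subgroup.closure {g}, ⟨{g}, by simp⟩, ?_⟩
    exact Subgroup.subset_closure
  | union _ _ hA hB =>
    obtain ⟨Q1, h1, h1'⟩ := hA
    obtain ⟨Q2, h2, h2'⟩ := hB
    refine ⟨Q1 ⊔ Q2, h1.sup h2, ?_⟩
    apply Set.union_subset
    · exact h1'.trans (SetLike.coe_subset_coe.2 le_sup_left)
    · exact h2'.trans (SetLike.coe_subset_coe.2 le_sup_right)
  | mul _ _ hA hB =>
    obtain ⟨Q1, h1, h1'⟩ := hA
    obtain ⟨Q2, h2, h2'⟩ := hB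
    refine ⟨Q1 ⊔ Q2, h1.sup h2, ?_⟩
    rintro _ ⟨x, hx, y, hy, rfl⟩
    exact (Q1 ⊔ Q2).mul_mem ((le_sup_left : Q1 ≤ Q1 ⊔ Q2) (h1' hx))
      ((le_sup_right : Q2 ≤ Q1 ⊔ Q2) (h2' hy))
  | star _ hA =>
    obtain ⟨Q1, h1, h1'⟩ := hA
    refine ⟨Q1, h1, ?_⟩
    exact (Submonoid.closure_le (S := Q1.toSubmonoid)).2 h1'

/-- a rational set contained in `N` is contained in a finitely generated subgroup of `N` -/
theorem IsRat.exists_fg_le {S : Set G} (hS : IsRat S) (N : Subgroup G)
    (h : S ⊆ (N : Set G)) : ∃ Q : Subgroup G, Q.FG ∧ Q ≤ N ∧ S ⊆ (Q : Set G) := by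
  obtain ⟨Q, hQ, hS'⟩ := (hS.preimage_subtype N h).exists_fg
  refine ⟨Q.map N.subtype, fg_map hQ _, ?_, ?_⟩
  · exact Subgroup.map_subtype_le Q
  · intro x hx
    exact ⟨⟨x, h hx⟩, hS' hx, rfl⟩

end basic


section more

variable {G : Type*} [Group G]

theorem IsRat.inv {A : Set G} (h : IsRat A) : IsRat A⁻¹ := by
  induction h with
  | empty => rw [Set.inv_empty]; exact IsRat.empty
  | single g => rw [Set.inv_singleton]; exact IsRat.single _
  | union _ _ hA hB => rw [Set.union_inv]; exact IsRat.union hA hB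
  | mul _ _ hA hB => rw [mul_inv_rev]; exact IsRat.mul hB hA
  | @star A _ hA =>
    have : ((Submonoid.closure A : Set G))⁻¹ = (Submonoid.closure A⁻¹ : Set G) := by
      rw [Submonoid.closure_inv]; rfl
    rw [this]; exact IsRat.star hA

/-- the subgroup generated by a rational set is finitely generated -/
theorem IsRat.closure_fg {A : Set G} (h : IsRat A) : (Subgroup.closure A).FG := by
  obtain ⟨Q, hQ, hsub, hle⟩ := h.exists_fg_le (Subgroup.closure A) Subgroup.subset_closure
  have : Subgroup.closure A = Q := le_antisymm ((Subgroup.closure_le Q).2 hle) hsub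
  rw [this]; exact hQ

/-- a rational subgroup is finitely generated -/
theorem IsRat.subgroup_fg {N : Subgroup G} (h : IsRat (N : Set G)) : N.FG := by
  have := h.closure_fg
  rwa [Subgroup.closure_eq] at this

theorem PropI.inter_fg (hG : PropI G) {A B : Subgroup G} (hA : A.FG) (hB : B.FG) :
    (A ⊓ B).FG := by
  apply IsRat.subgroup_fg
  have := hG _ _ (IsRat.of_fg hA) (IsRat.of_fg hB)
  rwa [← Subgroup.coe_inf] at this

end more

section pump

theorem pump {M : Type*} [CommGroup M] {X : Set M} (hX : IsRat X) (hinf : X.Infinite) :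
    ∃ c b : M, b ≠ 1 ∧ ∀ k : ℕ, c * b ^ k ∈ X := by
  induction hX with
  | empty => exact absurd Set.finite_empty hinf
  | single g => exact absurd (Set.finite_singleton g) hinf
  | union _ _ hA hB =>
    rcases Set.infinite_union.1 hinf with h | h
    · obtain ⟨c, b, hb, h⟩ := hA h
      exact ⟨c, b, hb, fun k => Or.inl (h k)⟩
    · obtain ⟨c, b, hb, h⟩ := hB h
      exact ⟨c, b, hb, fun k => Or.inr (h k)⟩
  | @mul A B _ _ hA hB =>
    by_cases hAi : A.Infinite
    · have hBn : B.Nonempty := by
        by_contra h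
        rw [Set.not_nonempty_iff_eq_empty] at h
        rw [h, Set.mul_empty] at hinf
        exact hinf Set.finite_empty
      obtain ⟨y, hy⟩ := hBn
      obtain ⟨c, b, hb, h⟩ := hA hAi
      refine ⟨c * y, b, hb, fun k => ?_⟩
      have := Set.mul_mem_mul (h k) hy
      rwa [mul_right_comm] at this
    · by_cases hBi : B.Infinite
      · have hAn : A.Nonempty := by
          by_contra h
          rw [Set.not_nonempty_iff_eq_empty] at h
          rw [h, Set.empty_mul] at hinf
          exact hinf Set.finite_empty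
        obtain ⟨x, hx⟩ := hAn
        obtain ⟨c, b, hb, h⟩ := hB hBi
        refine ⟨x * c, b, hb, fun k => ?_⟩
        have := Set.mul_mem_mul hx (h k)
        rwa [← mul_assoc] at this
      · rw [Set.not_infinite] at hAi hBi
        exact absurd (hAi.mul hBi) hinf
  | @star A _ hA =>
    by_cases h : ∃ x ∈ A, x ≠ 1
    · obtain ⟨x, hx, hx1⟩ := h
      refine ⟨1, x, hx1, fun k => ?_⟩
      rw [one_mul]
      exact Submonoid.pow_mem _ (Submonoid.subset_closure hx) k
    · push Not at h
      exfalso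
      apply hinf
      have : (Submonoid.closure A : Set M) ⊆ {1} := by
        have h2 : Submonoid.closure A ≤ (⊥ : Submonoid M) := by
          rw [Submonoid.closure_le]
          intro x hx
          exact h x hx
        intro x hx
        exact h2 hx
      exact (Set.finite_singleton _).subset this


end pump

end RatVA

end RatVA_A
section RatVA_B


open Pointwise

namespace RatVA

section hom

variable {G H : Type*} [Group G] [Group H]

theorem IsRat.preimage_of_injective (f : H →* G) (hf : Function.Injective f) {S : Set G}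
    (hS : IsRat S) (h : S ⊆ Set.range f) : IsRat (f ⁻¹' S) := by
  have h1 : IsRat ((↑) ⁻¹' S : Set f.range) := hS.preimage_subtype f.range (by
    intro x hx; exact h hx)
  let e : H ≃* f.range := MonoidHom.ofInjective hf
  have h2 := h1.image (e.symm : f.range →* H)
  have : (e.symm : f.range →* H) '' ((↑) ⁻¹' S : Set f.range) = f ⁻¹' S := by
    ext x
    constructor
    · rintro ⟨y, hy, rfl⟩
      have : f (e.symm y) = y := by
        have := congrArg (Subtype.val) (e.apply_symm_apply y)
        exact this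
      simpa [this] using hy
    · intro hx
      refine ⟨e x, ?_, ?_⟩
      · exact hx
      · exact e.symm_apply_apply x
  rwa [this] at h2

end hom

theorem no_AP_squares (A B : ℤ) (hB : B ≠ 0) (h : ∀ k : ℕ, ∃ s : ℤ, s ^ 2 = A + k * B) : False := by
  have hBpos : 0 < B := by
    by_contra hcon
    have hneg : B < 0 := lt_of_le_of_ne (not_lt.1 hcon) hB
    obtain ⟨s, hs⟩ := h (A.natAbs + 1)
    have h1 : A ≤ A.natAbs := Int.le_natAbs
    have h2 : 0 ≤ s ^ 2 := sq_nonneg s
    rw [hs] at h2
    push_cast at h2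
    have h3 : (0 : ℤ) ≤ |A| := abs_nonneg A
    have h4 : A ≤ |A| := le_abs_self A
    nlinarith
  obtain ⟨s, hs⟩ := h (B.natAbs ^ 2 + A.natAbs)
  obtain ⟨r, hr⟩ := h (B.natAbs ^ 2 + A.natAbs + 1)
  push_cast at hs hr
  have hB2 : |B| = B := abs_of_pos hBpos
  rw [hB2] at hs hr
  have hA3 : (0 : ℤ) ≤ |A| := abs_nonneg A
  have hA4 : -A ≤ |A| := neg_le_abs A
  have hsB : B ≤ |s| := by
    by_contra hcon
    push Not at hcon
    have h1 : s ^ 2 < B ^ 2 := by
      rw [← sq_abs s]
      have := abs_nonneg s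
      nlinarith
    rw [hs] at h1
    nlinarith
  have hlt : |s| < |r| := by
    by_contra hcon
    push Not at hcon
    have : r ^ 2 ≤ s ^ 2 := by
      rw [← sq_abs r, ← sq_abs s]
      have := abs_nonneg r
      nlinarith
    nlinarith
  have h2 : (|s| + 1) ^ 2 ≤ r ^ 2 := by
    rw [← sq_abs r]
    have := abs_nonneg s
    have h3 : |s| + 1 ≤ |r| := hlt
    nlinarith
  have h4 : s ^ 2 = |s| ^ 2 := (sq_abs s).symm
  nlinarith

section heis

variable {G : Type*} [Group G]

/-- twisted commutation -/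
def Tw (c b x : G) (i : ℤ) : Prop := x * b = c ^ i * b * x ∧ c * x = x * c

theorem Tw.mul {c b x y : G} {i j : ℤ} (hx : Tw c b x i) (hy : Tw c b y j) :
    Tw c b (x * y) (i + j) := by
  obtain ⟨h1, h2⟩ := hx
  obtain ⟨h3, h4⟩ := hy
  have hxc : x * c ^ j = c ^ j * x := ((show Commute c x from h2).zpow_left j).eq.symm
  refine ⟨?_, ?_⟩
  · calc x * y * b = x * (y * b) := by group
      _ = x * (c ^ j * b * y) := by rw [h3]
      _ = (x * c ^ j) * b * y := by group
      _ = c ^ j * (x * b) * y := by rw [hxc]; group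
      _ = c ^ j * (c ^ i * b * x) * y := by rw [h1]
      _ = c ^ (i + j) * b * (x * y) := by group
  · calc c * (x * y) = (c * x) * y := by group
      _ = x * (c * y) := by rw [h2]; group
      _ = x * y * c := by rw [h4]; group

theorem Tw.one (c b : G) : Tw c b 1 0 := by
  refine ⟨by simp, by simp⟩

theorem Tw.pow {c b x : G} {i : ℤ} (hx : Tw c b x i) (n : ℕ) : Tw c b (x ^ n) (n * i) := by
  induction n with
  | zero => simpa using Tw.one c b
  | succ n ih =>
    rw [pow_succ]
    have := ih.mul hx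
    have e : (n : ℤ) * i + i = ((n + 1 : ℕ) : ℤ) * i := by push_cast; ring
    rwa [e] at this

theorem heisenberg (hG : PropI G) (a b c : G) (hc : a * b * a⁻¹ * b⁻¹ = c)
    (hca : c * a = a * c) (hcb : c * b = b * c) : ∃ k : ℕ, 0 < k ∧ c ^ k = 1 := by
  by_contra hcon
  push Not at hcon
  have hinj : ∀ i : ℤ, c ^ i = 1 → i = 0 := by
    intro i hi
    by_contra h0
    rcases lt_or_gt_of_ne h0 with h | h
    · refine hcon (-i).toNat (by omega) ?_
      rw [← zpow_natCast]
      have : (((-i).toNat : ℕ) : ℤ) = -i := by omega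
      rw [this, zpow_neg, hi, inv_one]
    · refine hcon i.toNat (by omega) ?_
      rw [← zpow_natCast]
      have : ((i.toNat : ℕ) : ℤ) = i := by omega
      rw [this, hi]
  have hab : a * b = c * b * a := by rw [← hc]; group
  have hba : b * a = c⁻¹ * a * b := by
    have : c⁻¹ * (a * b) = b * a := by rw [hab]; group
    rw [← this]; group
  -- twisting data
  have ta : Tw c b a 1 := ⟨by rw [zpow_one]; exact hab, hca⟩
  have tb : Tw c b b 0 := ⟨by simp, hcb⟩
  have tai : Tw c b a⁻¹ (-1) := by
    refine ⟨?_, ?_⟩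
    · rw [zpow_neg_one]
      have h1 : a * (a⁻¹ * b) = a * (c⁻¹ * b * a⁻¹) := by
        calc a * (a⁻¹ * b) = b := by group
          _ = c⁻¹ * (c * b * a) * a⁻¹ := by group
          _ = c⁻¹ * (a * b) * a⁻¹ := by rw [hab]
          _ = (c⁻¹ * a) * b * a⁻¹ := by group
          _ = (a * c⁻¹) * b * a⁻¹ := by
            have : c⁻¹ * a = a * c⁻¹ := ((show Commute c a from hca).inv_left).eq
            rw [this]
          _ = a * (c⁻¹ * b * a⁻¹) := by group
      exact mul_left_cancel h1
    · exact ((show Commute c a from hca).inv_right).eq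
  have tbi : Tw c b b⁻¹ 0 := ⟨by simp, ((show Commute c b from hcb).inv_right).eq⟩
  have ta' : Tw c a a 0 := ⟨by simp, hca⟩
  have tb' : Tw c a b (-1) := ⟨by rw [zpow_neg_one]; exact hba, hcb⟩
  have tai' : Tw c a a⁻¹ 0 := ⟨by simp, ((show Commute c a from hca).inv_right).eq⟩
  have tbi' : Tw c a b⁻¹ 1 := by
    refine ⟨?_, ((show Commute c b from hcb).inv_right).eq⟩
    rw [zpow_one]
    calc b⁻¹ * a = b⁻¹ * (a * b) * b⁻¹ := by group
      _ = b⁻¹ * (c * b * a) * b⁻¹ := by rw [hab]
      _ = b⁻¹ * (b * c * a) * b⁻¹ := by rw [hcb]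
      _ = c * a * b⁻¹ := by group
  -- the rational set
  let R : Set G := (Submonoid.powers (a * b) : Set G) * (Submonoid.powers b⁻¹ : Set G) *
    (Submonoid.powers a⁻¹ : Set G)
  have hR : IsRat R := IsRat.mul (IsRat.mul (IsRat.powers _) (IsRat.powers _)) (IsRat.powers _)
  have hX : IsRat (R ∩ (Subgroup.zpowers c : Set G)) := hG _ _ hR (IsRat.zpowers c)
  let ι : Multiplicative ℤ →* G := zpowersHom G c
  have hι : ∀ i : ℤ, ι (Multiplicative.ofAdd i) = c ^ i := fun i => by
    simp [ι]
  have hιinj : Function.Injective ι := by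
    rw [injective_iff_map_eq_one]
    intro x hx
    have := hι x.toAdd
    have h2 : c ^ (x.toAdd) = 1 := by rw [← this]; exact hx
    have h3 := hinj _ h2
    have : x = Multiplicative.ofAdd x.toAdd := rfl
    rw [this, h3]; rfl
  have hX' := hX.preimage_of_injective ι hιinj (by
    rintro x ⟨_, hx⟩
    obtain ⟨i, rfl⟩ := Subgroup.mem_zpowers_iff.1 hx
    exact ⟨Multiplicative.ofAdd i, hι i⟩)
  -- closed formula
  have hform : ∀ n : ℕ, (a * b) ^ n = c ^ (-((n * (n - 1) / 2 : ℕ) : ℤ)) * (a ^ n * b ^ n) := by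
    intro n
    induction n with
    | zero => simp
    | succ n ih =>
      have e1 : ((n + 1) * (n + 1 - 1) / 2 : ℕ) = n * (n - 1) / 2 + n := by
        have h1 : (n + 1) * (n + 1 - 1) = n * (n - 1) + 2 * n := by
          rcases n with _ | n
          · simp
          · simp only [Nat.add_sub_cancel]; ring
        rw [h1]; omega
      have h2 : b ^ n * a = c ^ (-(n : ℤ)) * a * b ^ n := by
        have := (tb'.pow n).1
        rw [this]; congr 3; ring
      have hcomm : ∀ (i : ℤ) (m : ℕ), a ^ m * c ^ i = c ^ i * a ^ m := by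
        intro i m
        exact (((show Commute c a from hca).zpow_left i).pow_right m).eq.symm
      rw [pow_succ, ih, e1]
      calc c ^ (-((n * (n - 1) / 2 : ℕ) : ℤ)) * (a ^ n * b ^ n) * (a * b)
          = c ^ (-((n * (n - 1) / 2 : ℕ) : ℤ)) * a ^ n * (b ^ n * a) * b := by group
        _ = c ^ (-((n * (n - 1) / 2 : ℕ) : ℤ)) * a ^ n * (c ^ (-(n : ℤ)) * a * b ^ n) * b := by
            rw [h2]
        _ = c ^ (-((n * (n - 1) / 2 : ℕ) : ℤ)) * (a ^ n * c ^ (-(n : ℤ))) * a * b ^ n * b := by
            simp only [mul_assoc]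
        _ = c ^ (-((n * (n - 1) / 2 : ℕ) : ℤ)) * (c ^ (-(n : ℤ)) * a ^ n) * a * b ^ n * b := by
            rw [hcomm]
        _ = (c ^ (-((n * (n - 1) / 2 : ℕ) : ℤ)) * c ^ (-(n : ℤ))) * (a ^ n * a * (b ^ n * b)) := by
            simp only [mul_assoc]
        _ = c ^ (-((n * (n - 1) / 2 + n : ℕ) : ℤ)) * (a ^ (n + 1) * b ^ (n + 1)) := by
            rw [← zpow_add, pow_succ, pow_succ]
            congr 2
            push_cast; ring
  have hmem : ∀ x : Multiplicative ℤ, x ∈ ι ⁻¹' (R ∩ (Subgroup.zpowers c : Set G)) →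
      ∃ n : ℕ, x.toAdd = -((n * (n - 1) / 2 : ℕ) : ℤ) := by
    rintro x ⟨⟨_, ⟨_, ⟨n, rfl⟩, _, ⟨m, rfl⟩, rfl⟩, _, ⟨k, rfl⟩, hx⟩, hz⟩
    have hx' : (a * b) ^ n * (b⁻¹) ^ m * (a⁻¹) ^ k = ι x := hx
    have hιx : ι x = c ^ x.toAdd := hι x.toAdd
    have t1 : Tw c b ((a * b) ^ n * (b⁻¹) ^ m * (a⁻¹) ^ k) (n * (1 + 0) + m * 0 + k * (-1)) :=
      (((ta.mul tb).pow n).mul (tbi.pow m)).mul (tai.pow k)
    have t2 : Tw c a ((a * b) ^ n * (b⁻¹) ^ m * (a⁻¹) ^ k) (n * (0 + -1) + m * 1 + k * 0) :=
      (((ta'.mul tb').pow n).mul (tbi'.pow m)).mul (tai'.pow k)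
    rw [hx', hιx] at t1 t2
    have e1 : (n : ℤ) = k := by
      have h1 := t1.1
      have h2 : c ^ x.toAdd * b = b * c ^ x.toAdd :=
        ((show Commute c b from hcb).zpow_left _).eq
      rw [h2, mul_assoc] at h1
      have h3 : (1 : G) * (b * c ^ x.toAdd) = c ^ ((n : ℤ) * (1 + 0) + m * 0 + k * (-1)) *
          (b * c ^ x.toAdd) := by rw [one_mul]; exact h1
      have h4 := hinj _ (mul_right_cancel h3).symm
      linarith
    have e2 : (n : ℤ) = m := by
      have h1 := t2.1
      have h2 : c ^ x.toAdd * a = a * c ^ x.toAdd :=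
        ((show Commute c a from hca).zpow_left _).eq
      rw [h2, mul_assoc] at h1
      have h3 : (1 : G) * (a * c ^ x.toAdd) = c ^ ((n : ℤ) * (0 + -1) + m * 1 + k * 0) *
          (a * c ^ x.toAdd) := by rw [one_mul]; exact h1
      have h4 := hinj _ (mul_right_cancel h3).symm
      linarith
    have e1' : n = k := by exact_mod_cast e1
    have e2' : n = m := by exact_mod_cast e2
    subst e1'
    subst e2'
    refine ⟨n, ?_⟩
    have h5 : c ^ (x.toAdd) = c ^ (-((n * (n - 1) / 2 : ℕ) : ℤ)) := by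
      rw [← hιx, ← hx', hform]
      rw [inv_pow, inv_pow]
      group
    have h6 : c ^ (x.toAdd - (-((n * (n - 1) / 2 : ℕ) : ℤ))) = 1 := by
      rw [zpow_sub, h5, mul_inv_cancel]
    have := hinj _ h6
    linarith
  have hmem' : ∀ n : ℕ, Multiplicative.ofAdd (-((n * (n - 1) / 2 : ℕ) : ℤ)) ∈
      ι ⁻¹' (R ∩ (Subgroup.zpowers c : Set G)) := by
    intro n
    refine ⟨?_, ?_⟩
    · rw [hι]
      refine ⟨(a * b) ^ n * (b⁻¹) ^ n, ⟨(a * b) ^ n, ⟨n, rfl⟩, (b⁻¹) ^ n, ⟨n, rfl⟩, rfl⟩,
        (a⁻¹) ^ n, ⟨n, rfl⟩, ?_⟩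
      show (a * b) ^ n * (b⁻¹) ^ n * (a⁻¹) ^ n = _
      rw [hform, inv_pow, inv_pow]
      group
    · rw [hι]
      exact Subgroup.zpow_mem_zpowers _ _
  have hinf : (ι ⁻¹' (R ∩ (Subgroup.zpowers c : Set G))).Infinite := by
    have hf : Function.Injective (fun n : ℕ =>
        Multiplicative.ofAdd (-(((n + 1) * (n + 1 - 1) / 2 : ℕ) : ℤ))) := by
      apply StrictAnti.injective (α := ℕ) (β := Multiplicative ℤ)
      apply strictAnti_nat_of_succ_lt
      intro n
      show (-((((n + 1) + 1) * ((n + 1) + 1 - 1) / 2 : ℕ) : ℤ)) <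
        (-(((n + 1) * (n + 1 - 1) / 2 : ℕ) : ℤ))
      have e1 : (((n + 1) + 1) * ((n + 1) + 1 - 1) / 2 : ℕ) = (n + 1) * (n + 1 - 1) / 2 + (n + 1) := by
        have h1 : ((n + 1) + 1) * ((n + 1) + 1 - 1) = (n + 1) * (n + 1 - 1) + 2 * (n + 1) := by
          simp only [Nat.add_sub_cancel]; ring
        rw [h1]; omega
      rw [e1]
      push_cast
      linarith
    exact (Set.infinite_range_of_injective hf).mono (by
      rintro _ ⟨n, rfl⟩; exact hmem' (n + 1))
  obtain ⟨x0, y0, hy0, hk⟩ := pump hX' hinf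
  apply no_AP_squares (1 - 8 * x0.toAdd) (-8 * y0.toAdd)
  · intro h
    apply hy0
    have : y0.toAdd = 0 := by linarith
    have h2 : y0 = Multiplicative.ofAdd y0.toAdd := rfl
    rw [h2, this]; rfl
  · intro k
    obtain ⟨n, hn⟩ := hmem _ (hk k)
    have h1 : (x0 * y0 ^ k).toAdd = x0.toAdd + k * y0.toAdd := by
      simp
    rw [h1] at hn
    refine ⟨2 * n - 1, ?_⟩
    have h2 : ((n * (n - 1) / 2 : ℕ) : ℤ) * 2 = n * (n - 1) := by
      rcases n with _ | n
      · simp
      · have : 2 ∣ (n + 1) * (n + 1 - 1) := by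
          simp only [Nat.add_sub_cancel]
          rw [mul_comm]
          exact (Nat.even_mul_succ_self n).two_dvd
        have h3 := Nat.div_mul_cancel this
        have h4 : (((n + 1) * (n + 1 - 1) / 2 * 2 : ℕ) : ℤ) = (((n + 1) * (n + 1 - 1) : ℕ) : ℤ) := by
          rw [h3]
        push_cast at h4
        push_cast
        simp only [add_sub_cancel_right] at h4 ⊢
        exact h4
    nlinarith

end heis

end RatVA

end RatVA_B
section RatVA_N


namespace RatVA

open Polynomial

theorem nil_of_det {n : ℕ} (A : Matrix (Fin n) (Fin n) ℤ)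
    (h : ∀ k : ℕ, IsUnit (1 + (k : ℤ) • A).det) : IsNilpotent A := by
  have heval : ∀ k : ℕ, A.charpolyRev.eval (-(k : ℤ)) = (1 + (k : ℤ) • A).det := by
    intro k
    rw [Matrix.charpolyRev, ← Polynomial.coe_evalRingHom, RingHom.map_det]
    congr 1
    apply Matrix.ext
    intro i j
    rw [RingHom.mapMatrix_apply, Matrix.map_apply, Matrix.sub_apply, Matrix.add_apply,
      Matrix.smul_apply, Matrix.smul_apply, Matrix.map_apply]
    rcases eq_or_ne i j with hij | hij
    · subst hij
      simp
    · simp [Matrix.one_apply_ne hij]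
  have hsq : A.charpolyRev ^ 2 = 1 := by
    have : A.charpolyRev ^ 2 - 1 = 0 := by
      apply Polynomial.eq_zero_of_infinite_isRoot
      have hinj : Function.Injective (fun k : ℕ => -(k : ℤ)) := by
        intro a b hab
        simpa using hab
      apply (Set.infinite_range_of_injective hinj).mono
      rintro _ ⟨k, rfl⟩
      show IsRoot _ _
      rw [IsRoot.def, eval_sub, eval_pow, heval, eval_one]
      rcases Int.isUnit_iff.1 (h k) with h | h <;> rw [h] <;> norm_num
    linear_combination this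
  have hdeg : A.charpolyRev.natDegree = 0 := by
    have h1 : (A.charpolyRev ^ 2).natDegree = 0 := by rw [hsq]; exact natDegree_one
    rw [natDegree_pow] at h1
    omega
  have h1 : A.charpolyRev = 1 := by
    have h2 := A.eval_charpolyRev
    rw [eq_C_of_natDegree_eq_zero hdeg, eval_C] at h2
    rw [eq_C_of_natDegree_eq_zero hdeg, h2, C_1]
  have h2 : A.charpoly.reverse = 1 := by rw [Matrix.reverse_charpoly, h1]
  have hn : A.charpoly.natDegree = n := by
    rw [Matrix.charpoly_natDegree_eq_dim, Fintype.card_fin]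
  have h3 : A.charpoly = X ^ n := by
    ext j
    rw [coeff_X_pow]
    split_ifs with hj
    · have := A.charpoly_monic.coeff_natDegree
      rw [hn] at this
      rw [hj, this]
    · rcases lt_or_gt_of_ne hj with h | h
      · have h4 : A.charpoly.reverse.coeff (n - j) = A.charpoly.coeff j := by
          rw [coeff_reverse, hn, revAt_le (Nat.sub_le n j)]
          congr 1
          omega
        rw [← h4, h2, coeff_one]
        rw [if_neg]
        omega
      · apply coeff_eq_zero_of_natDegree_lt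
        rw [hn]; exact h
  refine ⟨n, ?_⟩
  have := Matrix.aeval_self_charpoly A
  rw [h3, map_pow, aeval_X] at this
  exact this

theorem nil_of_det_end {V : Type*} [AddCommGroup V] [Module.Finite ℤ V] [Module.Free ℤ V]
    (X : Module.End ℤ V) (h : ∀ k : ℕ, IsUnit (1 + (k : ℤ) • X)) : IsNilpotent X := by
  let b := Module.finBasis ℤ V
  let e : Module.End ℤ V ≃ₐ[ℤ] Matrix (Fin (Module.finrank ℤ V)) (Fin (Module.finrank ℤ V)) ℤ :=
    LinearMap.toMatrixAlgEquiv b
  have h1 : IsNilpotent (e X) := by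
    apply nil_of_det
    intro k
    rw [← Matrix.isUnit_iff_isUnit_det]
    have : (1 : Matrix _ _ ℤ) + (k : ℤ) • e X = e (1 + (k : ℤ) • X) := by
      rw [map_add, map_one, map_smul]
    rw [this]
    exact (h k).map e
  exact (IsNilpotent.map_iff e.injective).1 h1

end RatVA

end RatVA_N
section RatVA_C1


namespace RatVA

theorem quasi_unipotent {V : Type*} [AddCommGroup V] [Module.Finite ℤ V]
    [Module.IsTorsionFree ℤ V] (θ η : Module.End ℤ V) (h1 : θ * η = 1) (h2 : η * θ = 1)
    (a c b : V) (hb : b ≠ 0) (n : ℕ → ℕ) (h : ∀ k : ℕ, (θ ^ n k) a = c + (k : ℤ) • b) :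
    ∃ m : ℕ, 0 < m ∧ ∃ r : ℕ, ((θ ^ m - 1) ^ r) a = 0 := by
  classical
  let W : Submodule ℤ V := Submodule.span ℤ (Set.range (fun j : ℕ => (θ ^ j) a) ∪
    Set.range (fun j : ℕ => (η ^ j) a))
  have hθη : ∀ x, θ (η x) = x := fun x => by
    have := congrArg (fun f : Module.End ℤ V => f x) h1
    exact this
  have hηθ : ∀ x, η (θ x) = x := fun x => by
    have := congrArg (fun f : Module.End ℤ V => f x) h2
    exact this
  have haW : a ∈ W := Submodule.subset_span (Or.inl ⟨0, rfl⟩)
  have hθW : ∀ w ∈ W, θ w ∈ W := by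
    intro w hw
    induction hw using Submodule.span_induction with
    | mem x hx =>
      rcases hx with ⟨j, rfl⟩ | ⟨j, rfl⟩
      · apply Submodule.subset_span
        left
        exact ⟨j + 1, by simp [pow_succ', Module.End.mul_apply]⟩
      · rcases j with _ | j
        · apply Submodule.subset_span
          left
          exact ⟨1, by simp⟩
        · apply Submodule.subset_span
          right
          refine ⟨j, ?_⟩
          show (η ^ j) a = θ ((η ^ (j + 1)) a)
          rw [pow_succ', Module.End.mul_apply, hθη]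
    | zero => rw [map_zero]; exact W.zero_mem
    | add x y _ _ hx hy => rw [map_add]; exact W.add_mem hx hy
    | smul r x _ hx => rw [map_smul]; exact W.smul_mem r hx
  have hηW : ∀ w ∈ W, η w ∈ W := by
    intro w hw
    induction hw using Submodule.span_induction with
    | mem x hx =>
      rcases hx with ⟨j, rfl⟩ | ⟨j, rfl⟩
      · rcases j with _ | j
        · apply Submodule.subset_span
          right
          exact ⟨1, by simp⟩
        · apply Submodule.subset_span
          left
          refine ⟨j, ?_⟩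
          show (θ ^ j) a = η ((θ ^ (j + 1)) a)
          rw [pow_succ', Module.End.mul_apply, hηθ]
      · apply Submodule.subset_span
        right
        exact ⟨j + 1, by simp [pow_succ', Module.End.mul_apply]⟩
    | zero => rw [map_zero]; exact W.zero_mem
    | add x y _ _ hx hy => rw [map_add]; exact W.add_mem hx hy
    | smul r x _ hx => rw [map_smul]; exact W.smul_mem r hx
  let T : Module.End ℤ W := θ.restrict hθW
  let T' : Module.End ℤ W := η.restrict hηW
  have hT1 : T * T' = 1 := by
    ext w; exact hθη w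
  have hT2 : T' * T = 1 := by
    ext w; exact hηθ w
  let U : (Module.End ℤ W)ˣ := ⟨T, T', hT1, hT2⟩
  have hTcoe : ∀ (j : ℕ) (w : W), (((T ^ j) w : W) : V) = (θ ^ j) w := by
    intro j w
    induction j with
    | zero => rfl
    | succ j ih => rw [pow_succ', pow_succ', Module.End.mul_apply, Module.End.mul_apply, ← ih]; rfl
  have hT'coe : ∀ (j : ℕ) (w : W), (((T' ^ j) w : W) : V) = (η ^ j) w := by
    intro j w
    induction j with
    | zero => rfl
    | succ j ih => rw [pow_succ', pow_succ', Module.End.mul_apply, Module.End.mul_apply, ← ih]; rfl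
  let a' : W := ⟨a, haW⟩
  -- the operator identity
  have hTT' : Commute T T' := by rw [commute_iff_eq, hT1, hT2]
  have hop : ∀ k : ℕ, T ^ n k = T ^ n 0 + (k : ℤ) • (T ^ n 1 - T ^ n 0) := by
    intro k
    have hbase : (T ^ n k) a' = (T ^ n 0 + (k : ℤ) • (T ^ n 1 - T ^ n 0)) a' := by
      apply Subtype.ext
      have e0 := h 0
      have e1 := h 1
      have ek := h k
      simp only [Nat.cast_zero, zero_smul, add_zero, Nat.cast_one, one_smul] at e0 e1
      rw [hTcoe]
      simp only [LinearMap.add_apply, LinearMap.smul_apply, LinearMap.sub_apply,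
        Submodule.coe_add, Submodule.coe_smul, Submodule.coe_sub, hTcoe]
      show (θ ^ n k) a = (θ ^ n 0) a + (k : ℤ) • ((θ ^ n 1) a - (θ ^ n 0) a)
      rw [ek, e0, e1]
      congr 1
      congr 1
      abel
    have hcomm : ∀ S : Module.End ℤ W, Commute S T → Commute S T' →
        Commute S (T ^ n k - (T ^ n 0 + (k : ℤ) • (T ^ n 1 - T ^ n 0))) := by
      intro S hS _
      apply Commute.sub_right (hS.pow_right _)
      apply Commute.add_right (hS.pow_right _)
      apply Commute.smul_right
      exact Commute.sub_right (hS.pow_right _) (hS.pow_right _)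
    set Z := T ^ n k - (T ^ n 0 + (k : ℤ) • (T ^ n 1 - T ^ n 0)) with hZ
    have hZa : Z a' = 0 := by
      rw [hZ, LinearMap.sub_apply, hbase, sub_self]
    have hZ0 : Z = 0 := by
      ext w
      obtain ⟨w, hw⟩ := w
      have key : ∀ x (hx : x ∈ W), ((Z ⟨x, hx⟩ : W) : V) = 0 := by
        intro x hx
        induction hx using Submodule.span_induction with
        | mem x hx =>
          rcases hx with ⟨j, rfl⟩ | ⟨j, rfl⟩
          · have e : (⟨(θ ^ j) a, Submodule.subset_span (Or.inl ⟨j, rfl⟩)⟩ : W) = (T ^ j) a' := by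
              apply Subtype.ext; rw [hTcoe]
            have hc : Commute (T ^ j) Z := hcomm _ ((Commute.refl T).pow_left j)
              (hTT'.pow_left j)
            have h3 : Z ((T ^ j) a') = (T ^ j) (Z a') := by
              have := congrArg (fun f : Module.End ℤ W => f a') hc.eq
              exact this.symm
            show ((Z (⟨(θ ^ j) a, _⟩ : W) : W) : V) = 0
            rw [e, h3, hZa, map_zero]; rfl
          · have e : (⟨(η ^ j) a, Submodule.subset_span (Or.inr ⟨j, rfl⟩)⟩ : W) = (T' ^ j) a' := by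
              apply Subtype.ext; rw [hT'coe]
            have hc : Commute (T' ^ j) Z := hcomm _ (hTT'.symm.pow_left j)
              ((Commute.refl T').pow_left j)
            have h3 : Z ((T' ^ j) a') = (T' ^ j) (Z a') := by
              have := congrArg (fun f : Module.End ℤ W => f a') hc.eq
              exact this.symm
            show ((Z (⟨(η ^ j) a, _⟩ : W) : W) : V) = 0
            rw [e, h3, hZa, map_zero]; rfl
        | zero =>
          have : (⟨0, W.zero_mem⟩ : W) = 0 := rfl
          rw [this, map_zero]; rfl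
        | add x y hx hy ihx ihy =>
          have : (⟨x + y, W.add_mem hx hy⟩ : W) = ⟨x, hx⟩ + ⟨y, hy⟩ := rfl
          rw [this, map_add, Submodule.coe_add, ihx, ihy, add_zero]
        | smul r x hx ihx =>
          have : (⟨r • x, W.smul_mem r hx⟩ : W) = r • ⟨x, hx⟩ := rfl
          rw [this, map_smul, Submodule.coe_smul, ihx, smul_zero]
      exact key w hw
    rw [hZ, sub_eq_zero] at hZ0
    exact hZ0
  -- nilpotency
  have hUT : ∀ j : ℕ, ((U ^ j : (Module.End ℤ W)ˣ) : Module.End ℤ W) = T ^ j := fun j => by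
    rw [Units.val_pow_eq_pow_val]
  let X : Module.End ℤ W := ((U ^ ((n 1 : ℤ) - n 0) : (Module.End ℤ W)ˣ) : Module.End ℤ W) - 1
  have hX : ∀ k : ℕ, IsUnit (1 + (k : ℤ) • X) := by
    intro k
    have : 1 + (k : ℤ) • X =
        ((U ^ (-(n 0 : ℤ)) * U ^ (n k) : (Module.End ℤ W)ˣ) : Module.End ℤ W) := by
      rw [Units.val_mul, hUT, hop k]
      have e1 : ((U ^ (-(n 0 : ℤ)) : (Module.End ℤ W)ˣ) : Module.End ℤ W) * T ^ n 0 = 1 := by
        rw [← hUT, ← Units.val_mul, ← zpow_natCast, ← zpow_add]; simp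
      have e2 : ((U ^ (-(n 0 : ℤ)) : (Module.End ℤ W)ˣ) : Module.End ℤ W) * T ^ n 1 =
          ((U ^ ((n 1 : ℤ) - n 0) : (Module.End ℤ W)ˣ) : Module.End ℤ W) := by
        rw [← hUT, ← Units.val_mul, ← zpow_natCast, ← zpow_add]
        congr 2; ring
      rw [mul_add, e1, mul_smul_comm, mul_sub, e1, e2]
    rw [this]
    exact Units.isUnit _
  have hnil := nil_of_det_end X hX
  have hne : (n 1 : ℤ) - n 0 ≠ 0 := by
    intro h0
    have h3 : n 1 = n 0 := by omega
    have e0 := h 0
    have e1 := h 1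
    rw [h3, e0] at e1
    simp only [Nat.cast_zero, zero_smul, add_zero, Nat.cast_one, one_smul] at e1
    apply hb
    have := e1
    rw [left_eq_add] at this
    exact this
  have hfin : ∃ m : ℕ, 0 < m ∧ IsNilpotent (T ^ m - 1) := by
    rcases lt_or_gt_of_ne hne with hlt | hgt
    · refine ⟨(n 0 - n 1), by omega, ?_⟩
      have e : T ^ (n 0 - n 1) - 1 = -(T ^ (n 0 - n 1)) * X := by
        show T ^ (n 0 - n 1) - 1 = -(T ^ (n 0 - n 1)) * (_ - 1)
        rw [← hUT, mul_sub, mul_one, neg_mul, ← Units.val_mul, ← zpow_natCast, ← zpow_add]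
        have : (((n 0 - n 1 : ℕ) : ℤ) + ((n 1 : ℤ) - n 0)) = 0 := by omega
        rw [this, zpow_zero, Units.val_one]
        abel
      rw [e]
      apply Commute.isNilpotent_mul_left _ hnil
      apply Commute.neg_left
      rw [← hUT]
      show Commute _ (_ - 1)
      apply Commute.sub_right _ (Commute.one_right _)
      rw [← zpow_natCast]
      exact Units.ext_iff.1 ((Commute.zpow_zpow_self U _ _).eq)
    · refine ⟨(n 1 - n 0), by omega, ?_⟩
      have e : T ^ (n 1 - n 0) - 1 = X := by
        show T ^ (n 1 - n 0) - 1 = _ - 1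
        rw [← hUT, ← zpow_natCast]
        congr 3
        omega
      rw [e]
      exact hnil
  obtain ⟨m, hm, r, hr⟩ := hfin
  refine ⟨m, hm, r, ?_⟩
  have hcoe : ∀ (j : ℕ) (w : W), ((((T ^ m - 1) ^ j) w : W) : V) = ((θ ^ m - 1) ^ j) (w : V) := by
    intro j
    induction j with
    | zero => intro w; rfl
    | succ j ih =>
      intro w
      rw [pow_succ, pow_succ, Module.End.mul_apply, Module.End.mul_apply, ih]
      congr 1
      rw [LinearMap.sub_apply, LinearMap.sub_apply, Submodule.coe_sub, hTcoe]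
      rfl
  have := hcoe r a'
  rw [hr] at this
  rw [← this]; rfl

end RatVA

end RatVA_C1
section RatVA_C2


open Pointwise

namespace RatVA

variable {G : Type*} [Group G]

theorem conj_pow_mem {M : Subgroup G} {g : G} (h : ∀ x ∈ M, g * x * g⁻¹ ∈ M) (n : ℕ) :
    ∀ x ∈ M, g ^ n * x * (g ^ n)⁻¹ ∈ M := by
  induction n with
  | zero => intro x hx; simpa using hx
  | succ n ih =>
    intro x hx
    have := h _ (ih x hx)
    have e : g * (g ^ n * x * (g ^ n)⁻¹) * g⁻¹ = g ^ (n + 1) * x * (g ^ (n + 1))⁻¹ := by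
      rw [pow_succ' g n]; group
    rwa [e] at this

/-- one element: a positive power of `g` commutes with `a` -/
theorem lemmaZ_one (hG : PropI G) (M : Subgroup G) (hM : M.FG)
    (hcomm : ∀ x ∈ M, ∀ y ∈ M, x * y = y * x)
    (htf : ∀ x ∈ M, ∀ n : ℕ, 0 < n → x ^ n = 1 → x = 1) (g : G)
    (h1 : ∀ x ∈ M, g * x * g⁻¹ ∈ M) (h2 : ∀ x ∈ M, g⁻¹ * x * g ∈ M) (a : G) (ha : a ∈ M) :
    ∃ k : ℕ, 0 < k ∧ g ^ k * a = a * g ^ k := by
  classical
  by_cases hgM : ∃ k : ℕ, 0 < k ∧ g ^ k ∈ M
  · obtain ⟨k, hk, hkM⟩ := hgM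
    exact ⟨k, hk, hcomm _ hkM _ ha⟩
  push Not at hgM
  by_contra hcon
  push Not at hcon
  -- group structure
  let _ : CommGroup M := { (inferInstance : Group M) with
    mul_comm := fun x y => Subtype.ext (hcomm x x.2 y y.2) }
  let R : Set G := (Submonoid.powers g : Set G) * {a} * (Submonoid.powers g⁻¹ : Set G)
  have hR : IsRat R := IsRat.mul (IsRat.mul (IsRat.powers _) (IsRat.single _)) (IsRat.powers _)
  have hX : IsRat (R ∩ (M : Set G)) := hG _ _ hR (IsRat.of_fg hM)
  have hX' : IsRat ((↑) ⁻¹' (R ∩ (M : Set G)) : Set M) :=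
    hX.preimage_subtype M Set.inter_subset_right
  have hmem : ∀ x : M, x ∈ ((↑) ⁻¹' (R ∩ (M : Set G)) : Set M) →
      ∃ n : ℕ, (x : G) = g ^ n * a * (g ^ n)⁻¹ := by
    rintro ⟨x, hxM⟩ ⟨⟨_, ⟨_, ⟨n, rfl⟩, a', ha', rfl⟩, _, ⟨m, rfl⟩, hx⟩, _⟩
    have ha'' : a' = a := ha'
    have hx'' : g ^ n * a' * (g⁻¹) ^ m = x := hx
    have hx' : g ^ n * a * (g⁻¹) ^ m = x := by rw [← ha'']; exact hx''
    refine ⟨n, ?_⟩
    have h3 : g ^ n * a * (g ^ n)⁻¹ ∈ M := conj_pow_mem h1 n a ha
    -- g ^ (n - m) ∈ M
    have h4 : g ^ n * (g⁻¹) ^ m ∈ M := by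
      have : g ^ n * (g⁻¹) ^ m = (g ^ n * a * (g ^ n)⁻¹)⁻¹ * (g ^ n * a * (g⁻¹) ^ m) := by group
      rw [this]
      apply M.mul_mem (M.inv_mem h3)
      rw [hx']; exact hxM
    have h5 : n = m := by
      rcases lt_trichotomy n m with h | h | h
      · exfalso
        apply hgM (m - n) (by omega)
        have : g ^ (m - n) = (g ^ n * (g⁻¹) ^ m)⁻¹ := by
          rw [mul_inv_rev, inv_pow, inv_inv]
          have : m = (m - n) + n := by omega
          conv_rhs => rw [this, pow_add]
          group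
        rw [this]; exact M.inv_mem h4
      · exact h
      · exfalso
        apply hgM (n - m) (by omega)
        have : g ^ (n - m) = (g ^ n * (g⁻¹) ^ m) := by
          have : n = (n - m) + m := by omega
          conv_rhs => rw [this, pow_add]
          rw [inv_pow]; group
        rw [this]; exact h4
    subst h5
    show x = _
    rw [← hx', inv_pow]
  have hmem' : ∀ n : ℕ, (⟨g ^ n * a * (g ^ n)⁻¹, conj_pow_mem h1 n a ha⟩ : M) ∈
      ((↑) ⁻¹' (R ∩ (M : Set G)) : Set M) := by
    intro n
    refine ⟨?_, conj_pow_mem h1 n a ha⟩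
    refine ⟨g ^ n * a, ⟨g ^ n, ⟨n, rfl⟩, a, rfl, rfl⟩, (g⁻¹) ^ n, ⟨n, rfl⟩, ?_⟩
    show g ^ n * a * (g⁻¹) ^ n = g ^ n * a * (g ^ n)⁻¹
    rw [inv_pow]
  have hinj : Function.Injective (fun n : ℕ =>
      (⟨g ^ n * a * (g ^ n)⁻¹, conj_pow_mem h1 n a ha⟩ : M)) := by
    have key : ∀ n m : ℕ, n < m → g ^ n * a * (g ^ n)⁻¹ = g ^ m * a * (g ^ m)⁻¹ → False := by
      intro n m hnm h
      apply hcon (m - n) (by omega)
      have e : g ^ m = g ^ n * g ^ (m - n) := by rw [← pow_add]; congr 1; omega
      rw [e] at h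
      have h3 : a = g ^ (m - n) * a * (g ^ (m - n))⁻¹ := by
        have h4 : g ^ n * a * (g ^ n)⁻¹ =
            g ^ n * (g ^ (m - n) * a * (g ^ (m - n))⁻¹) * (g ^ n)⁻¹ := by
          rw [h]; group
        exact mul_left_cancel (mul_right_cancel h4)
      calc g ^ (m - n) * a = (g ^ (m - n) * a * (g ^ (m - n))⁻¹) * g ^ (m - n) := by group
        _ = a * g ^ (m - n) := by rw [← h3]
    intro n m hnm
    have h3 : g ^ n * a * (g ^ n)⁻¹ = g ^ m * a * (g ^ m)⁻¹ := congrArg Subtype.val hnm
    rcases lt_trichotomy n m with h | h | h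
    · exact (key n m h h3).elim
    · exact h
    · exact (key m n h h3.symm).elim
  have hinf : ((↑) ⁻¹' (R ∩ (M : Set G)) : Set M).Infinite :=
    (Set.infinite_range_of_injective hinj).mono (by rintro _ ⟨n, rfl⟩; exact hmem' n)
  obtain ⟨c, b, hb, hk⟩ := pump hX' hinf
  choose n hn using fun k => hmem _ (hk k)
  -- module structure
  let V := Additive M
  let φ : M →* M :=
    { toFun := fun x => ⟨g * x * g⁻¹, h1 x x.2⟩
      map_one' := Subtype.ext (by simp)
      map_mul' := fun x y => Subtype.ext (by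
        show g * ((x : G) * y) * g⁻¹ = g * x * g⁻¹ * (g * y * g⁻¹)
        group) }
  let ψ : M →* M :=
    { toFun := fun x => ⟨g⁻¹ * x * g, h2 x x.2⟩
      map_one' := Subtype.ext (by simp)
      map_mul' := fun x y => Subtype.ext (by
        show g⁻¹ * ((x : G) * y) * g = g⁻¹ * x * g * (g⁻¹ * y * g)
        group) }
  let θ : Module.End ℤ V := (MonoidHom.toAdditive φ).toIntLinearMap
  let η : Module.End ℤ V := (MonoidHom.toAdditive ψ).toIntLinearMap
  have hθ : ∀ x : V, ((θ x).toMul : G) = g * (x.toMul : G) * g⁻¹ := fun x => rfl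
  have hη : ∀ x : V, ((η x).toMul : G) = g⁻¹ * (x.toMul : G) * g := fun x => rfl
  have hinjV : ∀ x y : V, (x.toMul : G) = (y.toMul : G) → x = y := fun x y h => by
    have : x.toMul = y.toMul := Subtype.ext h
    exact this
  have hθη : θ * η = 1 := by
    apply LinearMap.ext
    intro x
    apply hinjV
    show ((θ (η x)).toMul : G) = (x.toMul : G)
    rw [hθ, hη]; group
  have hηθ : η * θ = 1 := by
    apply LinearMap.ext
    intro x
    apply hinjV
    show ((η (θ x)).toMul : G) = (x.toMul : G)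
    rw [hη, hθ]; group
  have hθpow : ∀ (j : ℕ) (x : V), (((θ ^ j) x).toMul : G) = g ^ j * (x.toMul : G) * (g ^ j)⁻¹ := by
    intro j
    induction j with
    | zero => intro x; simp
    | succ j ih =>
      intro x
      rw [pow_succ', Module.End.mul_apply, hθ, ih, pow_succ' g j]; group
  have hfgM : Group.FG M := (Group.fg_iff_subgroup_fg M).2 hM
  have hfin : Module.Finite ℤ V := by
    have : AddGroup.FG V := inferInstance
    exact Module.Finite.iff_addGroup_fg.2 this
  have htfV : Module.IsTorsionFree ℤ V := by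
    have : IsAddTorsionFree V := by
      constructor
      intro n hn0 x y hxy
      have hxy' : n • x = n • y := hxy
      have h3 : (x.toMul : G) ^ n = (y.toMul : G) ^ n := by
        have h3' : ((n • x : V).toMul : G) = ((n • y : V).toMul : G) := by rw [hxy']
        exact h3'
      have h4 : ((x.toMul : G) * (y.toMul : G)⁻¹) ^ n = 1 := by
        have hc : Commute (x.toMul : G) (y.toMul : G)⁻¹ :=
          (show Commute (x.toMul : G) (y.toMul : G) from
            hcomm _ x.toMul.2 _ y.toMul.2).inv_right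
        rw [hc.mul_pow, h3, inv_pow, mul_inv_cancel]
      have h5 := htf _ (M.mul_mem x.toMul.2 (M.inv_mem y.toMul.2)) n (Nat.pos_of_ne_zero hn0) h4
      apply hinjV
      exact mul_inv_eq_one.1 h5
    infer_instance
  let aV : V := Additive.ofMul ⟨a, ha⟩
  have hbV : Additive.ofMul b ≠ (0 : V) := hb
  obtain ⟨m, hm, r, hr⟩ := quasi_unipotent θ η hθη hηθ aV (Additive.ofMul c) (Additive.ofMul b)
    hbV n (by
      intro k
      apply hinjV
      rw [hθpow]
      have e := hn k
      have e2 : ((Additive.ofMul c + (k : ℤ) • Additive.ofMul b : V).toMul : G) =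
          ((c * b ^ k : M) : G) := by
        simp
      rw [e2, e]
      rfl)
  -- take the last nonzero power
  have hne : ((θ ^ m - 1 : Module.End ℤ V) ^ 1) aV ≠ 0 := by
    intro h
    apply hcon m hm
    rw [pow_one, LinearMap.sub_apply, Module.End.one_apply, sub_eq_zero] at h
    have := hθpow m aV
    rw [h] at this
    have h3 : a = g ^ m * a * (g ^ m)⁻¹ := this
    calc g ^ m * a = (g ^ m * a * (g ^ m)⁻¹) * g ^ m := by group
      _ = a * g ^ m := by rw [← h3]
  have hex : ∃ j : ℕ, ((θ ^ m - 1 : Module.End ℤ V) ^ (j + 1)) aV ≠ 0 ∧ ((θ ^ m - 1 : Module.End ℤ V) ^ (j + 2)) aV = 0 := by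
    by_contra hc
    push Not at hc
    have : ∀ j : ℕ, ((θ ^ m - 1 : Module.End ℤ V) ^ (j + 1)) aV ≠ 0 := by
      intro j
      induction j with
      | zero => exact hne
      | succ j ih => exact hc j ih
    rcases r with _ | r
    · apply this 0
      rw [pow_zero, Module.End.one_apply] at hr
      rw [hr, map_zero]
    · exact this r hr
  obtain ⟨j, hj1, hj2⟩ := hex
  set y : V := ((θ ^ m - 1 : Module.End ℤ V) ^ j) aV with hy
  set z : V := ((θ ^ m - 1 : Module.End ℤ V) ^ (j + 1)) aV with hz
  have hyz : (θ ^ m) y = y + z := by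
    have : z = (θ ^ m) y - y := by
      rw [hz, pow_succ', Module.End.mul_apply, ← hy, LinearMap.sub_apply, Module.End.one_apply]
    rw [this]; abel
  have hzz : (θ ^ m) z = z := by
    have : ((θ ^ m - 1 : Module.End ℤ V) ^ (j + 2)) aV = (θ ^ m) z - z := by
      rw [pow_succ', Module.End.mul_apply, ← hz, LinearMap.sub_apply, Module.End.one_apply]
    rw [hj2] at this
    exact (sub_eq_zero.1 this.symm)
  have e1 : g ^ m * (y.toMul : G) * (g ^ m)⁻¹ = (y.toMul : G) * (z.toMul : G) := by
    rw [← hθpow, hyz]; rfl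
  have e2 : g ^ m * (z.toMul : G) * (g ^ m)⁻¹ = (z.toMul : G) := by
    rw [← hθpow, hzz]
  have hyzc := hcomm _ y.toMul.2 _ z.toMul.2
  obtain ⟨k, hk0, hk1⟩ := heisenberg hG (g ^ m) (y.toMul : G) (z.toMul : G)
    (by rw [e1, hyzc]; group)
    (by
      calc (z.toMul : G) * g ^ m = (g ^ m * (z.toMul : G) * (g ^ m)⁻¹) * g ^ m := by rw [e2]
        _ = g ^ m * (z.toMul : G) := by group)
    hyzc.symm
  have := htf _ z.toMul.2 k hk0 hk1
  apply hj1
  apply hinjV
  exact this

/-- a positive power of `g` centralises `M` -/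
theorem lemmaZ (hG : PropI G) (M : Subgroup G) (hM : M.FG)
    (hcomm : ∀ x ∈ M, ∀ y ∈ M, x * y = y * x)
    (htf : ∀ x ∈ M, ∀ n : ℕ, 0 < n → x ^ n = 1 → x = 1) (g : G)
    (h1 : ∀ x ∈ M, g * x * g⁻¹ ∈ M) (h2 : ∀ x ∈ M, g⁻¹ * x * g ∈ M) :
    ∃ k : ℕ, 0 < k ∧ ∀ x ∈ M, g ^ k * x = x * g ^ k := by
  classical
  obtain ⟨S, hS⟩ := hM
  have key : ∀ S' : Finset G, (∀ x ∈ S', x ∈ M) →
      ∃ k : ℕ, 0 < k ∧ ∀ x ∈ S', g ^ k * x = x * g ^ k := by
    intro S'
    induction S' using Finset.induction_on with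
    | empty => intro _; exact ⟨1, one_pos, by simp⟩
    | insert a S' _ ih =>
      intro h
      obtain ⟨k, hk, hk'⟩ := ih (fun x hx => h x (Finset.mem_insert_of_mem hx))
      obtain ⟨l, hl, hl'⟩ := lemmaZ_one hG M ⟨S, hS⟩ hcomm htf g h1 h2 a
        (h a (Finset.mem_insert_self _ _))
      refine ⟨k * l, Nat.mul_pos hk hl, fun x hx => ?_⟩
      rcases Finset.mem_insert.1 hx with rfl | hx
      · rw [mul_comm k l, pow_mul]
        exact ((show Commute (g ^ l) x from hl').pow_left k).eq
      · rw [pow_mul]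
        exact ((show Commute (g ^ k) x from hk' x hx).pow_left l).eq
  obtain ⟨k, hk, hk'⟩ := key S (fun x hx => by
    rw [← hS]; exact Subgroup.subset_closure hx)
  refine ⟨k, hk, fun x hx => ?_⟩
  rw [← hS] at hx
  induction hx using Subgroup.closure_induction with
  | mem x hx => exact hk' x hx
  | one => simp
  | mul x y _ _ hx hy =>
    exact ((show Commute (g ^ k) x from hx).mul_right (show Commute (g ^ k) y from hy)).eq
  | inv x _ hx => exact ((show Commute (g ^ k) x from hx).inv_right).eq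

end RatVA

end RatVA_C2
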