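import Mathlib
import Pool.Agent.Helper986.RatVA.Rat

set_option autoImplicit false

namespace RatVA

section s1


variable {G : Type*} [Group G]

/-- the subgroup `W` is virtually abelian -/
def VA (W : Subgroup G) : Prop :=
  ∃ A : Subgroup G, A ≤ W ∧ (∀ x ∈ A, ∀ y ∈ A, x * y = y * x) ∧ A.relIndex W ≠ 0

theorem VA.mono {W W' : Subgroup G} (h : VA W) (hle : W' ≤ W) : VA W' := by
  obtain ⟨A, hA, hc, hi⟩ := h
  refine ⟨A ⊓ W', inf_le_right, fun x hx y hy => hc x hx.1 y hy.1, ?_⟩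
  rw [Subgroup.inf_relIndex_right]
  exact fun h0 => hi (Subgroup.relIndex_eq_zero_of_le_right hle h0)

/-- subgroups of f.g. abelian groups are f.g. -/
theorem fg_sub_comm {A : Type*} [CommGroup A] [hA : Group.FG A] (B : Subgroup A) : B.FG := by
  have h1 : AddGroup.FG (Additive A) := inferInstance
  have h2 : Module.Finite ℤ (Additive A) := Module.Finite.iff_addGroup_fg.2 h1
  have h3 : IsNoetherian ℤ (Additive A) := inferInstance
  have h4 : (AddSubgroup.toIntSubmodule (Subgroup.toAddSubgroup B)).FG := IsNoetherian.noetherian _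
  have h5 : (Subgroup.toAddSubgroup B).FG := by
    rw [Submodule.fg_iff_addSubgroup_fg] at h4
    simpa using h4
  exact (Subgroup.fg_iff_add_fg B).2 h5

/-- a group having a f.g. subgroup of finite index is f.g. -/
theorem fg_of_fg_finiteIndex {H : Type*} [Group H] (B : Subgroup H) (hB : B.FG)
    (hi : B.index ≠ 0) : Group.FG H := by
  have hfi : B.FiniteIndex := ⟨hi⟩
  have : Finite (H ⧸ B) := inferInstance
  obtain ⟨S, hS⟩ := hB
  classical
  have hfin : (Set.range (fun q : H ⧸ B => q.out)).Finite := Set.finite_range _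
  rw [Group.fg_iff]
  refine ⟨(S : Set H) ∪ Set.range (fun q : H ⧸ B => q.out), ?_, S.finite_toSet.union hfin⟩
  rw [eq_top_iff]
  intro x _
  have h1 : ((x : H ⧸ B).out)⁻¹ * x ∈ B := by
    rw [← QuotientGroup.eq]
    simp
  have h2 : (x : H ⧸ B).out ∈ Subgroup.closure ((S : Set H) ∪ Set.range (fun q : H ⧸ B => q.out)) :=
    Subgroup.subset_closure (Or.inr ⟨_, rfl⟩)
  have h3 : ((x : H ⧸ B).out)⁻¹ * x ∈
      Subgroup.closure ((S : Set H) ∪ Set.range (fun q : H ⧸ B => q.out)) := by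
    have : B ≤ Subgroup.closure ((S : Set H) ∪ Set.range (fun q : H ⧸ B => q.out)) := by
      rw [← hS]
      exact Subgroup.closure_mono Set.subset_union_left
    exact this h1
  have := Subgroup.mul_mem _ h2 h3
  simpa using this

/-- a subgroup of a finitely generated virtually abelian group is finitely generated -/
theorem fg_of_le_va {W W' : Subgroup G} (hfg : W.FG) (h : VA W) (hle : W' ≤ W) : W'.FG := by
  obtain ⟨A, hA, hc, hi⟩ := h
  have hW : Group.FG W := (Group.fg_iff_subgroup_fg W).2 hfg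
  have hfi : (A.subgroupOf W).FiniteIndex := ⟨hi⟩
  have h1 : Group.FG (A.subgroupOf W) := inferInstance
  have h2 : Group.FG A := by
    have e := Subgroup.subgroupOfEquivOfLe hA
    exact Group.fg_of_surjective (f := e.toMonoidHom) e.surjective
  letI : CommGroup A := { (inferInstance : Group A) with
    mul_comm := fun x y => Subtype.ext (hc x x.2 y y.2) }
  have h3 : ((A ⊓ W').subgroupOf A).FG := fg_sub_comm _
  have h4 : (A ⊓ W').FG := by
    have e := Subgroup.subgroupOfEquivOfLe (inf_le_left : A ⊓ W' ≤ A)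
    have h3' : Group.FG ((A ⊓ W').subgroupOf A) := (Group.fg_iff_subgroup_fg _).2 h3
    have : Group.FG (A ⊓ W' : Subgroup G) := Group.fg_of_surjective (f := e.toMonoidHom) e.surjective
    exact (Group.fg_iff_subgroup_fg _).1 this
  have h5 : ((A ⊓ W').subgroupOf W').FG := by
    have e := Subgroup.subgroupOfEquivOfLe (inf_le_right : A ⊓ W' ≤ W')
    have h4' : Group.FG (A ⊓ W' : Subgroup G) := (Group.fg_iff_subgroup_fg _).2 h4
    have : Group.FG ((A ⊓ W').subgroupOf W') :=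
      Group.fg_of_surjective (f := e.symm.toMonoidHom) e.symm.surjective
    exact (Group.fg_iff_subgroup_fg _).1 this
  have h6 : ((A ⊓ W').subgroupOf W').index ≠ 0 := by
    have : (A ⊓ W').relIndex W' ≠ 0 := by
      rw [Subgroup.inf_relIndex_right]
      exact fun h0 => hi (Subgroup.relIndex_eq_zero_of_le_right hle h0)
    exact this
  exact (Group.fg_iff_subgroup_fg _).1 (fg_of_fg_finiteIndex _ h5 h6)


end s1

section s2


theorem vac_sub_fg {B : Type*} [CommGroup B] [hB : Group.FG B] (H : Subgroup B) : H.FG := by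
  rw [Subgroup.fg_iff_add_fg]
  have h1 : AddGroup.FG (Additive B) := GroupFG.iff_add_fg.1 hB
  have h2 : Module.Finite ℤ (Additive B) := Module.Finite.iff_addGroup_fg.mpr h1
  have h3 : IsNoetherian ℤ (Additive B) := isNoetherian_of_isNoetherianRing_of_finite ℤ _
  rw [← AddSubgroup.toIntSubmodule_toAddSubgroup (Subgroup.toAddSubgroup H),
    ← Submodule.fg_iff_addSubgroup_fg]
  exact IsNoetherian.noetherian _

theorem vac_exponent (B : Type*) [CommGroup B] [hB : Group.FG B] :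
    ∃ t : ℕ, 0 < t ∧ ∀ b : B, IsOfFinOrder b → b ^ t = 1 := by
  have h1 : (CommGroup.torsion B).FG := vac_sub_fg _
  have h2 : Group.FG (CommGroup.torsion B) := (Group.fg_iff_subgroup_fg _).2 h1
  have h3 : Finite (CommGroup.torsion B) := CommGroup.finite_of_fg_isMulTorsion _
    (fun g => by
      have := g.2
      obtain ⟨n, hn, hg⟩ := isOfFinOrder_iff_pow_eq_one.1 this
      exact isOfFinOrder_iff_pow_eq_one.2 ⟨n, hn, Subtype.ext hg⟩)
  refine ⟨Nat.card (CommGroup.torsion B), Nat.card_pos, fun b hb => ?_⟩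
  have h4 : (⟨b, hb⟩ : CommGroup.torsion B) ^ Nat.card (CommGroup.torsion B) = 1 :=
    pow_card_eq_one'
  exact congrArg Subtype.val h4

variable {G : Type*} [Group G]


/-- a f.g. virtually abelian group has a verbal subgroup `V = ⟨u^e⟩` which is torsion-free abelian, f.g.
and of finite index -/
theorem va_core {W : Subgroup G} (hfg : W.FG) (h : VA W) :
    ∃ e : ℕ, 0 < e ∧ ∃ V : Subgroup G, V = Subgroup.closure {x : G | ∃ u ∈ W, x = u ^ e} ∧
      V ≤ W ∧ V.FG ∧ (∀ x ∈ V, ∀ y ∈ V, x * y = y * x) ∧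
      (∀ x ∈ V, ∀ n : ℕ, 0 < n → x ^ n = 1 → x = 1) ∧ V.relIndex W ≠ 0 := by
  obtain ⟨A, hAW, hAc, hAi⟩ := h
  have hWfg : Group.FG W := (Group.fg_iff_subgroup_fg W).2 hfg
  let B : Subgroup W := A.subgroupOf W
  have hBi : B.index ≠ 0 := hAi
  have hBfi : B.FiniteIndex := ⟨hBi⟩
  have hBfg : Group.FG B := Subgroup.fg_of_index_ne_zero B
  let cB : CommGroup B :=
    { (inferInstance : Group B) with
      mul_comm := by
        rintro ⟨⟨a, ha⟩, ha'⟩ ⟨⟨b, hb⟩, hb'⟩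
        apply Subtype.ext
        apply Subtype.ext
        exact hAc a ha' b hb' }
  obtain ⟨t, ht, hexp⟩ := vac_exponent B
  let M := B.index.factorial
  have hM : ∀ u : W, u ^ M ∈ B := fun u =>
    Subgroup.pow_mem_of_index_ne_zero_of_dvd hBi u (fun m h1 h2 => Nat.dvd_factorial h1 h2)
  have hMpos : 0 < M := Nat.factorial_pos _
  let j : B →* G := W.subtype.comp B.subtype
  have hj : Function.Injective j := W.subtype_injective.comp B.subtype_injective
  -- the subgroup of `t`-th powers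
  let P : Subgroup B := (powMonoidHom t : B →* B).range
  obtain ⟨V, hV⟩ : ∃ V : Subgroup G, V = Subgroup.closure {x : G | ∃ u ∈ W, x = u ^ (M * t)} :=
    ⟨_, rfl⟩
  have hVP : V ≤ P.map j := by
    rw [hV, Subgroup.closure_le]
    rintro x ⟨u, hu, rfl⟩
    refine ⟨(⟨(⟨u, hu⟩ : W) ^ M, hM _⟩ : B) ^ t, ⟨_, rfl⟩, ?_⟩
    rw [map_pow]
    show (((⟨u, hu⟩ : W) ^ M : W) : G) ^ t = u ^ (M * t)
    rw [pow_mul]
    rfl
  have hPj : P.map j ≤ j.range := Subgroup.map_le_range _ _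
  have hVmap : (V.comap j).map j = V := by
    rw [Subgroup.map_comap_eq, inf_eq_right]
    exact hVP.trans hPj
  refine ⟨M * t, Nat.mul_pos hMpos ht, V, hV, ?_, ?_, ?_, ?_, ?_⟩
  · intro x hx
    obtain ⟨b, -, rfl⟩ := hVP hx
    exact b.1.2
  · classical
    obtain ⟨S, hS⟩ := vac_sub_fg (V.comap j)
    refine ⟨S.image j, ?_⟩
    rw [Finset.coe_image, ← MonoidHom.map_closure, hS, hVmap]
  · intro x hx y hy
    obtain ⟨b, -, rfl⟩ := hVP hx
    obtain ⟨c, -, rfl⟩ := hVP hy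
    rw [← map_mul, ← map_mul, mul_comm]
  · intro x hx n hn hxn
    obtain ⟨b, ⟨c, rfl⟩, rfl⟩ := hVP hx
    rw [← map_pow] at hxn
    have h1 := hj (hxn.trans (map_one j).symm)
    have h2 : c ^ (t * n) = 1 := by
      rw [pow_mul]
      exact h1
    have h3 := hexp c (isOfFinOrder_iff_pow_eq_one.2 ⟨t * n, Nat.mul_pos ht hn, h2⟩)
    have h4 : (powMonoidHom t : B →* B) c = 1 := h3
    rw [h4, map_one]
  · have hQ : (powMonoidHom (M * t) : B →* B).range ≤ V.comap j := by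
      rintro _ ⟨c, rfl⟩
      rw [Subgroup.mem_comap, hV]
      apply Subgroup.subset_closure
      exact ⟨(c.1 : G), c.1.2, rfl⟩
    have h1 : (powMonoidHom (M * t) : B →* B).range.FiniteIndex :=
      Subgroup.finiteIndex_range_powMonoidHom_of_fg B (Nat.mul_pos hMpos ht).ne'
    have h2 : (V.comap j).index ≠ 0 := (Subgroup.finiteIndex_of_le hQ).index_ne_zero
    have h3 : V.comap j = (V.subgroupOf W).subgroupOf B := rfl
    have h4 : V.subgroupOf W ≤ B := by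
      intro x hx
      obtain ⟨b, -, hb⟩ := hVP (Subgroup.mem_subgroupOf.1 hx)
      have : (b : W) = x := Subtype.ext hb
      rw [← this]
      exact b.2
    have h5 := Subgroup.relIndex_mul_index h4
    show (V.subgroupOf W).index ≠ 0
    rw [← h5]
    exact mul_ne_zero (by rw [Subgroup.relIndex, ← h3]; exact h2) hBi


end s2

section s3


variable {G : Type*} [Group G]


theorem pc_aux
    -- `hz` is available (separate lemma): f.g. torsion-free abelian subgroups normalised by g are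
    -- centralised by a positive power of g
    (hz : ∀ (M : Subgroup G), M.FG → (∀ x ∈ M, ∀ y ∈ M, x * y = y * x) →
      (∀ x ∈ M, ∀ n : ℕ, 0 < n → x ^ n = 1 → x = 1) →
      ∀ g : G, (∀ x ∈ M, g * x * g⁻¹ ∈ M) → (∀ x ∈ M, g⁻¹ * x * g ∈ M) →
      ∃ k : ℕ, 0 < k ∧ ∀ x ∈ M, g ^ k * x = x * g ^ k)
    -- `hcore` is available (separate lemma)
    (hcore : ∀ W : Subgroup G, W.FG → VA W →
      ∃ e : ℕ, 0 < e ∧ ∃ V : Subgroup G, V = Subgroup.closure {x : G | ∃ u ∈ W, x = u ^ e} ∧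
      V ≤ W ∧ V.FG ∧ (∀ x ∈ V, ∀ y ∈ V, x * y = y * x) ∧
      (∀ x ∈ V, ∀ n : ℕ, 0 < n → x ^ n = 1 → x = 1) ∧ V.relIndex W ≠ 0)
    {W : Subgroup G} (hfg : W.FG) (h : VA W) (g : G)
    (h1 : ∀ x ∈ W, g * x * g⁻¹ ∈ W) (h2 : ∀ x ∈ W, g⁻¹ * x * g ∈ W) (w : G) (hw : w ∈ W) :
    ∃ m : ℕ, 0 < m ∧ w⁻¹ * g ^ m * w * (g ^ m)⁻¹ ∈ ⁅W, W⁆ := by
  obtain ⟨e, he, V, hV, hVW, hVfg, hVab, hVtf, hVind⟩ := hcore W hfg h
  have hnorm1 : ∀ x ∈ V, g * x * g⁻¹ ∈ V := by
    intro x hx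
    rw [hV] at hx ⊢
    induction hx using Subgroup.closure_induction with
    | mem x hx =>
      obtain ⟨u, hu, rfl⟩ := hx
      apply Subgroup.subset_closure
      exact ⟨g * u * g⁻¹, h1 u hu, by rw [conj_pow]⟩
    | one => simp
    | mul x y _ _ hx hy =>
      have e1 : g * (x * y) * g⁻¹ = (g * x * g⁻¹) * (g * y * g⁻¹) := by group
      rw [e1]; exact Subgroup.mul_mem _ hx hy
    | inv x _ hx =>
      have e1 : g * x⁻¹ * g⁻¹ = (g * x * g⁻¹)⁻¹ := by group
      rw [e1]; exact Subgroup.inv_mem _ hx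
  have hnorm2 : ∀ x ∈ V, g⁻¹ * x * g ∈ V := by
    intro x hx
    rw [hV] at hx ⊢
    induction hx using Subgroup.closure_induction with
    | mem x hx =>
      obtain ⟨u, hu, rfl⟩ := hx
      apply Subgroup.subset_closure
      refine ⟨g⁻¹ * u * g, h2 u hu, ?_⟩
      have := conj_pow (a := g⁻¹) (b := u) (i := e)
      rw [inv_inv] at this
      exact this.symm
    | one => simp
    | mul x y _ _ hx hy =>
      have e1 : g⁻¹ * (x * y) * g = (g⁻¹ * x * g) * (g⁻¹ * y * g) := by group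
      rw [e1]; exact Subgroup.mul_mem _ hx hy
    | inv x _ hx =>
      have e1 : g⁻¹ * x⁻¹ * g = (g⁻¹ * x * g)⁻¹ := by group
      rw [e1]; exact Subgroup.inv_mem _ hx
  obtain ⟨k1, hk1, hcomm⟩ := hz V hVfg hVab hVtf g hnorm1 hnorm2
  set a := g ^ k1 with ha
  have hgW : ∀ n : ℕ, ∀ x ∈ W, g ^ n * x * (g ^ n)⁻¹ ∈ W := by
    intro n
    induction n with
    | zero => intro x hx; simpa using hx
    | succ n ih =>
      intro x hx
      have e1 : g ^ (n + 1) * x * (g ^ (n + 1))⁻¹ = g * (g ^ n * x * (g ^ n)⁻¹) * g⁻¹ := by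
        rw [pow_succ']; group
      rw [e1]
      exact h1 _ (ih x hx)
  have haW : ∀ n : ℕ, a ^ n * w * (a ^ n)⁻¹ ∈ W := by
    intro n
    rw [ha, ← pow_mul]
    exact hgW _ w hw
  have hac : ∀ n : ℕ, ∀ x ∈ V, a ^ n * x * (a ^ n)⁻¹ = x := by
    intro n x hx
    have hc : Commute a x := hcomm x hx
    have hc' : a ^ n * x = x * a ^ n := (hc.pow_left n).eq
    rw [hc']; group
  -- pigeonhole
  have hfin : Finite (W ⧸ (V.subgroupOf W)) := by
    have : (V.subgroupOf W).index ≠ 0 := hVind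
    have hFI : (V.subgroupOf W).FiniteIndex := ⟨this⟩
    exact Subgroup.finite_quotient_of_finiteIndex
  obtain ⟨n1, n2, hne, heq⟩ := Finite.exists_ne_map_eq_of_infinite
    (fun n : ℕ => (QuotientGroup.mk (⟨a ^ n * w * (a ^ n)⁻¹, haW n⟩ : W) : W ⧸ (V.subgroupOf W)))
  have hmem : ∀ n1 n2 : ℕ, (QuotientGroup.mk (⟨a ^ n1 * w * (a ^ n1)⁻¹, haW n1⟩ : W) :
      W ⧸ (V.subgroupOf W)) = QuotientGroup.mk (⟨a ^ n2 * w * (a ^ n2)⁻¹, haW n2⟩ : W) →
      (a ^ n1 * w * (a ^ n1)⁻¹)⁻¹ * (a ^ n2 * w * (a ^ n2)⁻¹) ∈ V := by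
    intro n1 n2 h
    rw [QuotientGroup.eq] at h
    exact h
  have hj : ∃ j : ℕ, 0 < j ∧ w⁻¹ * (a ^ j * w * (a ^ j)⁻¹) ∈ V := by
    have key : ∀ n1 n2 : ℕ, n1 < n2 → (a ^ n1 * w * (a ^ n1)⁻¹)⁻¹ * (a ^ n2 * w * (a ^ n2)⁻¹) ∈ V →
        ∃ j : ℕ, 0 < j ∧ w⁻¹ * (a ^ j * w * (a ^ j)⁻¹) ∈ V := by
      intro n1 n2 hlt hm
      obtain ⟨j, rfl⟩ := Nat.exists_eq_add_of_lt hlt
      refine ⟨j + 1, Nat.succ_pos _, ?_⟩
      have e1 := hac n1 _ hm
      have e2 : w⁻¹ * (a ^ (j + 1) * w * (a ^ (j + 1))⁻¹) =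
          (a ^ n1 * w * (a ^ n1)⁻¹)⁻¹ * (a ^ (n1 + j + 1) * w * (a ^ (n1 + j + 1))⁻¹) := by
        have e3 : a ^ (n1 + j + 1) = a ^ n1 * a ^ (j + 1) := by rw [← pow_add]; rfl
        have e4 : a ^ n1 * (w⁻¹ * (a ^ (j + 1) * w * (a ^ (j + 1))⁻¹)) * (a ^ n1)⁻¹ =
          (a ^ n1 * w * (a ^ n1)⁻¹)⁻¹ * (a ^ (n1 + j + 1) * w * (a ^ (n1 + j + 1))⁻¹) := by
          rw [e3]; group
        have e5 : a ^ n1 * (w⁻¹ * (a ^ (j + 1) * w * (a ^ (j + 1))⁻¹)) * (a ^ n1)⁻¹ =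
          a ^ n1 * ((a ^ n1 * w * (a ^ n1)⁻¹)⁻¹ * (a ^ (n1 + j + 1) * w * (a ^ (n1 + j + 1))⁻¹)) *
            (a ^ n1)⁻¹ := by
          rw [e1, e4]
        exact mul_left_cancel (mul_right_cancel e5)
      rw [e2]
      exact hm
    rcases lt_or_gt_of_ne hne with hlt | hlt
    · exact key n1 n2 hlt (hmem n1 n2 heq)
    · exact key n2 n1 hlt (hmem n2 n1 heq.symm)
  obtain ⟨j, hj0, hv⟩ := hj
  set v := w⁻¹ * (a ^ j * w * (a ^ j)⁻¹) with hvdef
  have hwv : a ^ j * w * (a ^ j)⁻¹ = w * v := by rw [hvdef]; group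
  have hwe : w ^ e ∈ V := by
    rw [hV]
    exact Subgroup.subset_closure ⟨w, hw, rfl⟩
  have hpe : (w * v) ^ e = w ^ e := by
    rw [← hwv, conj_pow]
    exact hac j _ hwe
  have hvW : v ∈ W := hVW hv
  have hab : (Abelianization.of (⟨v, hvW⟩ : W)) ^ e = 1 := by
    have h3 : (Abelianization.of ((⟨w, hw⟩ : W) * ⟨v, hvW⟩)) ^ e = (Abelianization.of (⟨w, hw⟩ : W)) ^ e := by
      rw [← map_pow, ← map_pow]
      congr 1
      apply Subtype.ext
      push_cast
      exact hpe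
    rw [map_mul, mul_pow] at h3
    exact mul_eq_left.1 h3
  have hve : v ^ e ∈ ⁅W, W⁆ := by
    rw [← map_pow, ← MonoidHom.mem_ker, Abelianization.ker_of] at hab
    rw [← Subgroup.map_subtype_commutator]
    exact ⟨_, hab, rfl⟩
  have hind : ∀ n : ℕ, a ^ (j * n) * w * (a ^ (j * n))⁻¹ = w * v ^ n := by
    intro n
    induction n with
    | zero => simp
    | succ n ih =>
      have e1 : a ^ (j * (n + 1)) * w * (a ^ (j * (n + 1)))⁻¹ =
          a ^ j * (a ^ (j * n) * w * (a ^ (j * n))⁻¹) * (a ^ j)⁻¹ := by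
        have : a ^ (j * (n + 1)) = a ^ j * a ^ (j * n) := by rw [← pow_add]; congr 1; ring
        rw [this]; group
      rw [e1, ih]
      have e2 : a ^ j * (w * v ^ n) * (a ^ j)⁻¹ = (a ^ j * w * (a ^ j)⁻¹) * (a ^ j * v ^ n * (a ^ j)⁻¹) := by
        group
      rw [e2, hwv, hac j _ (Subgroup.pow_mem _ hv n), mul_assoc, ← pow_succ']
  refine ⟨k1 * (j * e), by positivity, ?_⟩
  have e1 : g ^ (k1 * (j * e)) = a ^ (j * e) := by rw [ha, ← pow_mul]
  rw [e1]
  have e2 : w⁻¹ * a ^ (j * e) * w * (a ^ (j * e))⁻¹ = w⁻¹ * (a ^ (j * e) * w * (a ^ (j * e))⁻¹) := by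
    group
  rw [e2, hind]
  have e3 : w⁻¹ * (w * v ^ e) = v ^ e := by group
  rw [e3]
  exact hve


end s3

section s4

variable {G : Type*} [Group G]

/-- the PC lemma -/
theorem pc (hI : PropI G) {W : Subgroup G} (hfg : W.FG) (h : VA W) (g : G)
    (h1 : ∀ x ∈ W, g * x * g⁻¹ ∈ W) (h2 : ∀ x ∈ W, g⁻¹ * x * g ∈ W) (w : G) (hw : w ∈ W) :
    ∃ m : ℕ, 0 < m ∧ w⁻¹ * g ^ m * w * (g ^ m)⁻¹ ∈ ⁅W, W⁆ :=
  pc_aux (fun M hM hc ht g h1 h2 => lemmaZ hI M hM hc ht g h1 h2)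
    (fun _ hW hVA => va_core hW hVA) hfg h g h1 h2 w hw

/-- every f.g. subgroup of `K` is virtually abelian -/
def LocVA (K : Subgroup G) : Prop := ∀ W : Subgroup G, W ≤ K → W.FG → VA W

theorem LocVA.mono {K K' : Subgroup G} (h : LocVA K) (hle : K' ≤ K) : LocVA K' :=
  fun W hW hfg => h W (hW.trans hle) hfg

theorem LocVA.fg {K Q Q' : Subgroup G} (h : LocVA K) (hQ : Q.FG) (hQK : Q ≤ K) (hle : Q' ≤ Q) :
    Q'.FG := fg_of_le_va hQ (h Q hQK hQ) hle

end s4

end RatVA
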