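import Mathlib
import Pool.Agent.Helper986.RatVA.VA
import Pool.Agent.Helper986.RatVA.Indep
import Pool.Agent.Helper986.RatVA.Kcl

set_option autoImplicit false

open scoped Pointwise

namespace RatVA

/-! ### derived series of a subgroup -/

section der

variable {G : Type*} [Group G]

/-- derived series of a subgroup -/
def der : ℕ → Subgroup G → Subgroup G
  | 0, K => K
  | n + 1, K => ⁅der n K, der n K⁆

theorem der_mono {K L : Subgroup G} (h : K ≤ L) : ∀ n, der n K ≤ der n L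
  | 0 => h
  | n + 1 => Subgroup.commutator_mono (der_mono h n) (der_mono h n)

theorem comm_le_self (K : Subgroup G) : ⁅K, K⁆ ≤ K := by
  rw [Subgroup.commutator_le]
  intro a ha b hb
  exact K.mul_mem (K.mul_mem (K.mul_mem ha hb) (K.inv_mem ha)) (K.inv_mem hb)

theorem der_succ_le (K : Subgroup G) (n : ℕ) : der (n + 1) K ≤ der n K := comm_le_self _

theorem der_le (K : Subgroup G) : ∀ n, der n K ≤ K
  | 0 => le_refl K
  | n + 1 => (der_succ_le K n).trans (der_le K n)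

theorem der_succ_le_comm (K : Subgroup G) (n : ℕ) : der (n + 1) K ≤ ⁅K, K⁆ :=
  Subgroup.commutator_mono (der_le K n) (der_le K n)

theorem der_comm (K : Subgroup G) : ∀ n, der n ⁅K, K⁆ = der (n + 1) K
  | 0 => rfl
  | n + 1 => by
    show ⁅der n ⁅K, K⁆, der n ⁅K, K⁆⁆ = ⁅der (n + 1) K, der (n + 1) K⁆
    rw [der_comm K n]

theorem der_conj {K : Subgroup G} {g : G} (h : ∀ x ∈ K, g * x * g⁻¹ ∈ K) :
    ∀ n, ∀ x ∈ der n K, g * x * g⁻¹ ∈ der n K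
  | 0, x, hx => h x hx
  | n + 1, x, hx => by
    have h1 : (der n K).map (MulAut.conj g).toMonoidHom ≤ der n K := by
      rintro _ ⟨z, hz, rfl⟩
      exact der_conj h n z hz
    have h2 : (der (n + 1) K).map (MulAut.conj g).toMonoidHom ≤ der (n + 1) K := by
      show Subgroup.map _ ⁅der n K, der n K⁆ ≤ ⁅der n K, der n K⁆
      rw [Subgroup.map_commutator]
      exact Subgroup.commutator_mono h1 h1
    exact h2 ⟨x, hx, rfl⟩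

end der

/-! ### Configurations -/

/-- `K` is normalised by `g`, meets `⟨g⟩` trivially, `ψ` is a hom `K → A` compatible with `t` -/
structure Cfg (G A : Type*) [Group G] [AddCommGroup A] where
  g : G
  K : Subgroup G
  ψ : G → A
  t : ℤ → A →+ A
  t0 : ∀ a, t 0 a = a
  tadd : ∀ i j a, t (i + j) a = t i (t j a)
  conj : ∀ (i : ℤ) (x : G), x ∈ K → g ^ i * x * (g ^ i)⁻¹ ∈ K
  mul : ∀ x ∈ K, ∀ y ∈ K, ψ (x * y) = ψ x + ψ y
  tw : ∀ (i : ℤ) (x : G), x ∈ K → ψ (g ^ i * x * (g ^ i)⁻¹) = t i (ψ x)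
  nop : ∀ k : ℤ, g ^ k ∈ K → k = 0

section cfg

variable {G A : Type*} [Group G] [AddCommGroup A] (c : Cfg G A)

theorem Cfg.one : c.ψ 1 = 0 := by
  have := c.mul 1 c.K.one_mem 1 c.K.one_mem
  rw [mul_one] at this
  exact left_eq_add.1 this

theorem Cfg.inv {x : G} (hx : x ∈ c.K) : c.ψ x⁻¹ = - c.ψ x := by
  have := c.mul x hx x⁻¹ (c.K.inv_mem hx)
  rw [mul_inv_cancel, c.one] at this
  exact (neg_eq_of_add_eq_zero_right this.symm).symm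

/-- crossed value of an element of `⟨K, g⟩` -/
def Cfg.Rel (h : G) (s : ℤ) (u : ℤ →₀ A) : Prop :=
  ∃ κ ∈ c.K, h = κ * c.g ^ s ∧ c.ψ κ = evl c.t u

variable {c}

theorem Cfg.Rel.mul {h h' : G} {s s' : ℤ} {u u' : ℤ →₀ A} (H : c.Rel h s u) (H' : c.Rel h' s' u') :
    c.Rel (h * h') (s + s') (u + shf s u') := by
  obtain ⟨κ, hκ, rfl, e⟩ := H
  obtain ⟨κ', hκ', rfl, e'⟩ := H'
  refine ⟨κ * (c.g ^ s * κ' * (c.g ^ s)⁻¹), c.K.mul_mem hκ (c.conj s κ' hκ'), ?_, ?_⟩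
  · rw [zpow_add]; group
  · rw [c.mul _ hκ _ (c.conj s κ' hκ'), c.tw s κ' hκ', map_add, evl_shf c.t c.tadd, e, e']

theorem Cfg.Rel.inv {h : G} {s : ℤ} {u : ℤ →₀ A} (H : c.Rel h s u) :
    c.Rel h⁻¹ (-s) (-(shf (-s) u)) := by
  obtain ⟨κ, hκ, rfl, e⟩ := H
  refine ⟨c.g ^ (-s) * κ⁻¹ * (c.g ^ (-s))⁻¹, c.conj (-s) κ⁻¹ (c.K.inv_mem hκ), ?_, ?_⟩
  · group
  · rw [c.tw (-s) _ (c.K.inv_mem hκ), c.inv hκ, map_neg, map_neg, evl_shf c.t c.tadd, e]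

theorem Cfg.Rel.uniq {h : G} {s s' : ℤ} {u u' : ℤ →₀ A} (H : c.Rel h s u) (H' : c.Rel h s' u') :
    s = s' ∧ evl c.t u = evl c.t u' := by
  obtain ⟨κ, hκ, e1, e⟩ := H
  obtain ⟨κ', hκ', e1', e'⟩ := H'
  have h1 : c.g ^ (s' - s) ∈ c.K := by
    have : c.g ^ (s' - s) = κ'⁻¹ * κ := by
      have h2 : κ * c.g ^ s = κ' * c.g ^ s' := e1.symm.trans e1'
      have h3 : κ = κ' * c.g ^ s' * (c.g ^ s)⁻¹ := by rw [← h2]; group
      rw [h3, zpow_sub]; group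
    rw [this]
    exact c.K.mul_mem (c.K.inv_mem hκ') hκ
  have h2 := c.nop _ h1
  have h3 : s = s' := by omega
  subst h3
  refine ⟨rfl, ?_⟩
  have h4 : κ = κ' := by
    have : κ * c.g ^ s = κ' * c.g ^ s := e1.symm.trans e1'
    exact mul_right_cancel this
  rw [← e, ← e', h4]

theorem Cfg.Rel.mem {h : G} {u : ℤ →₀ A} (H : c.Rel h 0 u) : h ∈ c.K := by
  obtain ⟨κ, hκ, e1, e⟩ := H
  rw [e1, zpow_zero, mul_one]; exact hκ

theorem Cfg.Rel.gpow (s : ℤ) : c.Rel (c.g ^ s) s 0 :=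
  ⟨1, c.K.one_mem, by simp, by rw [c.one, map_zero]⟩

theorem Cfg.Rel.single {x : G} (hx : x ∈ c.K) : c.Rel x 0 (Finsupp.single 0 (c.ψ x)) :=
  ⟨x, hx, by simp, by rw [evl_single, c.t0]⟩

theorem Cfg.Rel.zero {x : G} (hx : x ∈ c.K) (h : c.ψ x = 0) : c.Rel x 0 0 :=
  ⟨x, hx, by simp, by rw [h, map_zero]⟩

theorem Cfg.Rel.conj {x : G} (hx : x ∈ c.K) (i : ℤ) :
    c.Rel (c.g ^ i * x * (c.g ^ i)⁻¹) 0 (Finsupp.single i (c.ψ x)) :=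
  ⟨_, c.conj i x hx, by simp, by rw [evl_single, c.tw i x hx]⟩

/-! ### Words -/

/-- powers of `g ^ b` -/
def Zb (g : G) (b : ℕ) : Set G := {x | ∃ n : ℤ, x = g ^ ((b : ℤ) * n)}

theorem Zb_eq (g : G) (b : ℕ) : Zb g b = (Subgroup.zpowers (g ^ b) : Set G) := by
  ext x
  simp only [Zb, Set.mem_ofPred_eq, SetLike.mem_coe, Subgroup.mem_zpowers_iff]
  constructor
  · rintro ⟨n, rfl⟩
    exact ⟨n, by rw [zpow_mul, zpow_natCast]⟩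
  · rintro ⟨n, rfl⟩
    exact ⟨n, by rw [zpow_mul, zpow_natCast]⟩

theorem Zb_rat (g : G) (b : ℕ) : IsRat (Zb g b) := by
  rw [Zb_eq]; exact IsRat.zpowers _

theorem Zb_one (g : G) (b : ℕ) : (1 : G) ∈ Zb g b := ⟨0, by simp⟩

theorem Zb_mul {g : G} {b : ℕ} {x y : G} (hx : x ∈ Zb g b) (hy : y ∈ Zb g b) : x * y ∈ Zb g b := by
  rw [Zb_eq] at *; exact mul_mem hx hy

theorem Zb_inv {g : G} {b : ℕ} {x : G} (hx : x ∈ Zb g b) : x⁻¹ ∈ Zb g b := by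
  rw [Zb_eq] at *; exact inv_mem hx

/-- products of at most `s` elements of `F'` interspersed by powers of `g ^ b` -/
def Wd (g : G) (F' : Set G) (b : ℕ) : ℕ → Set G
  | 0 => Zb g b
  | s + 1 => Wd g F' b s * F' * Zb g b

theorem Wd_rat (g : G) {F' : Set G} (hF : F'.Finite) (b : ℕ) : ∀ s, IsRat (Wd g F' b s)
  | 0 => Zb_rat g b
  | s + 1 => ((Wd_rat g hF b s).mul (IsRat.of_finite hF)).mul (Zb_rat g b)

theorem Wd_mul_Zb {g : G} {F' : Set G} {b : ℕ} {x z : G} (hz : z ∈ Zb g b) :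
    ∀ {s : ℕ}, x ∈ Wd g F' b s → x * z ∈ Wd g F' b s
  | 0, hx => Zb_mul hx hz
  | s + 1, hx => by
    obtain ⟨p, hp, q, hq, rfl⟩ := hx
    exact ⟨p, hp, q * z, Zb_mul hq hz, by simp only [mul_assoc]⟩

theorem Wd_mul {g : G} {F' : Set G} {b : ℕ} {s : ℕ} {x : G} (hx : x ∈ Wd g F' b s) :
    ∀ (s' : ℕ) {y : G}, y ∈ Wd g F' b s' → x * y ∈ Wd g F' b (s + s')
  | 0, y, hy => Wd_mul_Zb hy hx
  | s' + 1, y, hy => by
    obtain ⟨p, ⟨p', hp', f, hf, rfl⟩, q, hq, rfl⟩ := hy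
    exact ⟨x * p' * f, ⟨x * p', Wd_mul hx s' hp', f, hf, rfl⟩, q, hq, by simp only [mul_assoc]⟩

theorem Wd_one' {g : G} {F' : Set G} {b : ℕ} {x : G} (hx : x ∈ F') : x ∈ Wd g F' b 1 :=
  ⟨1 * x, ⟨1, Zb_one g b, x, hx, rfl⟩, 1, Zb_one g b, by simp⟩

theorem Wd_inv {g : G} {F' : Set G} (hinv : ∀ x ∈ F', x⁻¹ ∈ F') {b : ℕ} :
    ∀ (s : ℕ) {x : G}, x ∈ Wd g F' b s → x⁻¹ ∈ Wd g F' b s
  | 0, x, hx => Zb_inv hx
  | s + 1, x, hx => by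
    obtain ⟨p, ⟨p', hp', f, hf, rfl⟩, q, hq, rfl⟩ := hx
    have h1 : q⁻¹ ∈ Wd g F' b 0 := Zb_inv hq
    have h2 : f⁻¹ ∈ Wd g F' b 1 := Wd_one' (hinv f hf)
    have h3 := Wd_mul (Wd_mul h1 1 h2) s (Wd_inv hinv s hp')
    have e : (p' * f * q)⁻¹ = q⁻¹ * f⁻¹ * p'⁻¹ := by group
    show (p' * f * q)⁻¹ ∈ Wd g F' b (s + 1)
    rw [e]
    have e2 : 0 + 1 + s = s + 1 := by omega
    rwa [e2] at h3

theorem Wd_dvd {g : G} {F' : Set G} {b b' : ℕ} (h : b ∣ b') :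
    ∀ (s : ℕ) {x : G}, x ∈ Wd g F' b' s → x ∈ Wd g F' b s
  | 0, x, hx => by
    obtain ⟨n, rfl⟩ := hx
    obtain ⟨d, rfl⟩ := h
    exact ⟨d * n, by push_cast; rw [mul_assoc]⟩
  | s + 1, x, hx => by
    obtain ⟨p, ⟨p', hp', f, hf, rfl⟩, q, hq, rfl⟩ := hx
    exact ⟨p' * f, ⟨p', Wd_dvd h s hp', f, hf, rfl⟩, q, Wd_dvd (F' := F') h 0 hq, rfl⟩

theorem Wd_rel {F' : Set G} (hFK : F' ⊆ c.K) (h1 : (1 : G) ∈ F') {b : ℕ} :
    ∀ (s : ℕ) {x : G}, x ∈ Wd c.g F' b s →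
      ∃ (σ : ℤ) (u : ℤ →₀ A), (b : ℤ) ∣ σ ∧ Bd (c.ψ '' F') b s u ∧ c.Rel x σ u
  | 0, x, hx => by
    obtain ⟨n, rfl⟩ := hx
    exact ⟨(b : ℤ) * n, 0, dvd_mul_right _ _, Bd.zero _, Cfg.Rel.gpow _⟩
  | s + 1, x, hx => by
    obtain ⟨p, ⟨p', hp', f, hf, rfl⟩, q, ⟨n, rfl⟩, rfl⟩ := hx
    obtain ⟨σ, u, hσ, hu, hr⟩ := Wd_rel hFK h1 s hp'
    refine ⟨σ + (b : ℤ) * n, u + shf σ (Finsupp.single 0 (c.ψ f)), dvd_add hσ (dvd_mul_right _ _), ?_, ?_⟩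
    · apply hu.add
      have h0 : (0 : A) ∈ c.ψ '' F' := ⟨1, h1, c.one⟩
      have h3 : c.ψ f ∈ c.ψ '' F' := ⟨f, hf, rfl⟩
      exact (Bd.single h0 (dvd_zero _) h3).shf hσ
    · have h2 := (hr.mul (Cfg.Rel.single (hFK hf))).mul (Cfg.Rel.gpow (c := c) ((b : ℤ) * n))
      simpa using h2

/-! ### Parity argument -/

theorem par_val {β : ℕ} (hβ : 0 < β) {v : ℤ →₀ A} (hv : ∀ j, v j ≠ 0 → (2 * (β : ℤ)) ∣ j)
    {m : ℤ} (hm : (2 * (β : ℤ)) ∣ m) : v (β + m) = 0 := by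
  by_contra h
  have h1 := hv _ h
  have h2 : (2 * (β : ℤ)) ∣ β := (Int.dvd_add_left hm).1 h1
  have h3 := Int.le_of_dvd (by omega) h2
  omega

theorem sg_same (i : ℤ) (a : A) : (Finsupp.single i a : ℤ →₀ A) i = a := Finsupp.single_eq_same

theorem sg_ne {i j : ℤ} (h : j ≠ i) (a : A) : (Finsupp.single i a : ℤ →₀ A) j = 0 :=
  Finsupp.single_eq_of_ne h

/-- four odd terms -/
theorem comb1 (P : ℤ → AddSubgroup A) {β : ℕ} (hβ : 0 < β) {y : A} (hy : ¬ ∀ n, y ∈ P n)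
    {v : ℤ →₀ A} (hv : ∀ j, v j ≠ 0 → (2 * (β : ℤ)) ∣ j) {σ σ' i k : ℤ}
    (hσ : (2 * (β : ℤ)) ∣ σ) (hi : 0 < i) (hk : 0 < k)
    (he : σ = i + σ' - k)
    (hu : ∀ j n, (Finsupp.single (β : ℤ) y - Finsupp.single ((β : ℤ) + σ) y
      - Finsupp.single ((β : ℤ) + i) y + Finsupp.single ((β : ℤ) + σ' + i) y + v) j ∈ P n) :
    σ = 0 := by
  by_contra hne
  by_cases h2 : i + σ' = 0
  · -- coefficient at `β + σ`
    apply hy
    intro n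
    have h3 := hu ((β : ℤ) + σ) n
    rw [Finsupp.add_apply, Finsupp.add_apply, Finsupp.sub_apply, Finsupp.sub_apply,
      par_val hβ hv hσ, sg_same, sg_ne (by omega), sg_ne (by omega), sg_ne (by omega)] at h3
    have h4 := (P n).neg_mem h3
    simpa using h4
  · apply hy
    intro n
    have h3 := hu (β : ℤ) n
    have h5 : v (β : ℤ) = 0 := by
      have := par_val hβ hv (dvd_zero _)
      simpa using this
    rw [Finsupp.add_apply, Finsupp.add_apply, Finsupp.sub_apply, Finsupp.sub_apply,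
      h5, sg_same, sg_ne (by omega), sg_ne (by omega), sg_ne (by omega)] at h3
    simpa using h3

/-- two odd terms -/
theorem comb2 (P : ℤ → AddSubgroup A) {β : ℕ} (hβ : 0 < β) {y : A} (hy : ¬ ∀ n, y ∈ P n)
    {v : ℤ →₀ A} (hv : ∀ j, v j ≠ 0 → (2 * (β : ℤ)) ∣ j) {σ : ℤ}
    (hu : ∀ j n, (Finsupp.single (β : ℤ) y - Finsupp.single ((β : ℤ) + σ) y + v) j ∈ P n) :
    σ = 0 := by
  by_contra hne
  apply hy
  intro n
  have h3 := hu (β : ℤ) n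
  have h5 : v (β : ℤ) = 0 := by
    have := par_val hβ hv (dvd_zero _)
    simpa using this
  rw [Finsupp.add_apply, Finsupp.sub_apply, h5, sg_same, sg_ne (by omega)] at h3
  simpa using h3

/-- The relation attached to `α w α⁻¹`, `α = g^β y g^{-β}`. -/
theorem rel_conj {β : ℤ} {y : G} (hy : y ∈ c.K) {w : G} {σ : ℤ} {v : ℤ →₀ A} (hw : c.Rel w σ v) :
    c.Rel ((c.g ^ β * y * (c.g ^ β)⁻¹) * w * (c.g ^ β * y * (c.g ^ β)⁻¹)⁻¹) σ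
      (Finsupp.single β (c.ψ y) - Finsupp.single (β + σ) (c.ψ y) + v) := by
  have h1 := Cfg.Rel.conj (c := c) hy β
  have h2 := (h1.mul hw).mul h1.inv
  have e : shf (0 : ℤ) v = v := by
    ext j; rw [shf_apply, sub_zero]
  have e1 : (Finsupp.single β (c.ψ y) + shf 0 v + shf (0 + σ) (-(shf (-0) (Finsupp.single β (c.ψ y)))))
      = Finsupp.single β (c.ψ y) - Finsupp.single (β + σ) (c.ψ y) + v := by
    rw [e, map_neg, shf_single, shf_single]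
    simp only [neg_zero, add_zero, zero_add]
    abel
  rw [e1] at h2
  simpa using h2

end cfg

/-! ### The filtration -/

/-- A configuration with a filtration -/
structure Fil (G A : Type*) [Group G] [AddCommGroup A] extends Cfg G A where
  P : ℤ → AddSubgroup A
  mono : Monotone P
  tP : ∀ (i n : ℤ) (a : A), a ∈ P n → (t i) a ∈ P (n + i)
  U : ∀ a : A, ∃ n, a ∈ P n

section fil

variable {G A : Type*} [Group G] [AddCommGroup A] (c : Fil G A)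

/-- first key lemma -/
theorem key1 {F' : Set G} (hF : F'.Finite) (hFK : F' ⊆ c.K) (h1 : (1 : G) ∈ F')
    (hinv : ∀ x ∈ F', x⁻¹ ∈ F') {y : G} (hyF : y ∈ F') (hy : ¬ ∀ n, c.ψ y ∈ c.P n) (s : ℕ) :
    ∃ b0 : ℕ, ∀ β : ℕ, b0 ≤ β → 0 < β → ∀ w ∈ Wd c.g F' (2 * β) s, ∀ w' ∈ Wd c.g F' (2 * β) s,
      ∀ i k : ℕ, 0 < i → 0 < k → ∀ z ∈ c.K, c.ψ z = 0 →
      (c.g ^ (β : ℤ) * y * (c.g ^ (β : ℤ))⁻¹) * w * (c.g ^ (β : ℤ) * y * (c.g ^ (β : ℤ))⁻¹)⁻¹ =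
        c.g ^ ((2 * β * i : ℕ) : ℤ) * ((c.g ^ (β : ℤ) * y * (c.g ^ (β : ℤ))⁻¹) * w' *
          (c.g ^ (β : ℤ) * y * (c.g ^ (β : ℤ))⁻¹)⁻¹) * c.g ^ (-((2 * β * k : ℕ) : ℤ)) * z →
      (c.g ^ (β : ℤ) * y * (c.g ^ (β : ℤ))⁻¹) * w * (c.g ^ (β : ℤ) * y * (c.g ^ (β : ℤ))⁻¹)⁻¹
        ∈ c.K := by
  have h0 : (0 : A) ∈ c.ψ '' F' := ⟨1, h1, c.one⟩
  have hneg : ∀ a ∈ c.ψ '' F', -a ∈ c.ψ '' F' := by
    rintro _ ⟨x, hx, rfl⟩
    exact ⟨x⁻¹, hinv x hx, c.inv (hFK hx)⟩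
  have hyV : c.ψ y ∈ c.ψ '' F' := ⟨y, hyF, rfl⟩
  obtain ⟨b0, hb0⟩ := indepP c.t c.t0 c.tadd c.P c.mono c.tP c.U
    (nF (c.ψ '' F') (2 * s + 4)) (nF_finite (hF.image _) _)
  refine ⟨b0, fun β hβ hβ0 w hw w' hw' i k hi hk z hz hz0 heq => ?_⟩
  obtain ⟨σ, v, hσ, hv, hr⟩ := Wd_rel hFK h1 s hw
  obtain ⟨σ', v', hσ', hv', hr'⟩ := Wd_rel hFK h1 s hw'
  push_cast at hσ hσ'
  have hy' : y ∈ c.K := hFK hyF
  have H1 := rel_conj (β := (β : ℤ)) hy' hr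
  have H2 := rel_conj (β := (β : ℤ)) hy' hr'
  have H3 := (((Cfg.Rel.gpow (c := c.toCfg) ((2 * β * i : ℕ) : ℤ)).mul H2).mul
    (Cfg.Rel.gpow (c := c.toCfg) (-((2 * β * k : ℕ) : ℤ)))).mul (Cfg.Rel.zero hz hz0)
  rw [← heq] at H3
  obtain ⟨hs, hev⟩ := H1.uniq H3
  simp only [map_zero, add_zero, zero_add] at hs hev
  have hbeta0 : (0 : ℤ) < β := by exact_mod_cast hβ0
  have hi' : (0 : ℤ) < ((2 * β * i : ℕ) : ℤ) := by positivity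
  have hk' : (0 : ℤ) < ((2 * β * k : ℕ) : ℤ) := by positivity
  set I : ℤ := ((2 * β * i : ℕ) : ℤ) with hI
  set Kk : ℤ := ((2 * β * k : ℕ) : ℤ) with hKk
  have hdI : (2 * (β : ℤ)) ∣ I := by rw [hI]; push_cast; exact dvd_mul_right _ _
  have hdK : (2 * (β : ℤ)) ∣ Kk := by rw [hKk]; push_cast; exact dvd_mul_right _ _
  have hdvd2 : (β : ℤ) ∣ 2 * (β : ℤ) := dvd_mul_left _ _
  push_cast at hv hv'
  -- the difference
  have hdiff : evl c.t (Finsupp.single (β : ℤ) (c.ψ y) - Finsupp.single ((β : ℤ) + σ) (c.ψ y)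
      - Finsupp.single ((β : ℤ) + I) (c.ψ y) + Finsupp.single ((β : ℤ) + σ' + I) (c.ψ y)
      + (v - shf I v')) = 0 := by
    have e : (Finsupp.single (β : ℤ) (c.ψ y) - Finsupp.single ((β : ℤ) + σ) (c.ψ y)
      - Finsupp.single ((β : ℤ) + I) (c.ψ y) + Finsupp.single ((β : ℤ) + σ' + I) (c.ψ y)
      + (v - shf I v')) = (Finsupp.single (β : ℤ) (c.ψ y) - Finsupp.single ((β : ℤ) + σ) (c.ψ y) + v)
       - shf I (Finsupp.single (β : ℤ) (c.ψ y) - Finsupp.single ((β : ℤ) + σ') (c.ψ y) + v') := by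
      rw [map_add, map_sub, shf_single, shf_single]
      abel
    rw [e, map_sub, hev, sub_self]
  have hvI : Bd (c.ψ '' F') (2 * (β : ℤ)) (s + s) (v - shf I v') := by
    rw [sub_eq_add_neg]
    exact hv.add ((hv'.shf hdI).neg hneg)
  have hbd : Bd (c.ψ '' F') (β : ℤ) (1 + 1 + 1 + 1 + (s + s))
      (Finsupp.single (β : ℤ) (c.ψ y) - Finsupp.single ((β : ℤ) + σ) (c.ψ y)
      - Finsupp.single ((β : ℤ) + I) (c.ψ y) + Finsupp.single ((β : ℤ) + σ' + I) (c.ψ y)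
      + (v - shf I v')) := by
    have d0 : (β : ℤ) ∣ (β : ℤ) := dvd_refl _
    have dσ : (β : ℤ) ∣ σ := hdvd2.trans hσ
    have dσ' : (β : ℤ) ∣ σ' := hdvd2.trans hσ'
    have dI : (β : ℤ) ∣ I := hdvd2.trans hdI
    apply Bd.add _ (hvI.dvd hdvd2)
    apply Bd.add _ (Bd.single h0 (dvd_add (dvd_add d0 dσ') dI) hyV)
    rw [sub_eq_add_neg, sub_eq_add_neg]
    apply Bd.add _ ((Bd.single h0 (dvd_add d0 dI) hyV).neg hneg)
    exact (Bd.single h0 d0 hyV).add ((Bd.single h0 (dvd_add d0 dσ) hyV).neg hneg)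
  have hfin := hb0 β hβ _ hbd.1 (fun j => by
      have := hbd.2 j
      have e : 1 + 1 + 1 + 1 + (s + s) = 2 * s + 4 := by ring
      rwa [e] at this)
    (fun n => by rw [hdiff]; exact (c.P n).zero_mem)
  have hs0 : σ = 0 := by
    apply comb1 c.P hβ0 hy (v := v - shf I v') _ hσ hi' hk' _ hfin
    · intro j hj
      exact hvI.1 j hj
    · omega
  rw [hs0] at H1
  exact H1.mem

/-- second key lemma -/
theorem key2 {F' : Set G} (hF : F'.Finite) (hFK : F' ⊆ c.K) (h1 : (1 : G) ∈ F')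
    (hinv : ∀ x ∈ F', x⁻¹ ∈ F') {y : G} (hyF : y ∈ F') (hy : ¬ ∀ n, c.ψ y ∈ c.P n) :
    ∃ b0 : ℕ, ∀ β : ℕ, b0 ≤ β → 0 < β → ∀ w ∈ Wd c.g F' (2 * β) 1, ∀ w' ∈ Wd c.g F' (2 * β) 1,
      ∀ z ∈ c.K, c.ψ z = 0 →
      (c.g ^ (β : ℤ) * y * (c.g ^ (β : ℤ))⁻¹) * w * (c.g ^ (β : ℤ) * y * (c.g ^ (β : ℤ))⁻¹)⁻¹ =
        w' * z →
      (c.g ^ (β : ℤ) * y * (c.g ^ (β : ℤ))⁻¹) * w * (c.g ^ (β : ℤ) * y * (c.g ^ (β : ℤ))⁻¹)⁻¹
        ∈ c.K := by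
  have h0 : (0 : A) ∈ c.ψ '' F' := ⟨1, h1, c.one⟩
  have hneg : ∀ a ∈ c.ψ '' F', -a ∈ c.ψ '' F' := by
    rintro _ ⟨x, hx, rfl⟩
    exact ⟨x⁻¹, hinv x hx, c.inv (hFK hx)⟩
  have hyV : c.ψ y ∈ c.ψ '' F' := ⟨y, hyF, rfl⟩
  obtain ⟨b0, hb0⟩ := indepP c.t c.t0 c.tadd c.P c.mono c.tP c.U
    (nF (c.ψ '' F') 4) (nF_finite (hF.image _) _)
  refine ⟨b0, fun β hβ hβ0 w hw w' hw' z hz hz0 heq => ?_⟩
  obtain ⟨σ, v, hσ, hv, hr⟩ := Wd_rel hFK h1 1 hw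
  obtain ⟨σ', v', hσ', hv', hr'⟩ := Wd_rel hFK h1 1 hw'
  push_cast at hσ hσ' hv hv'
  have hy' : y ∈ c.K := hFK hyF
  have H1 := rel_conj (β := (β : ℤ)) hy' hr
  have H3 := hr'.mul (Cfg.Rel.zero hz hz0)
  rw [← heq] at H3
  obtain ⟨hs, hev⟩ := H1.uniq H3
  simp only [map_zero, add_zero] at hs hev
  have hdvd2 : (β : ℤ) ∣ 2 * (β : ℤ) := dvd_mul_left _ _
  have hdiff : evl c.t (Finsupp.single (β : ℤ) (c.ψ y) - Finsupp.single ((β : ℤ) + σ) (c.ψ y)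
      + (v - v')) = 0 := by
    have e : (Finsupp.single (β : ℤ) (c.ψ y) - Finsupp.single ((β : ℤ) + σ) (c.ψ y)
      + (v - v')) = (Finsupp.single (β : ℤ) (c.ψ y) - Finsupp.single ((β : ℤ) + σ) (c.ψ y) + v)
       - v' := by
      abel
    rw [e, map_sub, hev, sub_self]
  have hvI : Bd (c.ψ '' F') (2 * (β : ℤ)) (1 + 1) (v - v') := by
    rw [sub_eq_add_neg]
    exact hv.add (hv'.neg hneg)
  have hbd : Bd (c.ψ '' F') (β : ℤ) (1 + 1 + (1 + 1))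
      (Finsupp.single (β : ℤ) (c.ψ y) - Finsupp.single ((β : ℤ) + σ) (c.ψ y)
      + (v - v')) := by
    have d0 : (β : ℤ) ∣ (β : ℤ) := dvd_refl _
    have dσ : (β : ℤ) ∣ σ := hdvd2.trans hσ
    apply Bd.add _ (hvI.dvd hdvd2)
    rw [sub_eq_add_neg]
    exact (Bd.single h0 d0 hyV).add ((Bd.single h0 (dvd_add d0 dσ) hyV).neg hneg)
  have hfin := hb0 β hβ _ hbd.1 (fun j => hbd.2 j)
    (fun n => by rw [hdiff]; exact (c.P n).zero_mem)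
  have hs0 : σ = 0 := by
    apply comb2 c.P hβ0 hy (v := v - v') _ hfin
    intro j hj
    exact hvI.1 j hj
  rw [hs0] at H1
  exact H1.mem

end fil

end RatVA
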