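import Mathlib
import Pool.Agent.Helper986.RatVA.Core

set_option autoImplicit false

open scoped Pointwise

namespace RatVA

variable {G A : Type*} [Group G] [AddCommGroup A] (c : Fil G A)

/-- positive powers -/
theorem pos_rat (g : G) : IsRat {x : G | ∃ i : ℕ, 0 < i ∧ x = g ^ i} := by
  have : {x : G | ∃ i : ℕ, 0 < i ∧ x = g ^ i} = {g} * (Submonoid.powers g : Set G) := by
    ext x
    simp only [Set.mem_ofPred_eq, Set.mem_mul, Set.mem_singleton_iff, SetLike.mem_coe,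
      Submonoid.mem_powers_iff, exists_eq_left]
    constructor
    · rintro ⟨i, hi, rfl⟩
      refine ⟨g ^ (i - 1), ⟨i - 1, rfl⟩, ?_⟩
      rw [← pow_succ']
      congr 1
      omega
    · rintro ⟨_, ⟨n, rfl⟩, rfl⟩
      exact ⟨n + 1, by omega, by rw [pow_succ']⟩
  rw [this]
  exact (IsRat.single g).mul (IsRat.powers g)

theorem neg_rat (g : G) : IsRat {x : G | ∃ i : ℕ, 0 < i ∧ x = (g ^ i)⁻¹} := by
  have := (pos_rat g).inv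
  have e : {x : G | ∃ i : ℕ, 0 < i ∧ x = g ^ i}⁻¹ = {x : G | ∃ i : ℕ, 0 < i ∧ x = (g ^ i)⁻¹} := by
    ext x
    simp only [Set.mem_inv, Set.mem_ofPred_eq]
    constructor
    · rintro ⟨i, hi, h⟩
      exact ⟨i, hi, by rw [← h, inv_inv]⟩
    · rintro ⟨i, hi, h⟩
      exact ⟨i, hi, by rw [h, inv_inv]⟩
  rwa [e] at this

/-- The statement `St j` -/
def St (F' : Set G) (j : ℕ) : Prop :=
  ∀ s : ℕ, ∃ b : ℕ, 0 < b ∧ ∃ Q : Subgroup G, Q.FG ∧ Q ≤ c.K ∧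
    ∀ w ∈ Wd c.g F' b s, w ∈ der j c.K → w ∈ Q

theorem K_conj1 (c : Cfg G A) : ∀ x ∈ c.K, c.g * x * c.g⁻¹ ∈ c.K := by
  intro x hx
  have := c.conj 1 x hx
  simpa using this

theorem K_conj2 (c : Cfg G A) : ∀ x ∈ c.K, c.g⁻¹ * x * c.g ∈ c.K := by
  intro x hx
  have := c.conj (-1) x hx
  simpa using this

theorem st_step (hI : PropI G) {F' : Set G} (hF : F'.Finite) (hFK : F' ⊆ c.K) (h1 : (1 : G) ∈ F')
    (hinv : ∀ x ∈ F', x⁻¹ ∈ F') {y : G} (hyF : y ∈ F') (hy : ¬ ∀ n, c.ψ y ∈ c.P n)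
    (hloc : LocVA c.K) (hψ0 : ∀ x ∈ (⁅c.K, c.K⁆ : Subgroup G), c.ψ x = 0)
    (IH : ∀ x ∈ (⁅c.K, c.K⁆ : Subgroup G), (Kcl c.g {x}).FG)
    (j : ℕ) (hst : St c F' (j + 2)) : St c F' (j + 1) := by
  intro s
  obtain ⟨b1, hb1, Q1, hQ1fg, hQ1K, hQ1⟩ := hst (2 * s + 4)
  obtain ⟨b0, hb0⟩ := key1 c hF hFK h1 hinv hyF hy s
  set β : ℕ := b1 * (b0 + 1) with hβ
  have hβ0 : 0 < β := Nat.mul_pos hb1 (Nat.succ_pos _)
  have hβb0 : b0 ≤ β := by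
    calc b0 ≤ b0 + 1 := Nat.le_succ _
      _ = 1 * (b0 + 1) := (one_mul _).symm
      _ ≤ b1 * (b0 + 1) := Nat.mul_le_mul_right _ hb1
  have hb1β : b1 ∣ β := dvd_mul_right _ _
  set α : G := c.g ^ (β : ℤ) * y * (c.g ^ (β : ℤ))⁻¹ with hα
  have hαK : α ∈ c.K := c.conj _ _ (hFK hyF)
  -- the f.g. group C
  set C : Subgroup G := Q1 ⊓ der (j + 2) c.K with hC
  have hCfg : C.FG := hloc.fg hQ1fg hQ1K inf_le_left
  have hCK : C ≤ c.K := inf_le_left.trans hQ1K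
  -- the rational sets
  set X0 : Set G := {α} * Wd c.g F' (2 * β) s * {α⁻¹} with hX0
  set Y : Set G := {x : G | ∃ i : ℕ, 0 < i ∧ x = (c.g ^ (2 * β)) ^ i} * X0 *
    {x : G | ∃ i : ℕ, 0 < i ∧ x = ((c.g ^ (2 * β)) ^ i)⁻¹} * (C : Set G) with hY
  have hX0rat : IsRat X0 := ((IsRat.single _).mul (Wd_rat c.g hF _ s)).mul (IsRat.single _)
  have hYrat : IsRat Y := (((pos_rat _).mul hX0rat).mul (neg_rat _)).mul (IsRat.of_fg hCfg)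
  have hsub : X0 ∩ Y ⊆ (c.K : Set G) := by
    rintro h ⟨⟨p, ⟨a1, ha1, w, hw, rfl⟩, a2, ha2, rfl⟩, hh⟩
    rw [Set.mem_singleton_iff] at ha1 ha2
    subst ha1; subst ha2
    obtain ⟨p1, ⟨p2, ⟨gi, ⟨i, hi, rfl⟩, p3, ⟨p4, ⟨a3, ha3, w', hw', rfl⟩, a4, ha4, rfl⟩, rfl⟩,
      gk, ⟨k, hk, rfl⟩, rfl⟩, z, hz, heq⟩ := hh
    rw [Set.mem_singleton_iff] at ha3 ha4
    subst ha3; subst ha4
    simp only at heq ⊢
    apply hb0 β hβb0 hβ0 w hw w' hw' i k hi hk z (hCK hz)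
      (hψ0 z (der_succ_le_comm c.K (j + 1) hz.2))
    rw [← heq]
    simp only [zpow_neg, zpow_natCast, ← pow_mul, hα]
  have hrat : IsRat (X0 ∩ Y) := hI _ _ hX0rat hYrat
  have hQ0 : (Subgroup.closure (X0 ∩ Y)).FG := hrat.closure_fg
  have hQ0K : Subgroup.closure (X0 ∩ Y) ≤ c.K := (Subgroup.closure_le _).2 hsub
  refine ⟨2 * β, by omega, Subgroup.closure (X0 ∩ Y) ⊔ Subgroup.zpowers α, ?_, ?_, ?_⟩
  · apply hQ0.sup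
    rw [Subgroup.zpowers_eq_closure]
    exact ⟨{α}, by simp⟩
  · exact sup_le hQ0K (by rw [Subgroup.zpowers_le]; exact hαK)
  · intro w hw hwj
    -- w' = α w α⁻¹
    have hnorm : ∀ x ∈ der (j + 1) c.K, ∀ a ∈ c.K, a * x * a⁻¹ ∈ der (j + 1) c.K := by
      intro x hx a ha
      exact der_conj (fun z hz => c.K.mul_mem (c.K.mul_mem ha hz) (c.K.inv_mem ha)) _ x hx
    have hw' : α * w * α⁻¹ ∈ der (j + 1) c.K := hnorm w hwj α hαK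
    have hwD : α * w * α⁻¹ ∈ (⁅c.K, c.K⁆ : Subgroup G) := der_succ_le_comm c.K j hw'
    -- W
    have hWfg := IH _ hwD
    have hd1 : ∀ x ∈ der (j + 1) c.K, c.g * x * c.g⁻¹ ∈ der (j + 1) c.K :=
      der_conj (K_conj1 c.toCfg) _
    have hd2 : ∀ x ∈ der (j + 1) c.K, c.g⁻¹ * x * c.g ∈ der (j + 1) c.K := by
      have := der_conj (K := c.K) (g := c.g⁻¹) (by
        intro x hx
        have := K_conj2 c.toCfg x hx
        simpa using this) (j + 1)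
      intro x hx
      have := this x hx
      simpa using this
    have hWle : Kcl c.g {α * w * α⁻¹} ≤ der (j + 1) c.K :=
      Kcl_le (by rintro x rfl; exact hw') hd1 hd2
    have hWVA : VA (Kcl c.g {α * w * α⁻¹}) := hloc _ (hWle.trans (der_le _ _)) hWfg
    have hW1 : ∀ x ∈ Kcl c.g {α * w * α⁻¹},
        c.g ^ (2 * β) * x * (c.g ^ (2 * β))⁻¹ ∈ Kcl c.g {α * w * α⁻¹} := by
      intro x hx
      have := Kcl_conj c.g {α * w * α⁻¹} ((2 * β : ℕ) : ℤ) hx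
      rwa [zpow_natCast] at this
    have hW2 : ∀ x ∈ Kcl c.g {α * w * α⁻¹},
        (c.g ^ (2 * β))⁻¹ * x * c.g ^ (2 * β) ∈ Kcl c.g {α * w * α⁻¹} := by
      intro x hx
      have := Kcl_conj c.g {α * w * α⁻¹} (-((2 * β : ℕ) : ℤ)) hx
      rwa [zpow_neg, zpow_natCast, inv_inv] at this
    obtain ⟨m, hm, hmem⟩ := pc hI hWfg hWVA (c.g ^ (2 * β)) hW1 hW2 (α * w * α⁻¹)
      (subset_Kcl _ _ rfl)
    have hmem2 : (α * w * α⁻¹)⁻¹ * (c.g ^ (2 * β)) ^ m * (α * w * α⁻¹) *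
        ((c.g ^ (2 * β)) ^ m)⁻¹ ∈ der (j + 2) c.K :=
      (Subgroup.commutator_mono hWle hWle) hmem
    -- it is a bounded word
    have hwβ : w ∈ Wd c.g F' β s := Wd_dvd (dvd_mul_left _ _) s hw
    have hαβ : α ∈ Wd c.g F' β 1 := by
      refine ⟨c.g ^ (β : ℤ) * y, ⟨c.g ^ (β : ℤ), ⟨1, by simp⟩, y, hyF, rfl⟩, (c.g ^ (β : ℤ))⁻¹,
        ⟨-1, by simp⟩, rfl⟩
    have hww : α * w * α⁻¹ ∈ Wd c.g F' β (1 + s + 1) :=
      Wd_mul (Wd_mul hαβ s hwβ) 1 (Wd_inv hinv 1 hαβ)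
    have hgm : (c.g ^ (2 * β)) ^ m ∈ Wd c.g F' β 0 := by
      refine ⟨2 * m, ?_⟩
      rw [← pow_mul, ← zpow_natCast]
      congr 1
      push_cast
      ring
    have hbig := Wd_mul (Wd_mul (Wd_mul (Wd_inv hinv _ hww) 0 hgm) _ hww) 0 (Wd_inv hinv 0 hgm)
    have hlen : 1 + s + 1 + 0 + (1 + s + 1) + 0 = 2 * s + 4 := by ring
    rw [hlen] at hbig
    have hbig' := Wd_dvd hb1β _ hbig
    have hC1 : (α * w * α⁻¹)⁻¹ * (c.g ^ (2 * β)) ^ m * (α * w * α⁻¹) *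
        ((c.g ^ (2 * β)) ^ m)⁻¹ ∈ C := ⟨hQ1 _ hbig' hmem2, hmem2⟩
    have hX : α * w * α⁻¹ ∈ X0 := ⟨α * w, ⟨α, rfl, w, hw, rfl⟩, α⁻¹, rfl, rfl⟩
    have hYm : α * w * α⁻¹ ∈ Y := by
      refine ⟨(c.g ^ (2 * β)) ^ m * (α * w * α⁻¹) * ((c.g ^ (2 * β)) ^ m)⁻¹,
        ⟨(c.g ^ (2 * β)) ^ m * (α * w * α⁻¹), ⟨(c.g ^ (2 * β)) ^ m, ⟨m, hm, rfl⟩,
          α * w * α⁻¹, hX, rfl⟩, ((c.g ^ (2 * β)) ^ m)⁻¹, ⟨m, hm, rfl⟩, rfl⟩,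
        ((α * w * α⁻¹)⁻¹ * (c.g ^ (2 * β)) ^ m * (α * w * α⁻¹) *
        ((c.g ^ (2 * β)) ^ m)⁻¹)⁻¹, C.inv_mem hC1, ?_⟩
      simp only
      group
    have hcl : α * w * α⁻¹ ∈ Subgroup.closure (X0 ∩ Y) := Subgroup.subset_closure ⟨hX, hYm⟩
    have h5 : α * w * α⁻¹ ∈ Subgroup.closure (X0 ∩ Y) ⊔ Subgroup.zpowers α :=
      (le_sup_left : Subgroup.closure (X0 ∩ Y) ≤ _) hcl
    have h6 : α ∈ Subgroup.closure (X0 ∩ Y) ⊔ Subgroup.zpowers α :=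
      (le_sup_right : Subgroup.zpowers α ≤ _) (Subgroup.mem_zpowers α)
    have h7 := Subgroup.mul_mem _ (Subgroup.mul_mem _ (Subgroup.inv_mem _ h6) h5) h6
    have e : α⁻¹ * (α * w * α⁻¹) * α = w := by group
    rwa [e] at h7

theorem st_all (hI : PropI G) {F' : Set G} (hF : F'.Finite) (hFK : F' ⊆ c.K) (h1 : (1 : G) ∈ F')
    (hinv : ∀ x ∈ F', x⁻¹ ∈ F') {y : G} (hyF : y ∈ F') (hy : ¬ ∀ n, c.ψ y ∈ c.P n)
    (hloc : LocVA c.K) (hψ0 : ∀ x ∈ (⁅c.K, c.K⁆ : Subgroup G), c.ψ x = 0)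
    (IH : ∀ x ∈ (⁅c.K, c.K⁆ : Subgroup G), (Kcl c.g {x}).FG) :
    ∀ (e j : ℕ), der (j + 1 + e) c.K = ⊥ → St c F' (j + 1)
  | 0, j, hd => by
    intro s
    refine ⟨1, one_pos, ⊥, Subgroup.FG.bot, bot_le, fun w _ hw => ?_⟩
    rwa [← hd]
  | e + 1, j, hd => by
    apply st_step c hI hF hFK h1 hinv hyF hy hloc hψ0 IH
    apply st_all hI hF hFK h1 hinv hyF hy hloc hψ0 IH e (j + 1)
    rw [← hd]
    congr 1
    ring

/-- the main step: all conjugates `g^{dn} x g^{-dn}`, `x ∈ F'`, lie in a f.g. subgroup -/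
theorem main_step (hI : PropI G) {F' : Set G} (hF : F'.Finite) (hFK : F' ⊆ c.K) (h1 : (1 : G) ∈ F')
    (hinv : ∀ x ∈ F', x⁻¹ ∈ F') {y : G} (hyF : y ∈ F') (hy : ¬ ∀ n, c.ψ y ∈ c.P n)
    (hloc : LocVA c.K) (hψ0 : ∀ x ∈ (⁅c.K, c.K⁆ : Subgroup G), c.ψ x = 0)
    (IH : ∀ x ∈ (⁅c.K, c.K⁆ : Subgroup G), (Kcl c.g {x}).FG) (e : ℕ)
    (hder : der (e + 1) c.K = ⊥) :
    ∃ d : ℕ, 0 < d ∧ ∃ Q : Subgroup G, Q.FG ∧ Q ≤ c.K ∧
      ∀ n : ℤ, ∀ x ∈ F', c.g ^ ((d : ℤ) * n) * x * (c.g ^ ((d : ℤ) * n))⁻¹ ∈ Q := by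
  have hst : St c F' (0 + 1) := by
    apply st_all c hI hF hFK h1 hinv hyF hy hloc hψ0 IH e 0
    rw [← hder]
    congr 1
    ring
  obtain ⟨b1, hb1, Q1, hQ1fg, hQ1K, hQ1⟩ := hst 4
  obtain ⟨b0, hb0⟩ := key2 c hF hFK h1 hinv hyF hy
  set β : ℕ := b1 * (b0 + 1) with hβ
  have hβ0 : 0 < β := Nat.mul_pos hb1 (Nat.succ_pos _)
  have hβb0 : b0 ≤ β := by
    calc b0 ≤ b0 + 1 := Nat.le_succ _
      _ = 1 * (b0 + 1) := (one_mul _).symm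
      _ ≤ b1 * (b0 + 1) := Nat.mul_le_mul_right _ hb1
  have hb1β : b1 ∣ β := dvd_mul_right _ _
  set α : G := c.g ^ (β : ℤ) * y * (c.g ^ (β : ℤ))⁻¹ with hα
  have hαK : α ∈ c.K := c.conj _ _ (hFK hyF)
  set C : Subgroup G := Q1 ⊓ der 1 c.K with hC
  have hCfg : C.FG := hloc.fg hQ1fg hQ1K inf_le_left
  have hCK : C ≤ c.K := inf_le_left.trans hQ1K
  set X0 : Set G := {α} * Wd c.g F' (2 * β) 1 * {α⁻¹} with hX0
  set Y : Set G := Wd c.g F' (2 * β) 1 * (C : Set G) with hY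
  have hX0rat : IsRat X0 := ((IsRat.single _).mul (Wd_rat c.g hF _ 1)).mul (IsRat.single _)
  have hYrat : IsRat Y := (Wd_rat c.g hF _ 1).mul (IsRat.of_fg hCfg)
  have hsub : X0 ∩ Y ⊆ (c.K : Set G) := by
    rintro h ⟨⟨p, ⟨a1, ha1, w, hw, rfl⟩, a2, ha2, rfl⟩, hh⟩
    rw [Set.mem_singleton_iff] at ha1 ha2
    subst ha1; subst ha2
    obtain ⟨w', hw', z, hz, heq⟩ := hh
    simp only at heq ⊢
    apply hb0 β hβb0 hβ0 w hw w' hw' z (hCK hz) (hψ0 z hz.2)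
    rw [← heq]
  have hrat : IsRat (X0 ∩ Y) := hI _ _ hX0rat hYrat
  have hQ0 : (Subgroup.closure (X0 ∩ Y)).FG := hrat.closure_fg
  have hQ0K : Subgroup.closure (X0 ∩ Y) ≤ c.K := (Subgroup.closure_le _).2 hsub
  refine ⟨2 * β, by omega, Subgroup.closure (X0 ∩ Y) ⊔ Subgroup.zpowers α, ?_, ?_, ?_⟩
  · apply hQ0.sup
    rw [Subgroup.zpowers_eq_closure]
    exact ⟨{α}, by simp⟩
  · exact sup_le hQ0K (by rw [Subgroup.zpowers_le]; exact hαK)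
  · intro n x hx
    set w : G := c.g ^ (((2 * β : ℕ) : ℤ) * n) * x * (c.g ^ (((2 * β : ℕ) : ℤ) * n))⁻¹ with hw
    have hwW : w ∈ Wd c.g F' (2 * β) 1 := by
      refine ⟨c.g ^ (((2 * β : ℕ) : ℤ) * n) * x, ⟨c.g ^ (((2 * β : ℕ) : ℤ) * n), ⟨n, rfl⟩, x, hx, rfl⟩,
        (c.g ^ (((2 * β : ℕ) : ℤ) * n))⁻¹, ⟨-n, ?_⟩, rfl⟩
      rw [← zpow_neg]; congr 1; ring
    have hwK : w ∈ c.K := c.conj _ _ (hFK hx)
    have hwβ : w ∈ Wd c.g F' β 1 := Wd_dvd (dvd_mul_left _ _) 1 hwW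
    have hαβ : α ∈ Wd c.g F' β 1 := by
      refine ⟨c.g ^ (β : ℤ) * y, ⟨c.g ^ (β : ℤ), ⟨1, by simp⟩, y, hyF, rfl⟩, (c.g ^ (β : ℤ))⁻¹,
        ⟨-1, by simp⟩, rfl⟩
    have hbig := Wd_mul (Wd_mul (Wd_mul (Wd_inv hinv _ hwβ) 1 hαβ) 1 hwβ) 1 (Wd_inv hinv 1 hαβ)
    have hbig' := Wd_dvd hb1β _ hbig
    have hcomm : w⁻¹ * α * w * α⁻¹ ∈ der (0 + 1) c.K := by
      have := Subgroup.commutator_mem_commutator (c.K.inv_mem hwK) hαK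
      rw [commutatorElement_def, inv_inv] at this
      exact this
    have hC1 : w⁻¹ * α * w * α⁻¹ ∈ C := ⟨hQ1 _ hbig' hcomm, hcomm⟩
    have hX : α * w * α⁻¹ ∈ X0 := ⟨α * w, ⟨α, rfl, w, hwW, rfl⟩, α⁻¹, rfl, rfl⟩
    have hYm : α * w * α⁻¹ ∈ Y := by
      refine ⟨w, hwW, w⁻¹ * α * w * α⁻¹, hC1, ?_⟩
      simp only
      group
    have hcl : α * w * α⁻¹ ∈ Subgroup.closure (X0 ∩ Y) := Subgroup.subset_closure ⟨hX, hYm⟩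
    have h5 : α * w * α⁻¹ ∈ Subgroup.closure (X0 ∩ Y) ⊔ Subgroup.zpowers α :=
      (le_sup_left : Subgroup.closure (X0 ∩ Y) ≤ _) hcl
    have h6 : α ∈ Subgroup.closure (X0 ∩ Y) ⊔ Subgroup.zpowers α :=
      (le_sup_right : Subgroup.zpowers α ≤ _) (Subgroup.mem_zpowers α)
    have h7 := Subgroup.mul_mem _ (Subgroup.mul_mem _ (Subgroup.inv_mem _ h6) h5) h6
    have e : α⁻¹ * (α * w * α⁻¹) * α = w := by group
    rwa [e] at h7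

end RatVA
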