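import Mathlib
import Pool.Agent.Helper986.RatVA.Step

set_option autoImplicit false

open scoped Pointwise

namespace RatVA

section concrete

variable {G : Type*} [Group G]

/-- abelianization of a subgroup, additive -/
abbrev Ab (K : Subgroup G) := Additive (Abelianization K)

open Classical in
/-- class in the abelianization -/
noncomputable def psi (K : Subgroup G) (x : G) : Ab K :=
  if h : x ∈ K then Additive.ofMul (Abelianization.of ⟨x, h⟩) else 0

theorem psi_of {K : Subgroup G} {x : G} (h : x ∈ K) :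
    psi K x = Additive.ofMul (Abelianization.of ⟨x, h⟩) := dif_pos h

theorem psi_mul {K : Subgroup G} {x y : G} (hx : x ∈ K) (hy : y ∈ K) :
    psi K (x * y) = psi K x + psi K y := by
  rw [psi_of hx, psi_of hy, psi_of (K.mul_mem hx hy), ← ofMul_mul, ← map_mul]
  rfl

theorem psi_one {K : Subgroup G} : psi K 1 = 0 := by
  have := psi_mul (K := K) K.one_mem K.one_mem
  rw [mul_one] at this
  exact left_eq_add.1 this

theorem psi_inv {K : Subgroup G} {x : G} (hx : x ∈ K) : psi K x⁻¹ = - psi K x := by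
  have := psi_mul hx (K.inv_mem hx)
  rw [mul_inv_cancel, psi_one] at this
  exact (neg_eq_of_add_eq_zero_right this.symm).symm

theorem psi_eq_zero {K : Subgroup G} {x : G} (hx : x ∈ K) :
    psi K x = 0 ↔ x ∈ (⁅K, K⁆ : Subgroup G) := by
  rw [psi_of hx, ← Subgroup.map_subtype_commutator]
  have h1 : Additive.ofMul (Abelianization.of (⟨x, hx⟩ : K)) = 0 ↔
      (⟨x, hx⟩ : K) ∈ commutator K := by
    rw [← Abelianization.ker_of, MonoidHom.mem_ker]
    exact Iff.rfl
  rw [h1]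
  constructor
  · intro h; exact ⟨_, h, rfl⟩
  · rintro ⟨y, hy, e⟩
    have : y = ⟨x, hx⟩ := Subtype.ext e
    rwa [← this]

theorem psi_surj {K : Subgroup G} (a : Ab K) : ∃ x ∈ K, psi K x = a := by
  obtain ⟨⟨x, hx⟩, e⟩ := QuotientGroup.mk_surjective (Additive.toMul a)
  exact ⟨x, hx, by rw [psi_of hx]; exact e⟩

/-- conjugation by `g ^ i` on `K` -/
def conjHom (g : G) (K : Subgroup G) (h : ∀ (i : ℤ) (x : G), x ∈ K → g ^ i * x * (g ^ i)⁻¹ ∈ K)
    (i : ℤ) : K →* K where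
  toFun x := ⟨g ^ i * x * (g ^ i)⁻¹, h i x x.2⟩
  map_one' := by apply Subtype.ext; simp
  map_mul' x y := by
    apply Subtype.ext
    simp only [Subgroup.coe_mul]
    group

/-- induced automorphisms of the abelianization -/
noncomputable def tt (g : G) (K : Subgroup G)
    (h : ∀ (i : ℤ) (x : G), x ∈ K → g ^ i * x * (g ^ i)⁻¹ ∈ K) (i : ℤ) : Ab K →+ Ab K :=
  MonoidHom.toAdditive (Abelianization.map (conjHom g K h i))

theorem tt_psi (g : G) (K : Subgroup G)
    (h : ∀ (i : ℤ) (x : G), x ∈ K → g ^ i * x * (g ^ i)⁻¹ ∈ K) (i : ℤ) (x : G) (hx : x ∈ K) :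
    psi K (g ^ i * x * (g ^ i)⁻¹) = tt g K h i (psi K x) := by
  rw [psi_of hx, psi_of (h i x hx)]
  rfl

theorem tt_zero (g : G) (K : Subgroup G)
    (h : ∀ (i : ℤ) (x : G), x ∈ K → g ^ i * x * (g ^ i)⁻¹ ∈ K) (a : Ab K) :
    tt g K h 0 a = a := by
  obtain ⟨x, hx, rfl⟩ := psi_surj a
  rw [← tt_psi g K h 0 x hx]
  simp

theorem tt_add (g : G) (K : Subgroup G)
    (h : ∀ (i : ℤ) (x : G), x ∈ K → g ^ i * x * (g ^ i)⁻¹ ∈ K) (i j : ℤ) (a : Ab K) :
    tt g K h (i + j) a = tt g K h i (tt g K h j a) := by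
  obtain ⟨x, hx, rfl⟩ := psi_surj a
  rw [← tt_psi g K h j x hx, ← tt_psi g K h i _ (h j x hx), ← tt_psi g K h (i + j) x hx]
  congr 1
  rw [zpow_add]
  group

theorem Kcl_conj' {g : G} {F : Set G} {K : Subgroup G} (hK : K = Kcl g F) :
    ∀ (i : ℤ) (x : G), x ∈ K → g ^ i * x * (g ^ i)⁻¹ ∈ K := by
  intro i x hx
  subst hK
  exact Kcl_conj g F i hx

/-- the configuration attached to `g`, `F` -/
noncomputable def mkFil (g : G) (F : Set G) (K : Subgroup G) (hK : K = Kcl g F)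
    (hno : ∀ k : ℤ, g ^ k ∈ K → k = 0) : Fil G (Ab K) where
  g := g
  K := K
  ψ := psi K
  t := tt g K (Kcl_conj' hK)
  t0 := tt_zero g K _
  tadd := tt_add g K _
  conj := Kcl_conj' hK
  mul := fun x hx y hy => psi_mul hx hy
  tw := fun i x hx => tt_psi g K _ i x hx
  nop := hno
  P := fun n => AddSubgroup.closure {a | ∃ i : ℤ, i < n ∧ ∃ x ∈ F,
    a = tt g K (Kcl_conj' hK) i (psi K x)}
  mono := by
    intro m n hmn
    apply AddSubgroup.closure_mono
    rintro a ⟨i, hi, x, hx, rfl⟩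
    exact ⟨i, lt_of_lt_of_le hi hmn, x, hx, rfl⟩
  tP := by
    intro i n a ha
    induction ha using AddSubgroup.closure_induction with
    | mem a ha =>
      obtain ⟨j, hj, x, hx, rfl⟩ := ha
      apply AddSubgroup.subset_closure
      refine ⟨j + i, by omega, x, hx, ?_⟩
      rw [add_comm, tt_add]
    | zero => rw [map_zero]; exact AddSubgroup.zero_mem _
    | add a b _ _ ha hb => rw [map_add]; exact AddSubgroup.add_mem _ ha hb
    | neg a _ ha => rw [map_neg]; exact AddSubgroup.neg_mem _ ha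
  U := by
    intro a
    obtain ⟨x, hx, rfl⟩ := psi_surj a
    have hx' : x ∈ Kcl g F := hK ▸ hx
    have key : ∀ z ∈ Kcl g F, ∃ n : ℤ, psi K z ∈ AddSubgroup.closure {a | ∃ i : ℤ, i < n ∧ ∃ x ∈ F,
      a = tt g K (Kcl_conj' hK) i (psi K x)} := by
      intro z hz
      unfold Kcl at hz
      induction hz using Subgroup.closure_induction with
      | mem z hz =>
        obtain ⟨i, y, hy, rfl⟩ := hz
        refine ⟨i + 1, AddSubgroup.subset_closure ⟨i, by omega, y, hy, ?_⟩⟩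
        rw [← tt_psi]
        rw [hK]; exact subset_Kcl g F hy
      | one => exact ⟨0, by rw [psi_one]; exact AddSubgroup.zero_mem _⟩
      | mul a b ha hb ha' hb' =>
        obtain ⟨n, hn⟩ := ha'
        obtain ⟨m, hm⟩ := hb'
        refine ⟨max n m, ?_⟩
        rw [psi_mul (by rw [hK]; exact ha) (by rw [hK]; exact hb)]
        apply AddSubgroup.add_mem
        · refine AddSubgroup.closure_mono ?_ hn
          rintro a ⟨i, hi, x, hx, rfl⟩
          exact ⟨i, lt_of_lt_of_le hi (le_max_left _ _), x, hx, rfl⟩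
        · refine AddSubgroup.closure_mono ?_ hm
          rintro a ⟨i, hi, x, hx, rfl⟩
          exact ⟨i, lt_of_lt_of_le hi (le_max_right _ _), x, hx, rfl⟩
      | inv a ha ha' =>
        obtain ⟨n, hn⟩ := ha'
        refine ⟨n, ?_⟩
        rw [psi_inv (by rw [hK]; exact ha)]
        exact AddSubgroup.neg_mem _ hn
    exact key x hx'

end concrete

section case3

variable {A : Type*} [AddCommGroup A]

theorem exists_bound (t : ℤ → A →+ A) (S : Set A) (I : Set ℤ) {a : A}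
    (ha : a ∈ AddSubgroup.closure {b | ∃ i ∈ I, ∃ s ∈ S, b = t i s}) :
    ∃ m : ℕ, ∀ m' : ℕ, m ≤ m' →
      a ∈ AddSubgroup.closure {b | ∃ i ∈ I, (-(m' : ℤ) ≤ i ∧ i ≤ m') ∧ ∃ s ∈ S, b = t i s} := by
  induction ha using AddSubgroup.closure_induction with
  | mem a ha =>
    obtain ⟨i, hi, s, hs, rfl⟩ := ha
    refine ⟨i.natAbs, fun m' hm' => AddSubgroup.subset_closure ⟨i, hi, ?_, s, hs, rfl⟩⟩
    omega
  | zero => exact ⟨0, fun m' _ => AddSubgroup.zero_mem _⟩
  | add a b _ _ ha hb =>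
    obtain ⟨m, hm⟩ := ha
    obtain ⟨n, hn⟩ := hb
    exact ⟨max m n, fun m' hm' => AddSubgroup.add_mem _ (hm m' (le_trans (le_max_left _ _) hm'))
      (hn m' (le_trans (le_max_right _ _) hm'))⟩
  | neg a _ ha =>
    obtain ⟨m, hm⟩ := ha
    exact ⟨m, fun m' hm' => AddSubgroup.neg_mem _ (hm m' hm')⟩

theorem exists_bound_fin (t : ℤ → A →+ A) (S : Set A) (I : Set ℤ) (T : Set A) (hT : T.Finite)
    (ha : ∀ a ∈ T, a ∈ AddSubgroup.closure {b | ∃ i ∈ I, ∃ s ∈ S, b = t i s}) :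
    ∃ m : ℕ, ∀ m' : ℕ, m ≤ m' → ∀ a ∈ T,
      a ∈ AddSubgroup.closure {b | ∃ i ∈ I, (-(m' : ℤ) ≤ i ∧ i ≤ m') ∧ ∃ s ∈ S, b = t i s} := by
  induction T, hT using Set.Finite.induction_on with
  | empty => exact ⟨0, fun _ _ a ha => absurd ha (Set.notMem_empty a)⟩
  | @insert a T _ _ ih =>
    obtain ⟨m, hm⟩ := ih (fun a h => ha a (Set.mem_insert_of_mem _ h))
    obtain ⟨n, hn⟩ := exists_bound t S I (ha a (Set.mem_insert _ _))
    refine ⟨max m n, fun m' hm' b hb => ?_⟩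
    rcases Set.mem_insert_iff.1 hb with rfl | hb
    · exact hn m' (le_trans (le_max_right _ _) hm')
    · exact hm m' (le_trans (le_max_left _ _) hm') b hb

theorem map_closure_sub (t : ℤ → A →+ A) (i : ℤ) {X Y : Set A}
    (h : ∀ x ∈ X, t i x ∈ AddSubgroup.closure Y) {a : A} (ha : a ∈ AddSubgroup.closure X) :
    t i a ∈ AddSubgroup.closure Y := by
  induction ha using AddSubgroup.closure_induction with
  | mem a ha => exact h a ha
  | zero => rw [map_zero]; exact AddSubgroup.zero_mem _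
  | add a b _ _ ha hb => rw [map_add]; exact AddSubgroup.add_mem _ ha hb
  | neg a _ ha => rw [map_neg]; exact AddSubgroup.neg_mem _ ha

/-- two-sided recurrence implies finite generation -/
theorem window (t : ℤ → A →+ A) (t0 : ∀ a, t 0 a = a) (tadd : ∀ i j a, t (i + j) a = t i (t j a))
    (S : Set A) (hS : S.Finite)
    (h1 : ∀ s ∈ S, s ∈ AddSubgroup.closure {b | ∃ i ∈ {i : ℤ | i < 0}, ∃ s ∈ S, b = t i s})
    (h2 : ∀ s ∈ S, s ∈ AddSubgroup.closure {b | ∃ i ∈ {i : ℤ | 0 < i}, ∃ s ∈ S, b = t i s}) :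
    ∃ m : ℕ, ∀ (i : ℤ), ∀ s ∈ S, t i s ∈
      AddSubgroup.closure {b | ∃ j : ℤ, (-(m : ℤ) ≤ j ∧ j ≤ m) ∧ ∃ s ∈ S, b = t j s} := by
  obtain ⟨m1, hm1⟩ := exists_bound_fin t S _ S hS h1
  obtain ⟨m2, hm2⟩ := exists_bound_fin t S _ S hS h2
  set m := max m1 m2 with hm
  have hm1' := hm1 m (le_max_left _ _)
  have hm2' := hm2 m (le_max_right _ _)
  refine ⟨m, ?_⟩
  set B := AddSubgroup.closure {b | ∃ j : ℤ, (-(m : ℤ) ≤ j ∧ j ≤ m) ∧ ∃ s ∈ S, b = t j s} with hB
  have hup : ∀ a ∈ B, t 1 a ∈ B := by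
    intro a ha
    apply map_closure_sub t 1 _ ha
    rintro _ ⟨j, ⟨hj1, hj2⟩, s, hs, rfl⟩
    rcases lt_or_eq_of_le hj2 with hlt | heq
    · exact AddSubgroup.subset_closure ⟨1 + j, ⟨by omega, by omega⟩, s, hs, by rw [tadd]⟩
    · rw [← tadd]
      apply map_closure_sub t (1 + j) _ (hm1' s hs)
      rintro _ ⟨i, hi, ⟨hi1, hi2⟩, s', hs', rfl⟩
      rw [← tadd]
      have hi' : i < 0 := hi
      exact AddSubgroup.subset_closure ⟨1 + j + i, ⟨by omega, by omega⟩, s', hs', rfl⟩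
  have hdown : ∀ a ∈ B, t (-1) a ∈ B := by
    intro a ha
    apply map_closure_sub t (-1) _ ha
    rintro _ ⟨j, ⟨hj1, hj2⟩, s, hs, rfl⟩
    rcases lt_or_eq_of_le hj1 with hlt | heq
    · exact AddSubgroup.subset_closure ⟨-1 + j, ⟨by omega, by omega⟩, s, hs, by rw [tadd]⟩
    · rw [← tadd]
      apply map_closure_sub t (-1 + j) _ (hm2' s hs)
      rintro _ ⟨i, hi, ⟨hi1, hi2⟩, s', hs', rfl⟩
      rw [← tadd]
      have hi' : 0 < i := hi
      exact AddSubgroup.subset_closure ⟨-1 + j + i, ⟨by omega, by omega⟩, s', hs', rfl⟩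
  intro i s hs
  induction i using Int.induction_on with
  | zero => exact AddSubgroup.subset_closure ⟨0, ⟨by omega, by omega⟩, s, hs, rfl⟩
  | succ i ih =>
    have := hup _ ih
    rw [← tadd] at this
    have e : (1 : ℤ) + i = i + 1 := by ring
    rwa [e] at this
  | pred i ih =>
    have := hdown _ ih
    rw [← tadd] at this
    have e : (-1 : ℤ) + -i = -i - 1 := by ring
    rwa [e] at this

end case3

section claim

variable {G : Type*} [Group G]

theorem Kcl_finite_window {F : Set G} (hF : F.Finite) (g : G) (m : ℕ) :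
    {y : G | ∃ (j : ℤ), (-(m : ℤ) ≤ j ∧ j ≤ m) ∧ ∃ x ∈ F, y = g ^ j * x * (g ^ j)⁻¹}.Finite := by
  have : {y : G | ∃ (j : ℤ), (-(m : ℤ) ≤ j ∧ j ≤ m) ∧ ∃ x ∈ F, y = g ^ j * x * (g ^ j)⁻¹} ⊆
      (fun p : ℤ × G => g ^ p.1 * p.2 * (g ^ p.1)⁻¹) '' ((Set.Icc (-(m : ℤ)) m) ×ˢ F) := by
    rintro y ⟨j, hj, x, hx, rfl⟩
    exact ⟨(j, x), ⟨hj, hx⟩, rfl⟩
  exact Set.Finite.subset (((Set.finite_Icc _ _).prod hF).image _) this

/-- one-sided case: a marker exists -/
theorem claimR_side (hI : PropI G) {g : G} {F : Set G} (hF : F.Finite) {K : Subgroup G}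
    (hK : K = Kcl g F) (hno : ∀ k : ℤ, g ^ k ∈ K → k = 0) (hloc : LocVA K) (e : ℕ)
    (hder : der (e + 1) K = ⊥)
    (IH : ∀ x ∈ (⁅K, K⁆ : Subgroup G), (Kcl g {x}).FG)
    (hy : ∃ y ∈ F, ¬ ∀ n, psi K y ∈ (mkFil g F K hK hno).P n) : K.FG := by
  obtain ⟨y, hyF, hy⟩ := hy
  set c := mkFil g F K hK hno with hc
  set F' : Set G := ({1} ∪ F) ∪ ({1} ∪ F)⁻¹ with hF'
  have hF'fin : F'.Finite := by
    have h1 : ({1} ∪ F).Finite := (Set.finite_singleton _).union hF
    exact h1.union h1.inv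
  have hFsub : F ⊆ K := by rw [hK]; exact subset_Kcl g F
  have hF'K : F' ⊆ K := by
    have h1 : ({1} ∪ F) ⊆ (K : Set G) := by
      apply Set.union_subset _ hFsub
      rintro x rfl; exact K.one_mem
    apply Set.union_subset h1
    intro x hx
    have := h1 hx
    have h2 := K.inv_mem this
    simpa using h2
  have h1 : (1 : G) ∈ F' := Or.inl (Or.inl rfl)
  have hinv : ∀ x ∈ F', x⁻¹ ∈ F' := by
    rintro x (hx | hx)
    · right; rw [Set.mem_inv, inv_inv]; exact hx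
    · left; exact hx
  have hFF' : F ⊆ F' := fun x hx => Or.inl (Or.inr hx)
  obtain ⟨d, hd, Q, hQfg, hQK, hQ⟩ := main_step c hI hF'fin hF'K h1 hinv (hFF' hyF) hy hloc
    (fun x hx => (psi_eq_zero (comm_le_self K hx)).2 hx) IH e hder
  have := Kcl_fg_of_progression (g := g) (F := F) hF hd hQfg (by rw [← hK]; exact hQK)
    (fun n x hx => hQ n x (hFF' hx))
  rw [hK]; exact this

theorem claimR (hI : PropI G) : ∀ (e : ℕ) (g : G) (F : Set G), F.Finite → LocVA (Kcl g F) →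
    der e (Kcl g F) = ⊥ → (Kcl g F).FG
  | 0, g, F, _, _, hder => by
    have : Kcl g F = ⊥ := hder
    rw [this]; exact Subgroup.FG.bot
  | e + 1, g, F, hF, hloc, hder => by
    by_cases hpow : ∃ k : ℕ, 0 < k ∧ g ^ k ∈ Kcl g F
    · obtain ⟨k, hk, hgk⟩ := hpow
      exact Kcl_fg_of_pow_mem hF hk hgk
    have hno : ∀ k : ℤ, g ^ k ∈ Kcl g F → k = 0 := by
      intro k hk
      by_contra hne
      apply hpow
      rcases lt_or_gt_of_ne hne with h | h
      · refine ⟨(-k).toNat, by omega, ?_⟩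
        have e1 : ((-k).toNat : ℤ) = -k := by omega
        rw [← zpow_natCast, e1, zpow_neg]
        exact Subgroup.inv_mem _ hk
      · refine ⟨k.toNat, by omega, ?_⟩
        have e1 : (k.toNat : ℤ) = k := by omega
        rw [← zpow_natCast, e1]
        exact hk
    have hno' : ∀ k : ℤ, g⁻¹ ^ k ∈ Kcl g F → k = 0 := by
      intro k hk
      have h2 : g ^ (-k) ∈ Kcl g F := by
        rw [inv_zpow, ← zpow_neg] at hk; exact hk
      have := hno _ h2
      omega
    have hnormD : ∀ i : ℤ, ∀ x ∈ (⁅Kcl g F, Kcl g F⁆ : Subgroup G),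
        g ^ i * x * (g ^ i)⁻¹ ∈ (⁅Kcl g F, Kcl g F⁆ : Subgroup G) := by
      intro i
      exact der_conj (fun x hx => Kcl_conj g F i hx) 1
    have IH : ∀ F' : Set G, F'.Finite → F' ⊆ (⁅Kcl g F, Kcl g F⁆ : Subgroup G) →
        (Kcl g F').FG := by
      intro F' hF' hsub
      have hle : Kcl g F' ≤ ⁅Kcl g F, Kcl g F⁆ := by
        apply Kcl_le hsub
        · intro x hx
          have := hnormD 1 x hx
          simpa using this
        · intro x hx
          have := hnormD (-1) x hx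
          simpa using this
      apply claimR hI e g F' hF'
      · exact hloc.mono (hle.trans (comm_le_self _))
      · rw [eq_bot_iff]
        refine (der_mono hle e).trans ?_
        rw [der_comm, hder]
    have IH1 : ∀ x ∈ (⁅Kcl g F, Kcl g F⁆ : Subgroup G), (Kcl g {x}).FG := by
      intro x hx
      apply IH {x} (Set.finite_singleton x)
      rintro z rfl; exact hx
    have IH2 : ∀ x ∈ (⁅Kcl g F, Kcl g F⁆ : Subgroup G), (Kcl g⁻¹ {x}).FG := by
      intro x hx
      rw [Kcl_inv]; exact IH1 x hx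
    by_cases hA : ∃ y ∈ F, ¬ ∀ n, psi (Kcl g F) y ∈ (mkFil g F (Kcl g F) rfl hno).P n
    · exact claimR_side hI hF rfl hno hloc e hder IH1 hA
    by_cases hB : ∃ y ∈ F, ¬ ∀ n, psi (Kcl g F) y ∈
        (mkFil g⁻¹ F (Kcl g F) (Kcl_inv g F).symm hno').P n
    · exact claimR_side hI hF (Kcl_inv g F).symm hno' hloc e hder IH2 hB
    push Not at hA hB
    -- two-sided recurrence
    set K := Kcl g F with hKdef
    have hconj : ∀ (i : ℤ) (x : G), x ∈ K → g ^ i * x * (g ^ i)⁻¹ ∈ K :=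
      fun i x hx => Kcl_conj g F i hx
    have hFK : F ⊆ K := subset_Kcl g F
    obtain ⟨m, hm⟩ := window (tt g K hconj) (tt_zero g K hconj) (tt_add g K hconj) (psi K '' F)
      (hF.image _) (by
        rintro _ ⟨y, hy, rfl⟩
        have := hA y hy 0
        refine AddSubgroup.closure_mono ?_ this
        rintro _ ⟨i, hi, x, hx, rfl⟩
        exact ⟨i, hi, psi K x, ⟨x, hx, rfl⟩, rfl⟩) (by
        rintro _ ⟨y, hy, rfl⟩
        have := hB y hy 0
        refine AddSubgroup.closure_mono ?_ this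
        rintro _ ⟨i, hi, x, hx, rfl⟩
        refine ⟨-i, ?_, psi K x, ⟨x, hx, rfl⟩, ?_⟩
        · show 0 < -i
          omega
        · rw [← tt_psi g⁻¹ K _ i x (hFK hx), ← tt_psi g K hconj (-i) x (hFK hx)]
          rw [inv_zpow, ← zpow_neg])
    set W0 : Set G := {y : G | ∃ (j : ℤ), (-(m : ℤ) ≤ j ∧ j ≤ m) ∧ ∃ x ∈ F,
      y = g ^ j * x * (g ^ j)⁻¹} with hW0
    have hW0fin : W0.Finite := Kcl_finite_window hF g m
    have hK0fg : (Subgroup.closure W0).FG := ⟨hW0fin.toFinset, by simp⟩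
    have hK0le : Subgroup.closure W0 ≤ K := by
      rw [Subgroup.closure_le]
      rintro _ ⟨j, _, x, hx, rfl⟩
      exact hconj j x (hFK hx)
    have hpre : ∀ a ∈ AddSubgroup.closure {b | ∃ j : ℤ, (-(m : ℤ) ≤ j ∧ j ≤ m) ∧
        ∃ s ∈ psi K '' F, b = tt g K hconj j s}, ∃ k ∈ Subgroup.closure W0, psi K k = a := by
      intro a ha
      induction ha using AddSubgroup.closure_induction with
      | mem a ha =>
        obtain ⟨j, hj, _, ⟨x, hx, rfl⟩, rfl⟩ := ha
        exact ⟨g ^ j * x * (g ^ j)⁻¹, Subgroup.subset_closure ⟨j, hj, x, hx, rfl⟩,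
          tt_psi g K hconj j x (hFK hx)⟩
      | zero => exact ⟨1, Subgroup.one_mem _, psi_one⟩
      | add a b _ _ ha hb =>
        obtain ⟨k1, hk1, rfl⟩ := ha
        obtain ⟨k2, hk2, rfl⟩ := hb
        exact ⟨k1 * k2, Subgroup.mul_mem _ hk1 hk2, psi_mul (hK0le hk1) (hK0le hk2)⟩
      | neg a _ ha =>
        obtain ⟨k1, hk1, rfl⟩ := ha
        exact ⟨k1⁻¹, Subgroup.inv_mem _ hk1, psi_inv (hK0le hk1)⟩
    apply Kcl_fg_of_sup hK0fg _ hK0le _ IH
    · intro x hx
      apply Subgroup.subset_closure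
      exact ⟨0, ⟨by omega, by omega⟩, x, hx, by simp⟩
    · show Subgroup.closure _ ≤ _
      rw [Subgroup.closure_le]
      rintro _ ⟨i, x, hx, rfl⟩
      obtain ⟨k, hk, hke⟩ := hpre _ (hm i (psi K x) ⟨x, hx, rfl⟩)
      rw [← tt_psi g K hconj i x (hFK hx)] at hke
      have hz : (g ^ i * x * (g ^ i)⁻¹) ∈ K := hconj i x (hFK hx)
      have hkK : k ∈ K := hK0le hk
      have h3 : k⁻¹ * (g ^ i * x * (g ^ i)⁻¹) ∈ (⁅K, K⁆ : Subgroup G) := by
        rw [← psi_eq_zero (K.mul_mem (K.inv_mem hkK) hz), psi_mul (K.inv_mem hkK) hz, psi_inv hkK, hke]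
        simp
      have h4 : g ^ i * x * (g ^ i)⁻¹ = k * (k⁻¹ * (g ^ i * x * (g ^ i)⁻¹)) := by group
      rw [SetLike.mem_coe, h4]
      exact Subgroup.mul_mem _ ((le_sup_left : Subgroup.closure W0 ≤ _) hk)
        ((le_sup_right : (⁅K, K⁆ : Subgroup G) ≤ _) h3)

end claim

end RatVA
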