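import Mathlib
import Pool.Agent.Helper986.RatVA.Kcl

set_option autoImplicit false

namespace RatVA

open scoped commutatorElement

variable {G : Type*} [Group G]


theorem dfg_subset_Kcl (g : G) (F : Set G) : F ⊆ (Kcl g F : Set G) := by
  intro x hx
  exact Subgroup.subset_closure ⟨0, x, hx, by simp⟩

theorem dfg_Kcl_conj_zpow (g : G) (F : Set G) (j : ℤ) {y : G} (hy : y ∈ Kcl g F) :
    g ^ j * y * (g ^ j)⁻¹ ∈ Kcl g F := by
  unfold Kcl at hy
  induction hy using Subgroup.closure_induction with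
  | mem y hy =>
    obtain ⟨i, x, hx, rfl⟩ := hy
    refine Subgroup.subset_closure ⟨j + i, x, hx, ?_⟩
    rw [zpow_add]; group
  | one => simp [Subgroup.one_mem]
  | mul a b _ _ ha hb =>
    have : g ^ j * (a * b) * (g ^ j)⁻¹ = (g ^ j * a * (g ^ j)⁻¹) * (g ^ j * b * (g ^ j)⁻¹) := by group
    rw [this]; exact Subgroup.mul_mem _ ha hb
  | inv a _ ha =>
    have : g ^ j * a⁻¹ * (g ^ j)⁻¹ = (g ^ j * a * (g ^ j)⁻¹)⁻¹ := by group
    rw [this]; exact Subgroup.inv_mem _ ha

theorem dfg_Kcl_le_of_conj {g : G} {F : Set G} {D : Subgroup G} (hF : F ⊆ (D : Set G))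
    (hD : ∀ (i : ℤ) (x : G), x ∈ D → g ^ i * x * (g ^ i)⁻¹ ∈ D) : Kcl g F ≤ D := by
  unfold Kcl
  rw [Subgroup.closure_le]
  rintro y ⟨i, x, hx, rfl⟩
  exact hD i x (hF hx)

/-- the inductive step data -/
theorem derived_fg_aux {Γ : Subgroup G} {T : Set G} (hTΓ : T ⊆ (Γ : Set G))
    (hTinv : ∀ a ∈ T, a⁻¹ ∈ T) (hTfin : T.Finite)
    (hR : ∀ (g : G) (F : Set G), g ∈ Γ → F.Finite → F ⊆ (⁅Γ, Γ⁆ : Subgroup G) → (Kcl g F).FG)
    (A : Finset G) (hA : (A : Set G) ⊆ T) :
    ∃ N : Subgroup G, N.FG ∧ N ≤ ⁅Γ, Γ⁆ ∧ (∀ a ∈ T, ∀ b ∈ T, ⁅a, b⁆ ∈ N) ∧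
      ∀ a ∈ A, ∀ x ∈ N, a * x * a⁻¹ ∈ N ∧ a⁻¹ * x * a ∈ N := by
  classical
  induction A using Finset.induction_on with
  | empty =>
    refine ⟨Subgroup.closure ((fun p : G × G => ⁅p.1, p.2⁆) '' (T ×ˢ T)), ?_, ?_, ?_, ?_⟩
    · rw [Subgroup.fg_iff]
      exact ⟨_, rfl, (hTfin.prod hTfin).image _⟩
    · rw [Subgroup.closure_le]
      rintro _ ⟨⟨a, b⟩, ⟨ha, hb⟩, rfl⟩
      exact Subgroup.commutator_mem_commutator (hTΓ ha) (hTΓ hb)
    · intro a ha b hb
      exact Subgroup.subset_closure ⟨(a, b), ⟨ha, hb⟩, rfl⟩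
    · intro a ha; simp at ha
  | insert g A hgA ih =>
    have hgT : g ∈ T := hA (by simp)
    have hAT : (A : Set G) ⊆ T := fun a ha => hA (by simp at ha ⊢; exact Or.inr ha)
    obtain ⟨N, hNfg, hNle, hNcomm, hNconj⟩ := ih hAT
    obtain ⟨F, hFN, hFfin⟩ := (Subgroup.fg_iff N).1 hNfg
    have hFsub : F ⊆ (N : Set G) := by rw [← hFN]; exact Subgroup.subset_closure
    have hFD : F ⊆ ((⁅Γ, Γ⁆ : Subgroup G) : Set G) := fun x hx => hNle (hFsub hx)
    have hNK : N ≤ Kcl g F := by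
      conv_lhs => rw [← hFN]
      rw [Subgroup.closure_le]; exact dfg_subset_Kcl g F
    refine ⟨Kcl g F, hR g F (hTΓ hgT) hFfin hFD, ?_, ?_, ?_⟩
    · refine dfg_Kcl_le_of_conj hFD ?_
      intro i x hx
      have hgi : g ^ i ∈ Γ := Subgroup.zpow_mem _ (hTΓ hgT) i
      have hle : (⁅Γ, Γ⁆ : Subgroup G) ≤ Γ := Subgroup.commutator_le.2 (fun a ha b hb => by
          rw [commutatorElement_def]
          exact Γ.mul_mem (Γ.mul_mem (Γ.mul_mem ha hb) (Γ.inv_mem ha)) (Γ.inv_mem hb))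
      have hxΓ : x ∈ Γ := hle hx
      have h1 : ⁅g ^ i, x⁆ ∈ ⁅Γ, Γ⁆ := Subgroup.commutator_mem_commutator hgi hxΓ
      have h2 : g ^ i * x * (g ^ i)⁻¹ = ⁅g ^ i, x⁆ * x := by rw [commutatorElement_def]; group
      rw [h2]; exact Subgroup.mul_mem _ h1 hx
    · intro a ha b hb; exact hNK (hNcomm a ha b hb)
    · -- conjugation
      have key : ∀ a ∈ T, (∀ x ∈ N, a * x * a⁻¹ ∈ N) → ∀ x ∈ Kcl g F, a * x * a⁻¹ ∈ Kcl g F := by
        intro a haT hax x hx
        have hu : ∀ i : ℤ, a * g ^ i * a⁻¹ * (g ^ i)⁻¹ ∈ Kcl g F := by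
          intro i
          induction i using Int.induction_on with
          | zero => simp [Subgroup.one_mem]
          | succ n ihn =>
            have h1 : ⁅a, g⁆ ∈ Kcl g F := hNK (hNcomm a haT g hgT)
            have h2 := dfg_Kcl_conj_zpow g F (n : ℤ) h1
            have h3 : a * g ^ ((n : ℤ) + 1) * a⁻¹ * (g ^ ((n : ℤ) + 1))⁻¹
                = (a * g ^ (n : ℤ) * a⁻¹ * (g ^ (n : ℤ))⁻¹) * (g ^ (n : ℤ) * ⁅a, g⁆ * (g ^ (n : ℤ))⁻¹) := by
              rw [commutatorElement_def, zpow_add_one]; group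
            rw [h3]; exact Subgroup.mul_mem _ ihn h2
          | pred n ihn =>
            have h1 : ⁅a, g⁻¹⁆ ∈ Kcl g F := hNK (hNcomm a haT g⁻¹ (hTinv g hgT))
            have h2 := dfg_Kcl_conj_zpow g F (-(n : ℤ)) h1
            have h3 : a * g ^ (-(n : ℤ) - 1) * a⁻¹ * (g ^ (-(n : ℤ) - 1))⁻¹
                = (a * g ^ (-(n : ℤ)) * a⁻¹ * (g ^ (-(n : ℤ)))⁻¹) *
                  (g ^ (-(n : ℤ)) * ⁅a, g⁻¹⁆ * (g ^ (-(n : ℤ)))⁻¹) := by
              rw [commutatorElement_def, zpow_sub_one]; group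
            rw [h3]; exact Subgroup.mul_mem _ ihn h2
        unfold Kcl at hx
        induction hx using Subgroup.closure_induction with
        | mem y hy =>
          obtain ⟨i, x, hx, rfl⟩ := hy
          have h1 : a * x * a⁻¹ ∈ Kcl g F := hNK (hax x (hFsub hx))
          have h2 := dfg_Kcl_conj_zpow g F i h1
          have h3 : a * (g ^ i * x * (g ^ i)⁻¹) * a⁻¹
              = (a * g ^ i * a⁻¹ * (g ^ i)⁻¹) * (g ^ i * (a * x * a⁻¹) * (g ^ i)⁻¹) *
                (a * g ^ i * a⁻¹ * (g ^ i)⁻¹)⁻¹ := by group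
          rw [h3]
          exact Subgroup.mul_mem _ (Subgroup.mul_mem _ (hu i) h2) (Subgroup.inv_mem _ (hu i))
        | one => simp [Subgroup.one_mem]
        | mul b c _ _ hb hc =>
          have : a * (b * c) * a⁻¹ = (a * b * a⁻¹) * (a * c * a⁻¹) := by group
          rw [this]; exact Subgroup.mul_mem _ hb hc
        | inv b _ hb =>
          have : a * b⁻¹ * a⁻¹ = (a * b * a⁻¹)⁻¹ := by group
          rw [this]; exact Subgroup.inv_mem _ hb
      intro a ha x hx
      rw [Finset.mem_insert] at ha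
      rcases ha with rfl | ha
      · refine ⟨?_, ?_⟩
        · simpa using dfg_Kcl_conj_zpow a F 1 hx
        · simpa using dfg_Kcl_conj_zpow a F (-1) hx
      · refine ⟨key a (hAT ha) (fun x hx => (hNconj a ha x hx).1) x hx, ?_⟩
        have := key a⁻¹ (hTinv a (hAT ha)) (fun x hx => by
          simpa using (hNconj a ha x hx).2) x hx
        simpa using this

/-- if all `Kcl g F` with `g ∈ Γ`, `F` a finite subset of the derived subgroup, are f.g., then the derived
subgroup of the f.g. group `Γ` is f.g. -/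
theorem derived_fg {Γ : Subgroup G} (hfg : Γ.FG)
    (hR : ∀ (g : G) (F : Set G), g ∈ Γ → F.Finite → F ⊆ (⁅Γ, Γ⁆ : Subgroup G) → (Kcl g F).FG) :
    (⁅Γ, Γ⁆ : Subgroup G).FG := by
  classical
  obtain ⟨S, hS, hSfin⟩ := (Subgroup.fg_iff Γ).1 hfg
  have hSΓ : S ⊆ (Γ : Set G) := by rw [← hS]; exact Subgroup.subset_closure
  set T : Set G := S ∪ S⁻¹ with hT
  have hTfin : T.Finite := hSfin.union hSfin.inv
  have hTΓ : T ⊆ (Γ : Set G) := by
    rintro a (ha | ha)
    · exact hSΓ ha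
    · have := Γ.inv_mem (hSΓ ha); simpa using this
  have hTinv : ∀ a ∈ T, a⁻¹ ∈ T := by
    rintro a (ha | ha)
    · right; simpa using ha
    · left; exact ha
  have hTcl : Subgroup.closure T = Γ := by
    apply le_antisymm
    · rw [Subgroup.closure_le]; exact hTΓ
    · conv_lhs => rw [← hS]
      exact Subgroup.closure_mono Set.subset_union_left
  obtain ⟨N, hNfg, hNle, hNcomm, hNconj⟩ := derived_fg_aux hTΓ hTinv hTfin hR hTfin.toFinset
    (by simp)
  have hconj : ∀ a ∈ Γ, ∀ x ∈ N, a * x * a⁻¹ ∈ N := by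
    intro a ha
    rw [← hTcl] at ha
    induction ha using Subgroup.closure_induction with
    | mem a ha => exact fun x hx => (hNconj a (by simpa using ha) x hx).1
    | one => intro x hx; simpa using hx
    | mul a b _ _ iha ihb =>
      intro x hx
      have : a * b * x * (a * b)⁻¹ = a * (b * x * b⁻¹) * a⁻¹ := by group
      rw [this]; exact iha _ (ihb x hx)
    | inv a haT iha =>
      -- use the opposite generators: prove by symmetric closure
      have h2 : ∀ a ∈ Subgroup.closure T, ∀ x ∈ N, a⁻¹ * x * a ∈ N := by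
        intro a ha
        induction ha using Subgroup.closure_induction'' with
        | mem a ha => exact fun x hx => (hNconj a (by simpa using ha) x hx).2
        | inv_mem a ha => 
          intro x hx; simpa using (hNconj a (by simpa using ha) x hx).1
        | one => intro x hx; simpa using hx
        | mul a b _ _ iha ihb =>
          intro x hx
          have : (a * b)⁻¹ * x * (a * b) = b⁻¹ * (a⁻¹ * x * a) * b := by group
          rw [this]; exact ihb _ (iha x hx)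
      intro x hx
      have := h2 a haT x hx
      simpa using this
  have hcomm : ∀ a ∈ T, ∀ b ∈ Γ, ⁅a, b⁆ ∈ N := by
    intro a haT b hb
    have hb' := hb
    rw [← hTcl] at hb
    induction hb using Subgroup.closure_induction with
    | mem b hb => exact hNcomm a haT b hb
    | one => simp [Subgroup.one_mem]
    | mul b c hb hc ihb ihc =>
      have hbΓ : b ∈ Γ := by rw [← hTcl]; exact hb
      have hcΓ : c ∈ Γ := by rw [← hTcl]; exact hc
      have h3 : ⁅a, b * c⁆ = ⁅a, b⁆ * (b * ⁅a, c⁆ * b⁻¹) := by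
        simp only [commutatorElement_def]; group
      rw [h3]
      exact N.mul_mem (ihb hbΓ) (hconj b hbΓ _ (ihc hcΓ))
    | inv b hb ihb =>
      have hbΓ : b ∈ Γ := by rw [← hTcl]; exact hb
      have h3 : ⁅a, b⁻¹⁆ = b⁻¹ * (⁅a, b⁆)⁻¹ * b⁻¹⁻¹ := by
        simp only [commutatorElement_def]; group
      rw [h3]
      exact hconj b⁻¹ (Γ.inv_mem hbΓ) _ (N.inv_mem (ihb hbΓ))
  have hcomm2 : ∀ a ∈ Γ, ∀ b ∈ Γ, ⁅a, b⁆ ∈ N := by
    intro a ha b hb
    have ha' := ha
    rw [← hTcl] at ha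
    induction ha using Subgroup.closure_induction with
    | mem a ha => exact hcomm a ha b hb
    | one => simp [Subgroup.one_mem]
    | mul a c ha hc iha ihc =>
      have haΓ : a ∈ Γ := by rw [← hTcl]; exact ha
      have hcΓ : c ∈ Γ := by rw [← hTcl]; exact hc
      have h3 : ⁅a * c, b⁆ = (a * ⁅c, b⁆ * a⁻¹) * ⁅a, b⁆ := by
        simp only [commutatorElement_def]; group
      rw [h3]
      exact N.mul_mem (hconj a haΓ _ (ihc hcΓ)) (iha haΓ)
    | inv a ha iha =>
      have haΓ : a ∈ Γ := by rw [← hTcl]; exact ha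
      have h3 : ⁅a⁻¹, b⁆ = a⁻¹ * (⁅a, b⁆)⁻¹ * a⁻¹⁻¹ := by
        simp only [commutatorElement_def]; group
      rw [h3]
      exact hconj a⁻¹ (Γ.inv_mem haΓ) _ (N.inv_mem (iha haΓ))
  have hle : (⁅Γ, Γ⁆ : Subgroup G) ≤ N := Subgroup.commutator_le.2 hcomm2
  rw [le_antisymm hle hNle]
  exact hNfg

end RatVA
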