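import Mathlib
import Pool.Agent.Helper986.RatVA.VA

set_option autoImplicit false

namespace RatVA

open scoped commutatorElement

variable {G : Type*} [Group G]


theorem comm_mem (Γ : Subgroup G) {u g : G} (hg : g ∈ Γ) (hu : u ∈ (⁅Γ, Γ⁆ : Subgroup G)) :
    g * u * g⁻¹ ∈ (⁅Γ, Γ⁆ : Subgroup G) := by
  have huΓ : u ∈ Γ := by
    have : (⁅Γ, Γ⁆ : Subgroup G) ≤ Γ := by
      rw [Subgroup.commutator_le]
      intro a ha b hb
      rw [commutatorElement_def]
      exact Γ.mul_mem (Γ.mul_mem (Γ.mul_mem ha hb) (Γ.inv_mem ha)) (Γ.inv_mem hb)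
    exact this hu
  have h1 : ⁅g, u⁆ ∈ (⁅Γ, Γ⁆ : Subgroup G) := Subgroup.commutator_mem_commutator hg huΓ
  have h2 : g * u * g⁻¹ = ⁅g, u⁆ * u := by
    rw [commutatorElement_def]; group
  rw [h2]
  exact Subgroup.mul_mem _ h1 hu

theorem final_va
    -- available (proved separately): Heisenberg lemma
    (hheis : ∀ a b c : G, a * b * a⁻¹ * b⁻¹ = c → c * a = a * c → c * b = b * c →
      ∃ k : ℕ, 0 < k ∧ c ^ k = 1)
    -- available (proved separately): lemma Z
    (hz : ∀ (M : Subgroup G), M.FG → (∀ x ∈ M, ∀ y ∈ M, x * y = y * x) →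
      (∀ x ∈ M, ∀ n : ℕ, 0 < n → x ^ n = 1 → x = 1) →
      ∀ g : G, (∀ x ∈ M, g * x * g⁻¹ ∈ M) → (∀ x ∈ M, g⁻¹ * x * g ∈ M) →
      ∃ k : ℕ, 0 < k ∧ ∀ x ∈ M, g ^ k * x = x * g ^ k)
    -- available (proved separately): verbal torsion-free core
    (hcore : ∀ W : Subgroup G, W.FG → VA W →
      ∃ e : ℕ, 0 < e ∧ ∃ V : Subgroup G, V = Subgroup.closure {x : G | ∃ u ∈ W, x = u ^ e} ∧
      V ≤ W ∧ V.FG ∧ (∀ x ∈ V, ∀ y ∈ V, x * y = y * x) ∧
      (∀ x ∈ V, ∀ n : ℕ, 0 < n → x ^ n = 1 → x = 1) ∧ V.relIndex W ≠ 0)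
    {Γ : Subgroup G} (hfg : Γ.FG) (hNfg : (⁅Γ, Γ⁆ : Subgroup G).FG) (hNva : VA ⁅Γ, Γ⁆) :
    VA Γ := by
  obtain ⟨e, he, V, hV, hVN, hVfg, hVab, hVtf, hVidx⟩ := hcore ⁅Γ, Γ⁆ hNfg hNva
  have hNΓ : (⁅Γ, Γ⁆ : Subgroup G) ≤ Γ := by
    rw [Subgroup.commutator_le]
    intro a ha b hb
    rw [commutatorElement_def]
    exact Γ.mul_mem (Γ.mul_mem (Γ.mul_mem ha hb) (Γ.inv_mem ha)) (Γ.inv_mem hb)
  have hVΓ : V ≤ Γ := hVN.trans hNΓ
  -- `V` is normalised by `Γ`
  have hconj : ∀ g ∈ Γ, ∀ x ∈ V, g * x * g⁻¹ ∈ V := by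
    intro g hg x hx
    rw [hV] at hx ⊢
    induction hx using Subgroup.closure_induction with
    | mem y hy =>
      obtain ⟨u, hu, rfl⟩ := hy
      apply Subgroup.subset_closure
      exact ⟨g * u * g⁻¹, comm_mem Γ hg hu, conj_pow.symm⟩
    | one => simp only [mul_one, mul_inv_cancel]; exact Subgroup.one_mem _
    | mul y z _ _ hy hz =>
      have h1 : g * (y * z) * g⁻¹ = (g * y * g⁻¹) * (g * z * g⁻¹) := by group
      rw [h1]; exact Subgroup.mul_mem _ hy hz
    | inv y _ hy =>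
      have h1 : g * y⁻¹ * g⁻¹ = (g * y * g⁻¹)⁻¹ := by group
      rw [h1]; exact Subgroup.inv_mem _ hy
  have hconj' : ∀ g ∈ Γ, ∀ x ∈ V, g⁻¹ * x * g ∈ V := by
    intro g hg x hx
    have := hconj g⁻¹ (Γ.inv_mem hg) x hx
    rwa [inv_inv] at this
  -- powers centralise `V`
  have hpow : ∀ g ∈ Γ, ∃ k : ℕ, 0 < k ∧ ∀ x ∈ V, g ^ k * x = x * g ^ k :=
    fun g hg => hz V hVfg hVab hVtf g (hconj g hg) (hconj' g hg)
  -- the centraliser
  set C : Subgroup G := Γ ⊓ Subgroup.centralizer (V : Set G) with hC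
  have hCΓ : C ≤ Γ := inf_le_left
  have hVC : V ≤ C := by
    intro x hx
    refine Subgroup.mem_inf.mpr ⟨hVΓ hx, ?_⟩
    rw [Subgroup.mem_centralizer_iff]
    intro y hy
    exact hVab y hy x hx
  have hCcomm : ∀ c ∈ C, ∀ x ∈ V, x * c = c * x := by
    intro c hc x hx
    exact (Subgroup.mem_centralizer_iff.mp (Subgroup.mem_inf.mp hc).2) x hx
  -- `C` has finite index in `Γ`
  have hCidx : C.relIndex Γ ≠ 0 := by
    have hCn : (C.subgroupOf Γ).Normal := by
      constructor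
      intro c hc g
      rw [Subgroup.mem_subgroupOf] at hc ⊢
      refine Subgroup.mem_inf.mpr ⟨(g * c * g⁻¹).2, ?_⟩
      rw [Subgroup.mem_centralizer_iff]
      intro x hx
      have h1 := hCcomm _ hc _ (hconj' g g.2 x hx)
      have h2 : ((g * c * g⁻¹ : Γ) : G) = (g : G) * c * (g : G)⁻¹ := rfl
      rw [h2]
      calc x * ((g : G) * c * (g : G)⁻¹) = g * (((g : G)⁻¹ * x * g) * c) * (g : G)⁻¹ := by group
        _ = g * (c * ((g : G)⁻¹ * x * g)) * (g : G)⁻¹ := by rw [h1]
        _ = g * c * (g : G)⁻¹ * x := by group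
    have : Group.FG Γ := (Group.fg_iff_subgroup_fg Γ).mpr hfg
    set Q := Γ ⧸ C.subgroupOf Γ
    have : Group.FG Q := inferInstance
    -- commutator of `Q` is finite
    have hcomm : Finite (commutator Q) := by
      have h1 : commutator Q = (commutator Γ).map (QuotientGroup.mk' (C.subgroupOf Γ)) := by
        rw [commutator_def, commutator_def, Subgroup.map_commutator,
          Subgroup.map_top_of_surjective _ (QuotientGroup.mk'_surjective _)]
      have h2 : (commutator Γ) = (⁅Γ, Γ⁆ : Subgroup G).subgroupOf Γ := by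
        apply Subgroup.map_injective Γ.subtype_injective
        rw [Subgroup.map_subgroupOf_eq_of_le hNΓ, commutator_def, Subgroup.map_commutator,
          ← MonoidHom.range_eq_map, Subgroup.range_subtype]
      have h3 := Subgroup.relIndex_ker (K := commutator Γ) (QuotientGroup.mk' (C.subgroupOf Γ))
      rw [QuotientGroup.ker_mk', h2, Subgroup.relIndex_subgroupOf hNΓ] at h3
      have h4 : C.relIndex (⁅Γ, Γ⁆ : Subgroup G) ≠ 0 := by
        intro h0
        have := Subgroup.relIndex_dvd_of_le_left (⁅Γ, Γ⁆ : Subgroup G) hVC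
        rw [h0] at this
        exact hVidx (Nat.eq_zero_of_zero_dvd this)
      rw [h1, h2]
      apply Nat.finite_of_card_ne_zero
      rw [← h3]
      exact h4
    -- abelianization is finite
    have hab : Finite (Abelianization Q) := by
      have : Group.FG (Abelianization Q) := inferInstanceAs (Group.FG (Q ⧸ commutator Q))
      apply CommGroup.finite_of_fg_isMulTorsion
      intro a
      apply isOfFinOrder_iff_pow_eq_one.mpr
      obtain ⟨q, hq⟩ : ∃ q : Q, Abelianization.of q = a := QuotientGroup.mk_surjective a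
      obtain ⟨g, hg⟩ : ∃ g : Γ, (QuotientGroup.mk' (C.subgroupOf Γ)) g = q :=
        QuotientGroup.mk'_surjective _ q
      obtain ⟨k, hk, hk'⟩ := hpow g g.2
      refine ⟨k, hk, ?_⟩
      have h1 : (QuotientGroup.mk' (C.subgroupOf Γ)) (g ^ k) = 1 := by
        apply (QuotientGroup.eq_one_iff _).mpr
        rw [Subgroup.mem_subgroupOf]
        refine Subgroup.mem_inf.mpr ⟨(g ^ k).2, ?_⟩
        rw [Subgroup.mem_centralizer_iff]
        intro x hx
        exact (hk' x hx).symm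
      rw [← hq, ← map_pow, ← hg, ← map_pow, h1, map_one]
    have hQ : Finite Q := by
      have h1 : (commutator Q).index ≠ 0 := by
        have : Finite (Q ⧸ commutator Q) := hab
        exact Subgroup.index_ne_zero_of_finite
      have h2 := Subgroup.card_mul_index (commutator Q)
      apply Nat.finite_of_card_ne_zero
      rw [← h2]
      exact mul_ne_zero Nat.card_pos.ne' h1
    exact Subgroup.index_ne_zero_of_finite (H := C.subgroupOf Γ)
  -- `C` is finitely generated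
  have hCfg : Group.FG C := by
    have : Group.FG Γ := (Group.fg_iff_subgroup_fg Γ).mpr hfg
    have : (C.subgroupOf Γ).FiniteIndex := ⟨hCidx⟩
    have h1 : Group.FG (C.subgroupOf Γ) := inferInstance
    exact Group.fg_of_surjective (f := (Subgroup.subgroupOfEquivOfLe hCΓ).toMonoidHom)
      (Subgroup.subgroupOfEquivOfLe hCΓ).surjective
  have hVn : (V.subgroupOf C).Normal := by
    constructor
    intro v hv g
    rw [Subgroup.mem_subgroupOf] at hv ⊢
    exact hconj g (hCΓ g.2) v hv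
  have hcs : Finite (commutatorSet (C ⧸ V.subgroupOf C)) := by
    have h3 := Subgroup.relIndex_ker (K := (⁅Γ, Γ⁆ : Subgroup G).subgroupOf C)
      (QuotientGroup.mk' (V.subgroupOf C))
    rw [QuotientGroup.ker_mk'] at h3
    have h4 : (V.subgroupOf C).relIndex ((⁅Γ, Γ⁆ : Subgroup G).subgroupOf C) ≠ 0 := by
      have h5 : (⁅Γ, Γ⁆ : Subgroup G).subgroupOf C =
          ((⁅Γ, Γ⁆ : Subgroup G) ⊓ C).subgroupOf C := by
        rw [Subgroup.inf_subgroupOf_right]
      rw [h5, Subgroup.relIndex_subgroupOf inf_le_right]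
      intro h0
      apply hVidx
      exact Subgroup.relIndex_eq_zero_of_le_right inf_le_left h0
    have h6 : Finite (((⁅Γ, Γ⁆ : Subgroup G).subgroupOf C).map
        (QuotientGroup.mk' (V.subgroupOf C))) := by
      apply Nat.finite_of_card_ne_zero
      rw [← h3]; exact h4
    have h7 : commutatorSet (C ⧸ V.subgroupOf C) ⊆
        ((((⁅Γ, Γ⁆ : Subgroup G).subgroupOf C).map
        (QuotientGroup.mk' (V.subgroupOf C)) : Subgroup (C ⧸ V.subgroupOf C)) :
          Set (C ⧸ V.subgroupOf C)) := by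
      rintro _ ⟨a, b, rfl⟩
      obtain ⟨a, rfl⟩ := QuotientGroup.mk_surjective a
      obtain ⟨b, rfl⟩ := QuotientGroup.mk_surjective b
      refine ⟨⁅a, b⁆, ?_, ?_⟩
      · show ⁅a, b⁆ ∈ (⁅Γ, Γ⁆ : Subgroup G).subgroupOf C
        rw [Subgroup.mem_subgroupOf]
        exact Subgroup.commutator_mem_commutator (hCΓ a.2) (hCΓ b.2)
      · rfl
    exact (Set.toFinite _ : Set.Finite (((((⁅Γ, Γ⁆ : Subgroup G).subgroupOf C).map
        (QuotientGroup.mk' (V.subgroupOf C)) : Subgroup (C ⧸ V.subgroupOf C)) :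
          Set (C ⧸ V.subgroupOf C)))).subset h7
  have := hcs
  have : Group.FG (C ⧸ V.subgroupOf C) := inferInstance
  have hcen : (Subgroup.center (C ⧸ V.subgroupOf C)).FiniteIndex := inferInstance
  set E := (Subgroup.center (C ⧸ V.subgroupOf C)).comap (QuotientGroup.mk' (V.subgroupOf C)) with hE
  have hEidx : E.index ≠ 0 := by
    rw [hE, Subgroup.index_comap_of_surjective _ (QuotientGroup.mk'_surjective _)]
    exact hcen.index_ne_zero
  have hEcen : ∀ x ∈ E, ∀ y : C, x * y = y * x := by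
    intro x hx y
    have h1 : ⁅x, y⁆ ∈ V.subgroupOf C := by
      rw [← QuotientGroup.eq_one_iff]
      have h2 : (x : C ⧸ V.subgroupOf C) ∈ Subgroup.center (C ⧸ V.subgroupOf C) := hx
      rw [Subgroup.mem_center_iff] at h2
      have h3 := h2 (y : C ⧸ V.subgroupOf C)
      have h4 : ((⁅x, y⁆ : C) : C ⧸ V.subgroupOf C) = ⁅(x : C ⧸ V.subgroupOf C), (y : C ⧸ V.subgroupOf C)⁆ :=
        rfl
      rw [h4, commutatorElement_eq_one_iff_mul_comm]
      exact h3.symm
    rw [Subgroup.mem_subgroupOf] at h1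
    have h5 : ((⁅x, y⁆ : C) : G) = (x : G) * y * (x : G)⁻¹ * (y : G)⁻¹ := rfl
    obtain ⟨k, hk, hk'⟩ := hheis x y ((⁅x, y⁆ : C) : G) h5.symm (hCcomm x x.2 _ h1)
      (hCcomm y y.2 _ h1)
    have h6 := hVtf _ h1 k hk hk'
    have h7 : (⁅x, y⁆ : C) = 1 := Subtype.ext h6
    exact commutatorElement_eq_one_iff_mul_comm.mp h7
  refine ⟨E.map C.subtype, ?_, ?_, ?_⟩
  · rintro _ ⟨x, _, rfl⟩
    exact hCΓ x.2
  · rintro _ ⟨x, hx, rfl⟩ _ ⟨y, hy, rfl⟩
    have := hEcen x hx y
    exact congrArg C.subtype this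
  · apply Subgroup.relIndex_ne_zero_trans _ hCidx
    have h1 : (E.map C.subtype).relIndex C = E.index := by
      have h2 := Subgroup.relIndex_map_map_of_injective E ⊤ C.subtype_injective
      rw [← MonoidHom.range_eq_map, Subgroup.range_subtype] at h2
      rw [h2, Subgroup.relIndex_top_right]
    rw [h1]
    exact hEidx

end RatVA
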