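import Mathlib
import Pool.Agent.Helper986.RatVA.ClaimR
import Pool.Agent.Helper986.RatVA.Derived
import Pool.Agent.Helper986.RatVA.FinalVA

set_option autoImplicit false

open scoped Pointwise

namespace RatVA

variable {G : Type*} [Group G]

theorem norm_comm {Γ : Subgroup G} {g : G} (hg : g ∈ Γ) :
    ∀ x ∈ (⁅Γ, Γ⁆ : Subgroup G), g * x * g⁻¹ ∈ (⁅Γ, Γ⁆ : Subgroup G) :=
  der_conj (K := Γ) (g := g) (fun _ hx => Γ.mul_mem (Γ.mul_mem hg hx) (Γ.inv_mem hg)) 1

theorem allVA (hI : PropI G) : ∀ (d : ℕ) (Γ : Subgroup G), Γ.FG → der d Γ = ⊥ → VA Γ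
  | 0, Γ, _, hd => by
    have : Γ = ⊥ := hd
    subst this
    refine ⟨⊥, le_refl _, ?_, ?_⟩
    · intro x hx y hy
      rw [Subgroup.mem_bot] at hx hy
      rw [hx, hy]
    · rw [Subgroup.relIndex_self]; exact one_ne_zero
  | d + 1, Γ, hfg, hd => by
    have hloc : LocVA (⁅Γ, Γ⁆ : Subgroup G) := by
      intro W hW hWfg
      apply allVA hI d W hWfg
      rw [eq_bot_iff]
      refine (der_mono hW d).trans ?_
      rw [der_comm, hd]
    have hR : ∀ (g : G) (F : Set G), g ∈ Γ → F.Finite → F ⊆ (⁅Γ, Γ⁆ : Subgroup G) →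
        (Kcl g F).FG := by
      intro g F hg hF hsub
      have hle : Kcl g F ≤ ⁅Γ, Γ⁆ := by
        apply Kcl_le hsub (norm_comm hg)
        have := norm_comm (Γ.inv_mem hg)
        intro x hx
        have h2 := this x hx
        rwa [inv_inv] at h2
      apply claimR hI d g F hF (hloc.mono hle)
      rw [eq_bot_iff]
      refine (der_mono hle d).trans ?_
      rw [der_comm, hd]
    have hNfg := derived_fg hfg hR
    have hNva : VA (⁅Γ, Γ⁆ : Subgroup G) := hloc _ (le_refl _) hNfg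
    exact final_va (fun a b c hc hca hcb => heisenberg hI a b c hc hca hcb)
      (fun M hM hc ht g h1 h2 => lemmaZ hI M hM hc ht g h1 h2)
      (fun _ hW hVA => va_core hW hVA) hfg hNfg hNva

theorem der_top (n : ℕ) : der n (⊤ : Subgroup G) = derivedSeries G n := by
  induction n with
  | zero => rfl
  | succ n ih =>
    show ⁅der n (⊤ : Subgroup G), der n ⊤⁆ = _
    rw [ih, derivedSeries_succ]

/-- f.g. solvable group whose rational subsets are closed under intersection is virtually abelian -/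
theorem va_of_propI (hI : PropI G) (hfg : Group.FG G) (hsolv : IsSolvable G) :
    ∃ H : Subgroup G, H.index ≠ 0 ∧ ∀ a ∈ H, ∀ b ∈ H, a * b = b * a := by
  obtain ⟨n, hn⟩ := hsolv
  have hfg' : (⊤ : Subgroup G).FG := Group.fg_def.1 hfg
  obtain ⟨A, _, hA, hAi⟩ := allVA hI n ⊤ hfg' (by rw [der_top, hn])
  refine ⟨A, ?_, hA⟩
  rwa [Subgroup.relIndex_top_right] at hAi

end RatVA
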